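import Pool.Agent.R223.RY.Asm
import Pool.Agent.R223.RX.Asm
import Pool.Agent.R892.BR.Main

/-! # Project RY: comparison with the constants of the questions (helper223) -/

set_option autoImplicit false

open MeasureTheory Set Filter Topology
open scoped SchwartzMap ENNReal

namespace Pool.Agent.R223.RY.Ord

open Pool.Agent.Y282.RB (Tn Cn)
open Pool.Agent.R223.RD
open Pool.Agent.R223.RY.Asm

/-- the constant `√|S| (1 + min (√(n (n - l))) (4 (n (n - l)) ^ (1/4)))` -/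
noncomputable def cS (n : ℕ) (l : ℤ) (c : ℕ) : ℝ :=
  Real.sqrt c * (1 + min (Real.sqrt ((n : ℝ) * (n - l)))
    (4 * Real.sqrt (Real.sqrt ((n : ℝ) * (n - l)))))

theorem cS_nonneg (n : ℕ) (l : ℤ) (c : ℕ) : 0 ≤ cS n l c := by
  unfold cS
  have : 0 ≤ min (Real.sqrt ((n : ℝ) * (n - l)))
    (4 * Real.sqrt (Real.sqrt ((n : ℝ) * (n - l)))) := le_min (by positivity) (by positivity)
  positivity

/-- conclusion for functions with frequencies in `S ⊆ [l, n]` -/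
def BandC : Prop := ∀ (n : ℕ) (l : ℤ) (p : ℝ) (f : ℤ → 𝓢(ℂ, ℂ)), l ≤ n → 2 ≤ p →
    ∀ S : Finset ℤ, (∀ k ∈ S, l ≤ k ∧ k ≤ n) →
    (∀ k ∈ S, ∀ a z : ℂ, ‖a‖ = 1 → f k (a * z) = a ^ k * f k z) →
    eLpNorm (Tn n (fun z => ∑ k ∈ S, f k z)) (ENNReal.ofReal p) (volume : Measure ℂ) ≤
      ENNReal.ofReal (cS n l S.card ^ (1 - 2 / p)) *
        eLpNorm (fun z => ∑ k ∈ S, f k z) (ENNReal.ofReal p) (volume : Measure ℂ)

theorem band (h1 : SqAllG (fun N => 1 + N)) (h2 : SqAllG (fun N => 1 + 4 * Real.sqrt N))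
    (hNK : S_NK) (hTY : S_TY) : BandC := by
  intro n l p f hl hp S hS hf
  unfold cS
  rcases le_total (Real.sqrt ((n : ℝ) * (n - l)))
    (4 * Real.sqrt (Real.sqrt ((n : ℝ) * (n - l)))) with h | h
  · rw [min_eq_left h]
    exact lp _ (fun x hx => by positivity) h1 hNK hTY n l p f hl hp S hS hf
  · rw [min_eq_right h]
    exact lp _ (fun x hx => by positivity) h2 hNK hTY n l p f hl hp S hS hf

/-- comparison with the constant of `MP_3dd6d4_an` -/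
theorem le_D (x : ℝ) (n : ℕ) (p : ℝ) (hp : 2 ≤ p) (hx : 0 ≤ x) (h : x ≤ Real.exp 2 * n) :
    x ^ (1 - 2 / p) ≤ (n : ℝ) ^ (1 - 2 / p) * (p - 1) := by
  have hp0 : 0 < p := by linarith
  have h2p : 2 / p ≤ 1 := by rw [div_le_one hp0]; exact hp
  have hy : 0 ≤ 1 - 2 / p := by linarith
  have hy1 : 1 - 2 / p < 1 := by
    have : 0 < 2 / p := by positivity
    linarith
  have hn' : (0 : ℝ) ≤ n := Nat.cast_nonneg n
  have h1 := R892.BR.exp_le (1 - 2 / p) hy hy1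
  have h2 : (1 + (1 - 2 / p)) / (1 - (1 - 2 / p)) = p - 1 := by
    field_simp
    ring
  rw [h2] at h1
  calc x ^ (1 - 2 / p) ≤ (Real.exp 2 * n) ^ (1 - 2 / p) := Real.rpow_le_rpow hx h hy
    _ = Real.exp (2 * (1 - 2 / p)) * (n : ℝ) ^ (1 - 2 / p) := by
        rw [Real.mul_rpow (Real.exp_pos 2).le hn', ← Real.exp_mul]
    _ ≤ (p - 1) * (n : ℝ) ^ (1 - 2 / p) := by
        apply mul_le_mul_of_nonneg_right h1
        positivity
    _ = _ := mul_comm _ _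

/-- comparison with the constant of `MP_dd244f_an` -/
theorem le_C (x : ℝ) (n : ℕ) (hn : 2 ≤ n) (p : ℝ) (hp : 2 ≤ p) (hx : 0 ≤ x)
    (h : x ≤ 34 / 5 * ((n : ℝ) + 1 / 12)) : x ^ (1 - 2 / p) ≤ Cn p n := by
  have hp0 : 0 < p := by linarith
  have h2p : 2 / p ≤ 1 := by rw [div_le_one hp0]; exact hp
  exact (Real.rpow_le_rpow hx h (by linarith)).trans (R892.BR.Cn_lower n hn p hp)

/-- the frequencies `0, ..., n` -/
theorem cS_zero (n : ℕ) (hn : 2 ≤ n) (c : ℕ) (hc : c ≤ n + 1) :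
    cS n 0 c ≤ 34 / 5 * ((n : ℝ) + 1 / 12) := by
  have hn' : (2 : ℝ) ≤ n := by exact_mod_cast hn
  have hc' : (c : ℝ) ≤ n + 1 := by exact_mod_cast hc
  unfold cS
  have e1 : Real.sqrt ((n : ℝ) * (n - ((0 : ℤ) : ℝ))) = n := by
    rw [Int.cast_zero, sub_zero]
    exact Real.sqrt_mul_self (by linarith)
  rw [e1]
  set s := Real.sqrt n with hs
  have hs2 : s ^ 2 = n := Real.sq_sqrt (by linarith)
  have hs0 : 0 ≤ s := Real.sqrt_nonneg _
  have hs1 : 7 / 5 ≤ s := by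
    by_contra hcon
    push Not at hcon
    nlinarith
  have h1 : Real.sqrt c ≤ s + 1 / (2 * s) := by
    rw [Real.sqrt_le_left (by positivity)]
    have e : (s + 1 / (2 * s)) ^ 2 = s ^ 2 + 1 + (1 / (2 * s)) ^ 2 := by
      field_simp
      ring
    rw [e, hs2]
    nlinarith [sq_nonneg (1 / (2 * s))]
  have h2 : 1 / (2 * s) ≤ 5 / 14 := by
    rw [div_le_div_iff₀ (by positivity) (by norm_num)]
    linarith
  have h3 : 1 + min (n : ℝ) (4 * s) ≤ 1 + 4 * s := by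
    linarith [min_le_right (n : ℝ) (4 * s)]
  have h4 : 0 ≤ 1 + min (n : ℝ) (4 * s) := by
    have : 0 ≤ min (n : ℝ) (4 * s) := le_min (by linarith) (by linarith)
    linarith
  calc Real.sqrt c * (1 + min (n : ℝ) (4 * s)) ≤ (s + 1 / (2 * s)) * (1 + 4 * s) :=
        mul_le_mul h1 h3 h4 (by positivity)
    _ = 4 * s ^ 2 + s + 2 + 1 / (2 * s) := by
        field_simp
        ring
    _ ≤ 34 / 5 * ((n : ℝ) + 1 / 12) := by
        rw [← hs2]
        nlinarith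

/-- `n = 1`: the inequality `‖T F‖_p ≤ (p - 1) ‖F‖_p` of the starting files -/
theorem one (p : ℝ) (hp : 2 ≤ p) (S : Finset ℤ) (f : ℤ → 𝓢(ℂ, ℂ)) :
    eLpNorm (Tn 1 fun z => ∑ k ∈ S, f k z) (ENNReal.ofReal p) (volume : Measure ℂ) ≤
      ENNReal.ofReal (Cn p 1) *
        eLpNorm (fun z => ∑ k ∈ S, f k z) (ENNReal.ofReal p) (volume : Measure ℂ) := by
  have e0 : (fun z => ∑ k ∈ S, f k z) = ((∑ k ∈ S, f k : 𝓢(ℂ, ℂ)) : ℂ → ℂ) := by
    funext z
    simp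
  rw [e0]
  have h := Pool.Agent.TH55.PowA.base p hp (∑ k ∈ S, f k)
  have e : Cn p 1 = p - 1 := by
    unfold Cn
    rw [Finset.prod_range_one]
    simp only [Nat.cast_zero, zero_add]
    have : p ≠ 0 := by linarith
    field_simp
  rw [e]
  have e2 : Tn 1 ((∑ k ∈ S, f k : 𝓢(ℂ, ℂ)) : ℂ → ℂ) =
      Pool.Agent.TH55.PowA.T Pool.Agent.TH55.PowA.bs (∑ k ∈ S, f k : 𝓢(ℂ, ℂ)) := by
    rw [Pool.Agent.Y282.RB.K.Tn_eq]
    simp only [pow_one]
  rw [e2]
  exact h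

end Pool.Agent.R223.RY.Ord
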