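import Pool.Agent.R223.RD.Asm2
import Pool.Agent.R223.RD.Stm3

/-! # Project RY: assembly (helper223) -/

set_option autoImplicit false

open MeasureTheory Set Filter Topology
open scoped SchwartzMap ENNReal

namespace Pool.Agent.R223.RY.Asm

open Pool.Agent.Y282.RB (Tn)
open Pool.Agent.R223.RD
open Pool.Agent.R223.RD.Asm
open Pool.Agent.R223.RD.Asm2 (sq_add sq_split KK KK_ne T_le T_cont T_sub lim_le' Tn_sum)

/-- the square function bound on the nice class with constant `Φ N` -/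
def PVG (Φ : ℝ → ℝ) : Prop := ∀ (ι : Type) [Fintype ι] (m n : ι → ℕ) (N p : ℝ)
  (V : ι → ℝ → ℂ), (∀ i, n i ≤ m i) → 0 ≤ N → (∀ i, (n i : ℝ) * m i ≤ N ^ 2) → 2 ≤ p →
  (∀ i, Cc (V i)) →
  ∃ F : ι → 𝓢(ℂ, ℂ),
    (∀ i z, F i z = (z⁻¹) ^ (m i - n i) * iteratedDeriv (n i) (V i) (Complex.normSq z)) ∧
    eLpNorm (fun z : ℂ => Real.sqrt (∑ i, ‖Tn (n i) (F i) z‖ ^ 2)) (ENNReal.ofReal p)
        (volume : Measure ℂ)
      ≤ ENNReal.ofReal ((Φ N) ^ (1 - 2 / p)) *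
        eLpNorm (fun z : ℂ => Real.sqrt (∑ i, ‖F i z‖ ^ 2)) (ENNReal.ofReal p)
          (volume : Measure ℂ)

/-- the square function bound for Schwartz functions of types `-(m i - n i)` and powers `n i` -/
def SqNegG (Φ : ℝ → ℝ) : Prop := ∀ (ι : Type) [Fintype ι] (m n : ι → ℕ) (N p : ℝ)
  (f : ι → 𝓢(ℂ, ℂ)),
  (∀ i, n i ≤ m i) → 0 ≤ N → (∀ i, (n i : ℝ) * m i ≤ N ^ 2) → 2 ≤ p →
  (∀ i, ∀ a z : ℂ, ‖a‖ = 1 → a ^ (m i - n i) * f i (a * z) = f i z) →
    eLpNorm (fun z : ℂ => Real.sqrt (∑ i, ‖Tn (n i) (f i) z‖ ^ 2)) (ENNReal.ofReal p)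
        (volume : Measure ℂ)
      ≤ ENNReal.ofReal ((Φ N) ^ (1 - 2 / p)) *
        eLpNorm (fun z : ℂ => Real.sqrt (∑ i, ‖f i z‖ ^ 2)) (ENNReal.ofReal p)
          (volume : Measure ℂ)

/-- the square function bound for Schwartz functions of types `k i ≤ n` -/
def SqAllG (Φ : ℝ → ℝ) : Prop := ∀ (ι : Type) [Fintype ι] (n : ℕ) (k : ι → ℤ) (N p : ℝ)
  (f : ι → 𝓢(ℂ, ℂ)),
  (∀ i, k i ≤ n) → 0 ≤ N → (∀ i, (n : ℝ) * ((n : ℝ) - (k i : ℝ)) ≤ N ^ 2) → 2 ≤ p →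
  (∀ i, ∀ a z : ℂ, ‖a‖ = 1 → f i (a * z) = a ^ (k i) * f i z) →
    eLpNorm (fun z : ℂ => Real.sqrt (∑ i, ‖Tn n (f i) z‖ ^ 2)) (ENNReal.ofReal p)
        (volume : Measure ℂ)
      ≤ ENNReal.ofReal ((Φ N) ^ (1 - 2 / p)) *
        eLpNorm (fun z : ℂ => Real.sqrt (∑ i, ‖f i z‖ ^ 2)) (ENNReal.ofReal p)
          (volume : Measure ℂ)

theorem sqNeg (Φ : ℝ → ℝ) (hP : PVG Φ) (hAP : S_AP) (hTR : S_TR) : SqNegG Φ := by
  intro ι _ m n N p f hnm hN hmn hp hf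
  have hone : ∀ δ : ℝ, 0 < δ → ∀ i, ∃ V : ℝ → ℂ, Cc V ∧ ∀ F : 𝓢(ℂ, ℂ),
      (∀ z, F z = (z⁻¹) ^ (m i - n i) * iteratedDeriv (n i) V (Complex.normSq z)) →
      eLpNorm (f i - F : 𝓢(ℂ, ℂ)) (ENNReal.ofReal p) (volume : Measure ℂ)
        ≤ 2 * ENNReal.ofReal δ := by
    intro δ hδ i
    have hP1 : (1 : ℝ≥0∞) ≤ ENNReal.ofReal p := by
      rw [← ENNReal.ofReal_one]
      exact ENNReal.ofReal_le_ofReal (by linarith)
    obtain ⟨w, g, hw, hg, hle, hfg⟩ := hTR (m i - n i) (f i) (hf i) p hp δ hδ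
    obtain ⟨V, hV, hV1, hV2⟩ := hAP p hp (n i) w hw δ hδ
    refine ⟨V, hV, fun F hF => ?_⟩
    have hgF : eLpNorm (g - F : 𝓢(ℂ, ℂ)) (ENNReal.ofReal p) (volume : Measure ℂ)
        ≤ ENNReal.ofReal δ := by
      refine (eLpNorm_mono fun z => ?_).trans hV2
      show ‖g z - F z‖ ≤ _
      rw [hg, hF, ← mul_sub, norm_mul]
      rcases lt_or_ge (Complex.normSq z) 1 with h1 | h1
      · rw [hV1 _ h1]
        simp
      · have hz : 1 ≤ ‖z‖ := by
          rw [Complex.normSq_eq_norm_sq] at h1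
          nlinarith [norm_nonneg z]
        have h2 : ‖(z⁻¹) ^ (m i - n i)‖ ≤ 1 := by
          rw [norm_pow, norm_inv]
          exact pow_le_one₀ (by positivity) (inv_le_one_of_one_le₀ hz)
        exact mul_le_of_le_one_left (norm_nonneg _) h2
    have e1 : (⇑(f i - F : 𝓢(ℂ, ℂ)) : ℂ → ℂ) = ⇑(f i - g : 𝓢(ℂ, ℂ)) + ⇑(g - F : 𝓢(ℂ, ℂ)) := by
      funext z
      show f i z - F z = (f i z - g z) + (g z - F z)
      ring
    rw [e1, two_mul]
    exact (eLpNorm_add_le (f i - g).continuous.aestronglyMeasurable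
      (g - F).continuous.aestronglyMeasurable hP1).trans (add_le_add hfg hgF)
  refine lim_le' _ _ (∑ i, KK (n i) p * 2) (∑ _i : ι, 2) _
    (ENNReal.sum_ne_top.2 fun i _ => ENNReal.mul_ne_top (KK_ne _ _) (by norm_num))
    (ENNReal.sum_ne_top.2 fun i _ => by norm_num) ENNReal.ofReal_ne_top fun δ hδ => ?_
  choose V hV hVF using hone δ hδ
  obtain ⟨F, hF, hFle⟩ := hP ι m n N p V hnm hN hmn hp hV
  have hd : ∀ i, eLpNorm (f i - F i : 𝓢(ℂ, ℂ)) (ENNReal.ofReal p) (volume : Measure ℂ)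
        ≤ 2 * ENNReal.ofReal δ := fun i => hVF i (F i) (hF i)
  have hd' : ∀ i, eLpNorm (F i - f i : 𝓢(ℂ, ℂ)) (ENNReal.ofReal p) (volume : Measure ℂ)
        ≤ 2 * ENNReal.ofReal δ := fun i => by
    refine (le_of_eq ?_).trans (hd i)
    have e : (⇑(F i - f i : 𝓢(ℂ, ℂ)) : ℂ → ℂ) = -⇑(f i - F i : 𝓢(ℂ, ℂ)) := by
      funext z
      show F i z - f i z = -(f i z - F i z)
      ring
    rw [e]
    exact eLpNorm_neg _ _ _
  have s1 := sq_split p hp (fun i => Tn (n i) (f i)) (fun i => Tn (n i) (F i))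
    (fun i => Tn (n i) (f i - F i : 𝓢(ℂ, ℂ))) (fun i => T_cont _ _) (fun i => T_cont _ _)
    (fun i => T_cont _ _) (fun i z => by
      rw [T_sub (n i) (f i) (F i) z]
      exact norm_add_le _ _)
  have s2 := sq_split p hp (fun i => ⇑(F i)) (fun i => ⇑(f i))
    (fun i => ⇑(F i - f i : 𝓢(ℂ, ℂ))) (fun i => (F i).continuous) (fun i => (f i).continuous)
    (fun i => (F i - f i).continuous) (fun i z => by
      have e : F i z = f i z + (F i - f i : 𝓢(ℂ, ℂ)) z := by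
        show F i z = f i z + (F i z - f i z)
        ring
      rw [e]
      exact norm_add_le _ _)
  refine s1.trans ?_
  rw [add_comm]
  refine add_le_add ?_ ?_
  · rw [Finset.sum_mul]
    refine Finset.sum_le_sum fun i _ => ?_
    rw [mul_assoc]
    exact (T_le (n i) p hp _).trans (by gcongr; exact hd i)
  · refine hFle.trans ?_
    gcongr
    refine s2.trans (add_le_add le_rfl ?_)
    rw [Finset.sum_mul]
    exact Finset.sum_le_sum fun i _ => hd' i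

theorem sqAll (Φ : ℝ → ℝ) (hN' : SqNegG Φ) (hTR : S_TR2) (hSG : S_SG) : SqAllG Φ := by
  intro ι _ n k N p f hk hN hkN hp hf
  have hone : ∀ δ : ℝ, 0 < δ → ∀ i, ∃ (m' n' : ℕ) (g g' : 𝓢(ℂ, ℂ)), n' ≤ m' ∧
      (n' : ℝ) * m' ≤ N ^ 2 ∧ (∀ z, Tn n g z = Tn n' g' z) ∧ (∀ z, ‖g' z‖ = ‖g z‖) ∧
      (∀ z, ‖g z‖ ≤ ‖f i z‖) ∧ (∀ a z : ℂ, ‖a‖ = 1 → a ^ (m' - n') * g' (a * z) = g' z) ∧
      eLpNorm (f i - g : 𝓢(ℂ, ℂ)) (ENNReal.ofReal p) (volume : Measure ℂ)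
        ≤ ENNReal.ofReal δ := by
    intro δ hδ i
    obtain ⟨m, hm⟩ : ∃ m : ℕ, (m : ℤ) = n - k i := ⟨(n - k i).toNat, by have := hk i; omega⟩
    have hmr : (m : ℝ) = (n : ℝ) - (k i : ℝ) := by
      have : ((m : ℤ) : ℝ) = ((n - k i : ℤ) : ℝ) := by rw [hm]
      push_cast at this
      exact this
    rcases le_total n m with h | h
    · refine ⟨m, n, f i, f i, h, ?_, fun z => rfl, fun z => rfl, fun z => le_rfl, fun a z ha => ?_, ?_⟩
      · rw [hmr]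
        exact hkN i
      · have ha0 : a ≠ 0 := by
          intro h0
          rw [h0, norm_zero] at ha
          exact zero_ne_one ha
        have e : k i = -((m - n : ℕ) : ℤ) := by omega
        rw [hf i a z ha, e, zpow_neg, zpow_natCast, ← mul_assoc,
          mul_inv_cancel₀ (pow_ne_zero _ ha0), one_mul]
      · have e : (⇑(f i - f i : 𝓢(ℂ, ℂ)) : ℂ → ℂ) = 0 := by
          funext z
          show f i z - f i z = 0
          ring
        rw [e, eLpNorm_zero]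
        exact bot_le
    · have e : k i = ((n - m : ℕ) : ℤ) := by omega
      obtain ⟨w, g, hw, hg, hle, hfg⟩ := hTR (n - m) (f i) (fun a z ha => by
        rw [hf i a z ha, e, zpow_natCast]) p hp δ hδ
      obtain ⟨g', hg', hT⟩ := hSG (n - m) m w g hw hg
      refine ⟨n, m, g, g', h, ?_, fun z => ?_, fun z => ?_, hle, fun a z ha => ?_, hfg⟩
      · rw [hmr, mul_comm]
        exact hkN i
      · rw [← hT z, Nat.sub_add_cancel h]
      · rw [hg', hg, norm_mul, norm_mul, norm_pow, norm_pow, RCLike.norm_conj]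
      · rw [hg', hg', map_mul, mul_pow, ← mul_assoc, ← mul_assoc, ← mul_pow]
        have h2 : a * (starRingEnd ℂ) a = 1 := by
          rw [Complex.mul_conj, Complex.normSq_eq_norm_sq, ha]
          norm_num
        have h3 : Complex.normSq (a * z) = Complex.normSq z := by
          rw [map_mul, Complex.normSq_eq_norm_sq a, ha]
          ring
        rw [h2, h3, one_pow, one_mul]
  refine lim_le' _ _ (∑ _i : ι, KK n p) 0 _
    (ENNReal.sum_ne_top.2 fun i _ => KK_ne _ _) (by norm_num) ENNReal.ofReal_ne_top fun δ hδ => ?_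
  choose m' n' g g' h1 h2 h3 h4 h5 h6 h7 using hone δ hδ
  have s1 := sq_split p hp (fun i => Tn n (f i)) (fun i => Tn n (g i))
    (fun i => Tn n (f i - g i : 𝓢(ℂ, ℂ))) (fun i => T_cont _ _) (fun i => T_cont _ _)
    (fun i => T_cont _ _) (fun i z => by
      rw [T_sub n (f i) (g i) z]
      exact norm_add_le _ _)
  refine s1.trans ?_
  rw [add_comm]
  refine add_le_add ?_ ?_
  · rw [Finset.sum_mul]
    exact Finset.sum_le_sum fun i _ => (T_le n p hp _).trans (by gcongr; exact h7 i)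
  · have e1 : (fun z : ℂ => Real.sqrt (∑ i, ‖Tn n (g i) z‖ ^ 2)) =
        fun z : ℂ => Real.sqrt (∑ i, ‖Tn (n' i) (g' i) z‖ ^ 2) := by
      funext z
      simp only [h3]
    rw [e1, zero_mul, add_zero]
    refine (hN' ι m' n' N p g' h1 hN h2 hp h6).trans ?_
    gcongr
    refine eLpNorm_mono fun z => ?_
    rw [Real.norm_of_nonneg (Real.sqrt_nonneg _), Real.norm_of_nonneg (Real.sqrt_nonneg _)]
    refine Real.sqrt_le_sqrt (Finset.sum_le_sum fun i _ => ?_)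
    rw [h4]
    exact pow_le_pow_left₀ (norm_nonneg _) (h5 i z) 2

/-- from square functions to functions: `card S` angular types in `[l, n]` -/
theorem lp (Φ : ℝ → ℝ) (hΦ : ∀ x, 0 ≤ x → 0 ≤ Φ x) (hA : SqAllG Φ) (hNK : S_NK) (hTY : S_TY)
    (n : ℕ) (l : ℤ) (p : ℝ) (f : ℤ → 𝓢(ℂ, ℂ)) (hl : l ≤ n) (hp : 2 ≤ p) (S : Finset ℤ)
    (hS : ∀ k ∈ S, l ≤ k ∧ k ≤ n)
    (hf : ∀ k ∈ S, ∀ a z : ℂ, ‖a‖ = 1 → f k (a * z) = a ^ k * f k z) :
    eLpNorm (Tn n (fun z => ∑ k ∈ S, f k z)) (ENNReal.ofReal p) (volume : Measure ℂ) ≤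
      ENNReal.ofReal ((Real.sqrt (S.card) * Φ (Real.sqrt ((n : ℝ) * ((n : ℝ) - (l : ℝ))))) ^
        (1 - 2 / p)) *
        eLpNorm (fun z => ∑ k ∈ S, f k z) (ENNReal.ofReal p) (volume : Measure ℂ) := by
  set ι : Type := ↥S with hι
  have e0 : (fun z => ∑ k ∈ S, f k z) = fun z => ∑ i : ι, f i.1 z := by
    funext z
    exact (Finset.sum_coe_sort S (fun k => f k z)).symm
  have e1 : Tn n (fun z => ∑ k ∈ S, f k z) = fun z => ∑ i : ι, Tn n (f i.1) z := by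
    rw [Tn_sum]
    funext z
    exact (Finset.sum_coe_sort S (fun k => Tn n (f k) z)).symm
  have m1 := (hNK ι (fun i => i.1) p (fun i => ⇑(f i.1)) (fun a b h => Subtype.ext h) hp
    (fun i => (f i.1).continuous) (fun i => hf i.1 i.2)).1
  have m2 := (hNK ι (fun i => i.1 - 2 * n) p (fun i => Tn n (f i.1))
    (fun a b h => Subtype.ext (by simpa using h)) hp
    (fun i => T_cont _ _) (fun i => hTY n i.1 (f i.1) (hf i.1 i.2))).2
  rw [e1, e0]
  have hcard : Fintype.card ι = S.card := Fintype.card_coe S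
  rw [hcard] at m2
  have hN0 : 0 ≤ (n : ℝ) * ((n : ℝ) - (l : ℝ)) := by
    have : (l : ℝ) ≤ (n : ℝ) := by exact_mod_cast hl
    exact mul_nonneg (Nat.cast_nonneg n) (by linarith)
  have h := hA ι n (fun i => i.1) (Real.sqrt ((n : ℝ) * ((n : ℝ) - (l : ℝ)))) p
    (fun i => f i.1) (fun i => (hS i.1 i.2).2) (Real.sqrt_nonneg _) (fun i => by
      rw [Real.sq_sqrt hN0]
      have : (l : ℝ) ≤ (i.1 : ℝ) := by exact_mod_cast (hS i.1 i.2).1
      exact mul_le_mul_of_nonneg_left (by linarith) (Nat.cast_nonneg n)) hp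
      (fun i => hf i.1 i.2)
  have hP := hΦ _ (Real.sqrt_nonneg ((n : ℝ) * ((n : ℝ) - (l : ℝ))))
  rw [Real.mul_rpow (Real.sqrt_nonneg _) hP,
    ENNReal.ofReal_mul (Real.rpow_nonneg (Real.sqrt_nonneg _) _), mul_assoc]
  refine m2.trans ?_
  gcongr
  refine h.trans ?_
  gcongr

end Pool.Agent.R223.RY.Asm
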