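import Pool.Agent.R223.RY.Stm

/-!
# RY-EC: the weighted `L^2` bound of the kernel
-/

set_option autoImplicit false

open MeasureTheory Set Filter Topology

namespace Pool.Agent.R223.RY.EC

open Pool.Agent.R223.RX (nn del)

theorem toIv (f : ℝ → ℝ) : ∫ x in Ioo (0 : ℝ) 1, f x = ∫ x in (0 : ℝ)..1, f x := by
  rw [intervalIntegral.integral_of_le zero_le_one, integral_Ioc_eq_integral_Ioo]

/-- the estimate for large `N` -/
theorem core (K : ℝ → ℝ) (hK : Continuous K) (M mm : ℝ) (hM : 16 ≤ M) (hmm : 0 ≤ mm)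
    (hm2 : 2 * mm ≤ M)
    (h1 : ∀ x, 0 < x → x < 1 → mm ^ 2 * x ≤ 4 * M * (1 - x) → |x * K x| ≤ M * (x / (1 - x)))
    (h2 : ∀ x, 0 < x → x < 1 → Real.sqrt (x + 3 / (16 * M)) *
      (M * (1 - x) / x - mm ^ 2 / 4 - (1 - x) / (4 * (x + 3 / (16 * M))) -
        3 * (1 - x) ^ 2 / (16 * (x + 3 / (16 * M)) ^ 2)) * (x * K x) ^ 2 ≤
      Real.sqrt (3 / (16 * M)) * M ^ 2)
    (h3 : (M + mm ^ 2 / 4 - 1 / 16) *
      ∫ x in Ioo (0 : ℝ) 1, (x * K x) ^ 2 / Real.sqrt (x + 3 / (16 * M)) ≤
        Real.sqrt (3 / (16 * M)) * M ^ 2) :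
    ∫ x in Ioo (0 : ℝ) 1, K x ^ 2 * x ^ ((3 : ℝ) / 4) ≤ 4 * Real.sqrt M := by
  have hM0 : 0 < M := by linarith
  obtain ⟨δ, hδ⟩ : ∃ δ, δ = 3 / (16 * M) := ⟨_, rfl⟩
  rw [← hδ] at h3
  simp only [← hδ] at h2
  have hδ0 : 0 < δ := by rw [hδ]; positivity
  have hδM : δ * M = 3 / 16 := by rw [hδ]; field_simp
  obtain ⟨N, hN⟩ : ∃ N, N = Real.sqrt M := ⟨_, rfl⟩
  have hNN : N ^ 2 = M := by rw [hN]; exact Real.sq_sqrt hM0.le
  have hN0 : 0 < N := by rw [hN]; exact Real.sqrt_pos.2 hM0
  obtain ⟨e, he⟩ : ∃ e, e = Real.sqrt δ := ⟨_, rfl⟩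
  have hee : e ^ 2 = δ := by rw [he]; exact Real.sq_sqrt hδ0.le
  have he0 : 0 < e := by rw [he]; exact Real.sqrt_pos.2 hδ0
  rw [← he] at h3
  simp only [← he] at h2
  have heN : e * N ≤ 4331 / 10000 := by
    have h : (e * N) ^ 2 ≤ (4331 / 10000) ^ 2 := by
      rw [mul_pow, hee, hNN, hδM]
      norm_num
    exact (pow_le_pow_iff_left₀ (by positivity) (by norm_num) (by norm_num)).1 h
  have heM : e * M ≤ 4331 / 10000 * N := by
    have h := mul_le_mul_of_nonneg_right heN hN0.le
    have h' : e * M = e * N * N := by rw [← hNN]; ring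
    rw [h']
    exact h
  -- the points
  obtain ⟨x0, hx0⟩ : ∃ x0, x0 = 1 / M := ⟨_, rfl⟩
  obtain ⟨x1, hx1⟩ : ∃ x1, x1 = M / (4 * M + mm ^ 2) := ⟨_, rfl⟩
  have hx00 : 0 < x0 := by rw [hx0]; positivity
  have hx0M : x0 * M = 1 := by rw [hx0]; field_simp
  have hx10 : 0 < x1 := by rw [hx1]; positivity
  have hx1M : x1 * (4 * M + mm ^ 2) = M := by rw [hx1]; field_simp
  have hx1q : x1 ≤ 1 / 4 := by
    rw [hx1, div_le_div_iff₀ (by positivity) (by norm_num)]
    linarith [sq_nonneg mm]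
  have hmsq : mm ^ 2 ≤ M ^ 2 / 4 := by
    have h := pow_le_pow_left₀ (by positivity) hm2 2
    linarith
  have hx01 : x0 ≤ x1 := by
    rw [hx0, hx1, div_le_div_iff₀ hM0 (by positivity)]
    have h := mul_le_mul_of_nonneg_right hM hM0.le
    linarith
  have hx016 : x0 ≤ 1 / 16 := by
    rw [hx0]
    exact one_div_le_one_div_of_le (by norm_num) hM
  have hδx1 : δ ≤ 3 / 32 * x1 := by
    have h4 : δ * (4 * M + mm ^ 2) ≤ 3 / 32 * (x1 * (4 * M + mm ^ 2)) := by
      rw [hx1M]
      have e1 : δ * mm ^ 2 ≤ δ * (M ^ 2 / 4) := mul_le_mul_of_nonneg_left hmsq hδ0.le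
      have e2 : δ * (M ^ 2 / 4) = 3 / 64 * M := by
        have : δ * (M ^ 2 / 4) = (δ * M) * M / 4 := by ring
        rw [this, hδM]
        ring
      have e3 : δ * (4 * M) = 3 / 4 := by
        have : δ * (4 * M) = 4 * (δ * M) := by ring
        rw [this, hδM]
        ring
      rw [mul_add]
      linarith
    have h5 : 0 < 4 * M + mm ^ 2 := by positivity
    rw [← mul_assoc] at h4
    exact le_of_mul_le_mul_right h4 h5
  -- fourth roots
  obtain ⟨r, hr⟩ : ∃ r, r = x1 ^ ((1 : ℝ) / 4) := ⟨_, rfl⟩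
  have hr0 : 0 < r := by rw [hr]; positivity
  have hr4 : r ^ 4 = x1 := by
    rw [hr, ← Real.rpow_natCast, ← Real.rpow_mul hx10.le]
    norm_num
  have hrb : r ≤ 7072 / 10000 := by
    have h : r ^ 4 ≤ (7072 / 10000) ^ 4 := by
      rw [hr4]
      refine hx1q.trans ?_
      norm_num
    exact (pow_le_pow_iff_left₀ hr0.le (by norm_num) (by norm_num)).1 h
  obtain ⟨q, hq⟩ : ∃ q, q = x0 ^ ((1 : ℝ) / 4) := ⟨_, rfl⟩
  have hq0 : 0 < q := by rw [hq]; positivity
  have hq4 : q ^ 4 = x0 := by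
    rw [hq, ← Real.rpow_natCast, ← Real.rpow_mul hx00.le]
    norm_num
  have hqb : q ≤ 1 / 2 := by
    have h : q ^ 4 ≤ (1 / 2) ^ 4 := by
      rw [hq4]
      refine hx016.trans ?_
      norm_num
    exact (pow_le_pow_iff_left₀ hq0.le (by norm_num) (by norm_num)).1 h
  have hq2N : q ^ 2 * N = 1 := by
    have h : (q ^ 2 * N) ^ 2 = 1 ^ 2 := by
      have : (q ^ 2 * N) ^ 2 = q ^ 4 * N ^ 2 := by ring
      rw [this, hq4, hNN, hx0M]
      norm_num
    exact (pow_left_inj₀ (by positivity) (by norm_num) (by norm_num)).1 h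
  -- the integrand
  obtain ⟨f, hf⟩ : ∃ f : ℝ → ℝ, f = fun x => K x ^ 2 * x ^ ((3 : ℝ) / 4) := ⟨_, rfl⟩
  have hfc : Continuous f := by
    rw [hf]
    exact (hK.pow 2).mul (Real.continuous_rpow_const (by norm_num))
  have hfi : ∀ a b, IntervalIntegrable f volume a b := fun a b => hfc.intervalIntegrable a b
  have hsplit : ∫ x in Ioo (0 : ℝ) 1, K x ^ 2 * x ^ ((3 : ℝ) / 4) =
      (∫ x in (0 : ℝ)..x0, f x) + (∫ x in x0..x1, f x) + ∫ x in x1..(1 : ℝ), f x := by
    rw [toIv, intervalIntegral.integral_add_adjacent_intervals (hfi _ _) (hfi _ _),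
      intervalIntegral.integral_add_adjacent_intervals (hfi _ _) (hfi _ _), hf]
  -- first part
  have hcond : ∀ y, 0 ≤ y → y ≤ x1 → mm ^ 2 * y ≤ 4 * M * (1 - y) := by
    intro y _ hy
    have h := mul_le_mul_of_nonneg_right hy (by positivity : 0 ≤ 4 * M + mm ^ 2)
    rw [hx1M] at h
    linarith
  have hKb : ∀ y, 0 < y → y ≤ x0 → |K y| ≤ 16 / 15 * M := by
    intro y hy0 hy
    have hy1 : y < 1 := by linarith
    have h4 := h1 y hy0 hy1 (hcond y hy0.le (hy.trans hx01))
    rw [abs_mul, abs_of_pos hy0] at h4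
    have h7 : y / (1 - y) ≤ 16 / 15 * y := by
      rw [div_le_iff₀ (by linarith)]
      have h := mul_nonneg hy0.le (sub_nonneg.2 (hy.trans hx016))
      linarith
    have h6 : y * |K y| ≤ y * (16 / 15 * M) :=
      h4.trans ((mul_le_mul_of_nonneg_left h7 hM0.le).trans (le_of_eq (by ring)))
    exact le_of_mul_le_mul_left h6 hy0
  have hKb2 : ∀ y, 0 < y → y ≤ x0 → K y ^ 2 ≤ (16 / 15 * M) ^ 2 := by
    intro y hy0 hy
    rw [← sq_abs]
    exact pow_le_pow_left₀ (abs_nonneg _) (hKb y hy0 hy) 2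
  have hA : ∫ x in (0 : ℝ)..x0, f x ≤ 3251 / 10000 * N := by
    have e1 : ∫ x in (0 : ℝ)..x0, f x ≤
        ∫ x in (0 : ℝ)..x0, (16 / 15 * M) ^ 2 * x ^ ((3 : ℝ) / 4) := by
      apply intervalIntegral.integral_mono_on hx00.le (hfi _ _)
      · exact (continuous_const.mul (Real.continuous_rpow_const (by norm_num))).intervalIntegrable
          _ _
      · intro x hx
        rw [hf]
        simp only
        refine mul_le_mul_of_nonneg_right ?_ (Real.rpow_nonneg hx.1 _)
        rcases eq_or_lt_of_le hx.1 with hxz | hxp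
        · -- by continuity at zero
          rw [← hxz]
          have hlim : Tendsto (fun x => K x ^ 2) (𝓝[>] 0) (𝓝 (K 0 ^ 2)) :=
            ((hK.pow 2).tendsto 0).mono_left nhdsWithin_le_nhds
          refine le_of_tendsto hlim ?_
          have hmem : Ioo (0 : ℝ) x0 ∈ 𝓝[>] (0 : ℝ) := Ioo_mem_nhdsGT hx00
          filter_upwards [hmem] with y hy
          exact hKb2 y hy.1 hy.2.le
        · exact hKb2 x hxp hx.2
    have e2 : ∫ x in (0 : ℝ)..x0, (16 / 15 * M) ^ 2 * x ^ ((3 : ℝ) / 4) =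
        (16 / 15 * M) ^ 2 * (4 / 7 * q ^ 7) := by
      rw [intervalIntegral.integral_const_mul, integral_rpow (Or.inl (by norm_num))]
      congr 1
      have h4 : x0 ^ ((3 : ℝ) / 4 + 1) = q ^ 7 := by
        rw [← hq4, ← Real.rpow_natCast q 4, ← Real.rpow_mul hq0.le, ← Real.rpow_natCast q 7]
        congr 1
        push_cast
        norm_num
      rw [h4, Real.zero_rpow (by norm_num)]
      ring
    rw [e2] at e1
    refine e1.trans ?_
    have e3 : M * q ^ 4 = 1 := by rw [hq4, mul_comm]; exact hx0M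
    have e4 : (16 / 15 * M) ^ 2 * (4 / 7 * q ^ 7) = 1024 / 1575 * (M * (M * q ^ 4) * q ^ 3) := by
      ring
    have e5 : M * q ^ 3 = N * q := by
      have h4 : M * q ^ 3 = (q ^ 2 * N) * (N * q) := by
        rw [← hNN]
        ring
      rw [h4, hq2N, one_mul]
    rw [e4, e3, mul_one, e5]
    have e6 := mul_le_mul_of_nonneg_left hqb hN0.le
    linarith
  -- second part
  have hB : ∫ x in x0..x1, f x ≤ 22404 / 10000 * N := by
    have e1 : ∫ x in x0..x1, f x ≤ ∫ x in x0..x1, (64 / 35 * (e * M)) * x ^ (-((3 : ℝ) / 4)) := by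
      apply intervalIntegral.integral_mono_on hx01 (hfi _ _)
      · apply ContinuousOn.intervalIntegrable
        rw [uIcc_of_le hx01]
        refine continuousOn_const.mul (ContinuousOn.rpow_const continuousOn_id ?_)
        intro x hx
        left
        exact (hx00.trans_le hx.1).ne'
      · intro x hx
        have hxp : 0 < x := hx00.trans_le hx.1
        have hx1' : x < 1 := by linarith [hx.2]
        have h4 := h2 x hxp hx1'
        obtain ⟨b, hb⟩ : ∃ b, b = M * (1 - x) / x - mm ^ 2 / 4 - (1 - x) / (4 * (x + δ)) -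
          3 * (1 - x) ^ 2 / (16 * (x + δ) ^ 2) := ⟨_, rfl⟩
        rw [← hb] at h4
        have hxM : 1 ≤ x * M := by
          have := mul_le_mul_of_nonneg_right hx.1 hM0.le
          linarith
        have hb2 : 35 / 64 * M ≤ b * x := by
          have b1 : M * (1 - x) / x * x = M * (1 - x) := by field_simp
          have b2 : (1 - x) / (4 * (x + δ)) * x ≤ 1 / 4 := by
            rw [div_mul_eq_mul_div, div_le_div_iff₀ (by positivity) (by norm_num)]
            linarith [sq_nonneg x]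
          have b3 : 3 * (1 - x) ^ 2 / (16 * (x + δ) ^ 2) * x ≤ 3 / 16 * M := by
            rw [div_mul_eq_mul_div, div_le_iff₀ (by positivity)]
            have c1 : (1 - x) ^ 2 ≤ 1 := pow_le_one₀ (by linarith) (by linarith)
            have c2 : x ^ 2 ≤ (x + δ) ^ 2 := pow_le_pow_left₀ hxp.le (by linarith) 2
            have c3 : 3 * (1 - x) ^ 2 * x ≤ 3 * x := by
              have := mul_le_mul_of_nonneg_right c1 hxp.le
              linarith
            have c4 : 3 * x ≤ 3 * M * x ^ 2 := by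
              have := mul_le_mul_of_nonneg_left hxM hxp.le
              linarith
            have c5 : 3 * M * x ^ 2 ≤ 3 * M * (x + δ) ^ 2 := by
              exact mul_le_mul_of_nonneg_left c2 (by positivity)
            linarith
          have b4 : x * (4 * M + mm ^ 2) ≤ M :=
            (mul_le_mul_of_nonneg_right hx.2 (by positivity)).trans hx1M.le
          rw [hb, sub_mul, sub_mul, sub_mul, b1]
          linarith
        have hsx : Real.sqrt x ≤ Real.sqrt (x + δ) := Real.sqrt_le_sqrt (by linarith)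
        have hsx0 : 0 < Real.sqrt x := Real.sqrt_pos.2 hxp
        have h5 : Real.sqrt x * (x * K x) ^ 2 ≤ 64 / 35 * (e * M) * x := by
          have c1 : Real.sqrt (x + δ) * (35 / 64 * M) * (x * K x) ^ 2 ≤
              Real.sqrt (x + δ) * (b * x) * (x * K x) ^ 2 := by
            gcongr
          have c2 : Real.sqrt (x + δ) * (b * x) * (x * K x) ^ 2 ≤ e * M ^ 2 * x := by
            have := mul_le_mul_of_nonneg_right h4 hxp.le
            linarith
          have c3 : Real.sqrt x * (35 / 64 * M) * (x * K x) ^ 2 ≤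
              Real.sqrt (x + δ) * (35 / 64 * M) * (x * K x) ^ 2 := by
            gcongr
          have c4 : (35 / 64 * M) * (Real.sqrt x * (x * K x) ^ 2) ≤
              (35 / 64 * M) * (64 / 35 * (e * M) * x) := by
            have : (35 / 64 * M) * (64 / 35 * (e * M) * x) = e * M ^ 2 * x := by ring
            rw [this]
            linarith
          exact le_of_mul_le_mul_left c4 (by positivity)
        rw [hf]
        simp only
        -- multiply by `x ^ (3/2) * x`
        have hrs : Real.sqrt x = x ^ ((1 : ℝ) / 2) := Real.sqrt_eq_rpow x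
        have p1 : x ^ ((3 : ℝ) / 4) = x ^ ((1 : ℝ) / 2) * x * x * x ^ (-((3 : ℝ) / 4)) / x := by
          have : x ^ ((1 : ℝ) / 2) * x * x * x ^ (-((3 : ℝ) / 4)) / x =
              x ^ ((1 : ℝ) / 2) * x ^ (1 : ℝ) * x ^ (-((3 : ℝ) / 4)) := by
            rw [Real.rpow_one]
            field_simp
          rw [this, ← Real.rpow_add hxp, ← Real.rpow_add hxp]
          congr 1
          norm_num
        have p2 : K x ^ 2 * x ^ ((3 : ℝ) / 4) =
            (Real.sqrt x * (x * K x) ^ 2) * (x ^ (-((3 : ℝ) / 4)) / x) := by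
          rw [p1, hrs]
          ring
        rw [p2]
        calc (Real.sqrt x * (x * K x) ^ 2) * (x ^ (-((3 : ℝ) / 4)) / x) ≤
              (64 / 35 * (e * M) * x) * (x ^ (-((3 : ℝ) / 4)) / x) := by
              gcongr
          _ = (64 / 35 * (e * M)) * x ^ (-((3 : ℝ) / 4)) := by
              field_simp
    have e2 : ∫ x in x0..x1, (64 / 35 * (e * M)) * x ^ (-((3 : ℝ) / 4)) =
        (64 / 35 * (e * M)) * (4 * (r - q)) := by
      rw [intervalIntegral.integral_const_mul, integral_rpow (Or.inl (by norm_num))]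
      have h4 : -((3 : ℝ) / 4) + 1 = 1 / 4 := by norm_num
      rw [h4, ← hr, ← hq]
      ring
    rw [e2] at e1
    refine e1.trans ?_
    have e3 : (64 / 35 * (e * M)) * (4 * (r - q)) ≤ (64 / 35 * (e * M)) * (4 * (7072 / 10000)) := by
      have : 0 < e * M := by positivity
      refine mul_le_mul_of_nonneg_left ?_ (by positivity)
      linarith
    refine e3.trans ?_
    linarith
  -- third part
  have hC : ∫ x in x1..(1 : ℝ), f x ≤ 12865 / 10000 * N := by
    obtain ⟨G, hG⟩ : ∃ G : ℝ → ℝ, G = fun x => (x * K x) ^ 2 / Real.sqrt (x + δ) := ⟨_, rfl⟩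
    have hGc : ContinuousOn G (Icc 0 1) := by
      rw [hG]
      apply ContinuousOn.div
      · exact ((continuous_id.mul hK).pow 2).continuousOn
      · exact (Real.continuous_sqrt.comp (continuous_id.add continuous_const)).continuousOn
      · intro x hx
        have : 0 < x + δ := by linarith [hx.1]
        exact (Real.sqrt_pos.2 this).ne'
    have hG0 : ∀ x, 0 ≤ G x := fun x => by rw [hG]; positivity
    have hGi1 : IntervalIntegrable G volume 0 x1 := by
      apply ContinuousOn.intervalIntegrable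
      rw [uIcc_of_le hx10.le]
      exact hGc.mono (Icc_subset_Icc le_rfl (by linarith))
    have hGi2 : IntervalIntegrable G volume x1 1 := by
      apply ContinuousOn.intervalIntegrable
      rw [uIcc_of_le (by linarith)]
      exact hGc.mono (Icc_subset_Icc hx10.le le_rfl)
    have e1 : ∫ x in x1..(1 : ℝ), f x ≤
        ∫ x in x1..(1 : ℝ), (10459 / 10000 * (r ^ 3)⁻¹) * G x := by
      apply intervalIntegral.integral_mono_on (by linarith) (hfi _ _) (hGi2.const_mul _)
      intro x hx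
      have hxp : 0 < x := hx10.trans_le hx.1
      rw [hf, hG]
      simp only
      obtain ⟨s, hs⟩ : ∃ s, s = x ^ ((1 : ℝ) / 4) := ⟨_, rfl⟩
      have hs0 : 0 < s := by rw [hs]; positivity
      have hs4 : s ^ 4 = x := by
        rw [hs, ← Real.rpow_natCast, ← Real.rpow_mul hxp.le]
        norm_num
      have hs3 : x ^ ((3 : ℝ) / 4) = s ^ 3 := by
        rw [hs, ← Real.rpow_natCast, ← Real.rpow_mul hxp.le]
        congr 1
        norm_num
      have hrs : r ≤ s := by
        rw [hr, hs]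
        exact Real.rpow_le_rpow hx10.le hx.1 (by norm_num)
      have hsq : Real.sqrt (x + δ) ≤ 10459 / 10000 * s ^ 2 := by
        rw [Real.sqrt_le_left (by positivity)]
        have h4 : (10459 / 10000 * s ^ 2) ^ 2 = (10459 / 10000) ^ 2 * s ^ 4 := by ring
        rw [h4, hs4]
        have h5 : δ ≤ 3 / 32 * x := hδx1.trans (by linarith [hx.1])
        norm_num
        linarith
      have hsq0 : 0 < Real.sqrt (x + δ) := Real.sqrt_pos.2 (by positivity)
      rw [← mul_div_assoc, le_div_iff₀ hsq0, hs3]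
      have h6 : s ^ 3 * Real.sqrt (x + δ) ≤ 10459 / 10000 * (r ^ 3)⁻¹ * x ^ 2 := by
        calc s ^ 3 * Real.sqrt (x + δ) ≤ s ^ 3 * (10459 / 10000 * s ^ 2) := by gcongr
          _ = 10459 / 10000 * (s ^ 3)⁻¹ * x ^ 2 := by
              rw [← hs4]
              field_simp
          _ ≤ 10459 / 10000 * (r ^ 3)⁻¹ * x ^ 2 := by gcongr
      calc K x ^ 2 * s ^ 3 * Real.sqrt (x + δ) = K x ^ 2 * (s ^ 3 * Real.sqrt (x + δ)) := by ring
        _ ≤ K x ^ 2 * (10459 / 10000 * (r ^ 3)⁻¹ * x ^ 2) := by gcongr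
        _ = 10459 / 10000 * (r ^ 3)⁻¹ * (x * K x) ^ 2 := by ring
    rw [intervalIntegral.integral_const_mul] at e1
    have e2 : ∫ x in x1..(1 : ℝ), G x ≤ ∫ x in Ioo (0 : ℝ) 1, G x := by
      rw [toIv, ← intervalIntegral.integral_add_adjacent_intervals hGi1 hGi2]
      have := intervalIntegral.integral_nonneg (μ := volume) hx10.le (fun x _ => hG0 x)
      linarith
    have hQ : 255 / 256 * (M / (4 * x1)) ≤ M + mm ^ 2 / 4 - 1 / 16 := by
      have h4 : M / (4 * x1) = M + mm ^ 2 / 4 := by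
        rw [div_eq_iff (by positivity)]
        linarith
      rw [h4]
      linarith [sq_nonneg mm]
    obtain ⟨I, hI⟩ : ∃ I, I = ∫ x in Ioo (0 : ℝ) 1, G x := ⟨_, rfl⟩
    have hI' : (M + mm ^ 2 / 4 - 1 / 16) * I ≤ e * M ^ 2 := by
      rw [hI, hG]
      exact h3
    have hI0 : 0 ≤ I := by
      rw [hI]
      exact setIntegral_nonneg measurableSet_Ioo (fun x _ => hG0 x)
    rw [← hI] at e2
    have e3 : I ≤ 1024 / 255 * (e * M) * x1 := by
      have c1 : 255 / 256 * (M / (4 * x1)) * I ≤ e * M ^ 2 :=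
        (mul_le_mul_of_nonneg_right hQ hI0).trans hI'
      have c2 : 255 / 256 * (M / (4 * x1)) * (1024 / 255 * (e * M) * x1) = e * M ^ 2 := by
        field_simp
        norm_num
      rw [← c2] at c1
      exact le_of_mul_le_mul_left c1 (by positivity)
    refine e1.trans ?_
    calc 10459 / 10000 * (r ^ 3)⁻¹ * ∫ x in x1..(1 : ℝ), G x ≤
          10459 / 10000 * (r ^ 3)⁻¹ * (1024 / 255 * (e * M) * x1) := by
          refine mul_le_mul_of_nonneg_left (e2.trans e3) (by positivity)
      _ = 10459 / 10000 * (1024 / 255) * (e * M) * r := by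
          rw [← hr4]
          field_simp
      _ ≤ 10459 / 10000 * (1024 / 255) * (4331 / 10000 * N) * (7072 / 10000) := by
          gcongr
      _ ≤ 12865 / 10000 * N := by linarith
  rw [hsplit, ← hN]
  linarith

theorem kc_cont (n m : ℕ) : Continuous (KC n m) := by
  unfold KC PP
  refine Continuous.mul ?_ ?_
  · exact (Real.continuous_rpow_const (by positivity)).comp (continuous_const.sub continuous_id)
  · fun_prop

/-- `n = 1` -/
theorem one (m : ℕ) : ∫ x in Ioo (0 : ℝ) 1, KC 1 m x ^ 2 * x ^ ((3 : ℝ) / 4) ≤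
    4 * Real.sqrt (nn 1 m) := by
  have hnn : nn 1 m = 1 + (m : ℝ) := by
    unfold nn
    push_cast
    ring
  have hPP : ∀ x, PP 1 m x = 1 + (m : ℝ) := by
    intro x
    unfold PP
    simp [Nat.choose_one_right]
  have hM0 : (0 : ℝ) < 1 + m := by positivity
  obtain ⟨N, hN⟩ : ∃ N, N = Real.sqrt (1 + (m : ℝ)) := ⟨_, rfl⟩
  have hNN : N ^ 2 = 1 + (m : ℝ) := by rw [hN]; exact Real.sq_sqrt hM0.le
  have hN0 : 0 < N := by rw [hN]; exact Real.sqrt_pos.2 hM0
  have e1 : ∫ x in (0 : ℝ)..1, KC 1 m x ^ 2 * x ^ ((3 : ℝ) / 4) ≤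
      ∫ x in (0 : ℝ)..1, (1 + (m : ℝ)) ^ 2 / 2 * ((1 - x) ^ m * (1 / N + x * N)) := by
    apply intervalIntegral.integral_mono_on zero_le_one
    · exact (((kc_cont 1 m).pow 2).mul
        (Real.continuous_rpow_const (by norm_num))).intervalIntegrable _ _
    · exact (by fun_prop : Continuous fun x : ℝ =>
        (1 + (m : ℝ)) ^ 2 / 2 * ((1 - x) ^ m * (1 / N + x * N))).intervalIntegrable _ _
    · intro x hx
      have h1x : 0 ≤ 1 - x := by linarith [hx.2]
      have h1 : KC 1 m x ^ 2 = (1 + (m : ℝ)) ^ 2 * (1 - x) ^ m := by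
        unfold KC
        rw [hPP, mul_pow, mul_comm]
        congr 1
        rw [← Real.rpow_natCast, ← Real.rpow_mul h1x, ← Real.rpow_natCast (1 - x) m]
        congr 1
        push_cast
        ring
      have h2 : x ^ ((3 : ℝ) / 4) ≤ (1 / N + x * N) / 2 := by
        rcases eq_or_lt_of_le hx.1 with hx0 | hx0
        · rw [← hx0, Real.zero_rpow (by norm_num)]
          positivity
        · have c1 : x ^ ((3 : ℝ) / 4) ≤ x ^ ((1 : ℝ) / 2) :=
            Real.rpow_le_rpow_of_exponent_ge hx0 hx.2 (by norm_num)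
          refine c1.trans ?_
          rw [← Real.sqrt_eq_rpow]
          have c2 : Real.sqrt x ^ 2 = x := Real.sq_sqrt hx0.le
          have c3 : (1 / N + x * N) / 2 - Real.sqrt x = (1 - Real.sqrt x * N) ^ 2 / (2 * N) := by
            rw [sub_sq, mul_pow, c2]
            field_simp
            ring
          have c4 : 0 ≤ (1 - Real.sqrt x * N) ^ 2 / (2 * N) := by positivity
          linarith
      rw [h1]
      calc (1 + (m : ℝ)) ^ 2 * (1 - x) ^ m * x ^ ((3 : ℝ) / 4) ≤
            (1 + (m : ℝ)) ^ 2 * (1 - x) ^ m * ((1 / N + x * N) / 2) := by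
            gcongr
        _ = _ := by ring
  have e2 : ∫ x in (0 : ℝ)..1, (1 + (m : ℝ)) ^ 2 / 2 * ((1 - x) ^ m * (1 / N + x * N)) =
      (1 + (m : ℝ)) ^ 2 / 2 * ((1 / N + N) * (1 / ((m : ℝ) + 1)) - N * (1 / ((m : ℝ) + 2))) := by
    rw [intervalIntegral.integral_const_mul]
    congr 1
    have h1 := intervalIntegral.integral_comp_sub_left (a := (0 : ℝ)) (b := 1)
      (fun u : ℝ => u ^ m * (1 / N + (1 - u) * N)) 1
    have h2 : (fun x : ℝ => (1 - x) ^ m * (1 / N + x * N)) =
        fun x : ℝ => (1 - x) ^ m * (1 / N + (1 - (1 - x)) * N) := by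
      funext x
      ring
    rw [h2, h1, sub_self, sub_zero]
    have h3 : (fun u : ℝ => u ^ m * (1 / N + (1 - u) * N)) =
        fun u : ℝ => (1 / N + N) * u ^ m - N * u ^ (m + 1) := by
      funext u
      ring
    rw [h3, intervalIntegral.integral_sub, intervalIntegral.integral_const_mul,
      intervalIntegral.integral_const_mul, integral_pow, integral_pow]
    · rw [one_pow, one_pow, zero_pow (by omega), zero_pow (by omega)]
      push_cast
      ring
    · exact (by fun_prop : Continuous fun u : ℝ => (1 / N + N) * u ^ m).intervalIntegrable _ _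
    · exact (by fun_prop : Continuous fun u : ℝ => N * u ^ (m + 1)).intervalIntegrable _ _
  rw [toIv, hnn, ← hN]
  refine e1.trans ?_
  rw [e2]
  have hm1 : (m : ℝ) + 1 = N ^ 2 := by rw [hNN]; ring
  have hm2 : (m : ℝ) + 2 = N ^ 2 + 1 := by rw [hNN]; ring
  rw [hm1, hm2, ← hNN]
  have e3 : (N ^ 2) ^ 2 / 2 * ((1 / N + N) * (1 / N ^ 2) - N * (1 / (N ^ 2 + 1))) =
      N / 2 + N ^ 3 / (2 * (N ^ 2 + 1)) := by
    field_simp
    ring
  rw [e3]
  have e4 : N ^ 3 / (2 * (N ^ 2 + 1)) ≤ N / 2 := by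
    rw [div_le_div_iff₀ (by positivity) (by norm_num)]
    linarith
  linarith

theorem main : S_EC := by
  intro hV n m
  rcases Nat.eq_zero_or_pos n with hn | hn
  · subst hn
    have h1 : ∀ x, KC 0 m x ^ 2 * x ^ ((3 : ℝ) / 4) = 0 := by
      intro x
      unfold KC PP
      simp
    simp only [h1, integral_zero]
    positivity
  rcases Nat.lt_or_ge n 2 with hn2 | hn2
  · have : n = 1 := by omega
    subst this
    exact one m
  obtain ⟨v1, v2, v3, v4⟩ := hV n m hn
  rcases le_total (nn n m) 16 with hs | hs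
  · have hnn0 : 0 ≤ nn n m := by
      unfold nn
      positivity
    have h1 : ∫ x in Ioo (0 : ℝ) 1, KC n m x ^ 2 * x ^ ((3 : ℝ) / 4) ≤
        ∫ x in Ioo (0 : ℝ) 1, KC n m x ^ 2 := by
      rw [toIv, toIv]
      apply intervalIntegral.integral_mono_on zero_le_one
      · exact (((kc_cont n m).pow 2).mul
          (Real.continuous_rpow_const (by norm_num))).intervalIntegrable _ _
      · exact ((kc_cont n m).pow 2).intervalIntegrable _ _
      · intro x hx
        exact mul_le_of_le_one_right (sq_nonneg _) (Real.rpow_le_one hx.1 hx.2 (by norm_num))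
    refine (h1.trans v4).trans ?_
    have h2 : Real.sqrt (nn n m) ≤ 4 := by
      rw [Real.sqrt_le_left (by norm_num)]
      linarith
    have h3 := Real.mul_self_sqrt hnn0
    have h4 := Real.sqrt_nonneg (nn n m)
    nlinarith
  · refine core (KC n m) (kc_cont n m) (nn n m) m hs (Nat.cast_nonneg m) ?_ v1 v2 v3
    unfold nn
    have : (2 : ℝ) ≤ n := by exact_mod_cast hn2
    have : (0 : ℝ) ≤ m := Nat.cast_nonneg m
    nlinarith

end Pool.Agent.R223.RY.EC
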