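import Pool.Agent.R223.RY.Stm
import Pool.Agent.R223.RD.AP
import Pool.Agent.R223.RD.PC
import Pool.Agent.R223.RD.P

/-!
# RY-ISOC: the `L^2` contraction for `opC`
-/

set_option autoImplicit false

open MeasureTheory Set Filter Topology
open scoped SchwartzMap ContDiff ENNReal FourierTransform

namespace Pool.Agent.R223.RY.ISOC

open Pool.Agent.R223.RD (Cc S_AP)
open Pool.Agent.R223.RX (mu)
open Pool.Agent.Y282.RB.A2 (HH db dd db_iter dd_iter real_iter HH_smooth four_db_iter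
  four_dd_iter)
open Pool.Agent.R223.RD.P (iter_zero iter_conj)

theorem planch (f : 𝓢(ℂ, ℂ)) : eLpNorm f 2 (volume : Measure ℂ) =
    eLpNorm (𝓕 f : 𝓢(ℂ, ℂ)) 2 (volume : Measure ℂ) := by
  have h := SchwartzMap.norm_fourier_toL2_eq f
  rw [SchwartzMap.norm_toLp, SchwartzMap.norm_toLp] at h
  exact ((ENNReal.toReal_eq_toReal_iff' (f.memLp 2 volume).eLpNorm_ne_top
    ((𝓕 f : 𝓢(ℂ, ℂ)).memLp 2 volume).eLpNorm_ne_top).1 h.symm)

theorem dbdd (n : ℕ) (φ : 𝓢(ℂ, ℂ)) : eLpNorm (db^[n] φ : 𝓢(ℂ, ℂ)) 2 (volume : Measure ℂ) =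
    eLpNorm (dd^[n] φ : 𝓢(ℂ, ℂ)) 2 (volume : Measure ℂ) := by
  rw [planch, planch (dd^[n] φ)]
  refine eLpNorm_congr_norm_ae (Eventually.of_forall fun ξ => ?_)
  rw [four_db_iter, four_dd_iter]
  simp [norm_mul, norm_pow]

/-- the nice functions -/
theorem single (m n : ℕ) (V : ℝ → ℂ) (hnm : n ≤ m) (hV : Cc V) :
    ∃ (k : ℝ → ℂ) (R : ℝ), ContDiff ℝ (⊤ : ℕ∞) k ∧
      (∀ x, k x = (starRingEnd ℂ) (V x / (x : ℂ) ^ m)) ∧
      (∀ x, R ≤ x → iteratedDeriv n k x = 0) ∧ (∀ x, R ≤ x → HH m k n x = 0) ∧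
      (∀ t : ℝ, iteratedDeriv n V t = (t : ℂ) ^ (m - n) * (starRingEnd ℂ) (HH m k n t)) ∧
      eLpNorm (fun z : ℂ => z ^ (m + n) * iteratedDeriv n k (Complex.normSq z)) 2
        (volume : Measure ℂ) =
      eLpNorm (fun z : ℂ => z ^ (m - n) * HH m k n (Complex.normSq z)) 2
        (volume : Measure ℂ) := by
  obtain ⟨hVs, a, R, ha, haR, hV0, hVR⟩ := hV
  -- the function h
  set h : ℝ → ℂ := fun x => V x * ((x : ℂ) ^ m)⁻¹ with hh
  have hxm : ∀ x : ℝ, V x = (x : ℂ) ^ m * h x := by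
    intro x
    rcases le_or_gt x a with hx | hx
    · rw [hh]; simp only; rw [hV0 x hx]; simp
    · have h1 : (x : ℂ) ^ m ≠ 0 := by
        apply pow_ne_zero
        have : x ≠ 0 := by linarith
        exact_mod_cast this
      rw [hh]
      simp only
      field_simp
  have hhs : ContDiff ℝ (⊤ : ℕ∞) h := by
    rw [contDiff_iff_contDiffAt]
    intro x
    rcases lt_or_ge x a with hx | hx
    · have h1 : h =ᶠ[nhds x] fun _ => 0 := by
        filter_upwards [Iio_mem_nhds hx] with y hy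
        rw [hh]
        simp only
        rw [hV0 y (le_of_lt hy), zero_mul]
      exact contDiffAt_const.congr_of_eventuallyEq h1
    · have hx0 : (x : ℂ) ^ m ≠ 0 := by
        apply pow_ne_zero
        have : x ≠ 0 := by linarith
        exact_mod_cast this
      have h2 : ContDiffAt ℝ (⊤ : ℕ∞) (fun y : ℝ => (y : ℂ) ^ m) x :=
        (Complex.ofRealCLM.contDiff.pow m).contDiffAt
      exact hVs.contDiffAt.mul (h2.inv hx0)
  set k : ℝ → ℂ := fun x => (starRingEnd ℂ) (h x) with hk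
  have hks : ContDiff ℝ (⊤ : ℕ∞) k := by
    have h1 : ContDiff ℝ (⊤ : ℕ∞) (fun z : ℂ => (starRingEnd ℂ) z) :=
      Complex.conjCLE.contDiff
    exact h1.comp hhs
  have hkR : ∀ x, R ≤ x → k x = 0 := by
    intro x hx
    rw [hk, hh]
    simp only
    rw [hVR x hx]
    simp
  -- Schwartz functions
  have hsq : ContDiff ℝ ∞ (Complex.normSq : ℂ → ℝ) := by
    have e : (Complex.normSq : ℂ → ℝ) = fun z => z.re * z.re + z.im * z.im := by
      funext z
      exact Complex.normSq_apply z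
    rw [e]
    exact (Complex.reCLM.contDiff.mul Complex.reCLM.contDiff).add
      (Complex.imCLM.contDiff.mul Complex.imCLM.contDiff)
  have hs2 : ContDiff ℝ ∞ (fun z : ℂ => z ^ m * k (Complex.normSq z)) :=
    (contDiff_id.pow m).mul (hks.comp hsq)
  have hvan : ∀ w : ℂ, w ∉ Metric.closedBall (0 : ℂ) (|R| + 1) → w ^ m * k (Complex.normSq w) = 0 := by
    intro w hw
    rw [Metric.mem_closedBall, dist_zero_right, not_le] at hw
    have h1 : R ≤ Complex.normSq w := by
      rw [Complex.normSq_eq_norm_sq]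
      nlinarith [le_abs_self R, abs_nonneg R]
    rw [hkR _ h1, mul_zero]
  have hc2 : HasCompactSupport (fun z : ℂ => z ^ m * k (Complex.normSq z)) :=
    HasCompactSupport.intro (isCompact_closedBall (0 : ℂ) (|R| + 1)) fun w hw => hvan w hw
  set φ₂ : 𝓢(ℂ, ℂ) := hc2.toSchwartzMap hs2 with hφ₂
  have hφ₂a : ∀ z, φ₂ z = z ^ m * k (Complex.normSq z) := fun z => rfl
  have hdb : ∀ z, (db^[n] φ₂) z = z ^ (m + n) * iteratedDeriv n k (Complex.normSq z) :=
    fun z => db_iter hks hφ₂a n z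
  have hdd : ∀ z, (dd^[n] φ₂) z = z ^ (m - n) * HH m k n (Complex.normSq z) :=
    fun z => dd_iter hks hφ₂a n hnm z
  have hreal : ∀ t : ℝ, iteratedDeriv n V t = (t : ℂ) ^ (m - n) * (starRingEnd ℂ) (HH m k n t) := by
    intro t
    have h1 := real_iter hks n hnm t
    have h2 : (fun t : ℝ => (t : ℂ) ^ m * k t) = fun t => (starRingEnd ℂ) (V t) := by
      funext t
      rw [hxm t, map_mul, map_pow, Complex.conj_ofReal]
    rw [h2, iter_conj] at h1
    have h3 := congrArg (starRingEnd ℂ) h1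
    rw [Complex.conj_conj, map_mul, map_pow, Complex.conj_ofReal] at h3
    exact h3
  have hkRn : ∀ x, |R| + 1 ≤ x → iteratedDeriv n k x = 0 := by
    intro x hx
    exact iter_zero (R := R) (fun y hy => hkR y hy.le) n x (by linarith [le_abs_self R])
  have hHRn : ∀ x, |R| + 1 ≤ x → HH m k n x = 0 := by
    intro x hx
    have h1 : iteratedDeriv n V x = 0 :=
      iter_zero (R := R) (fun y hy => hVR y hy.le) n x (by linarith [le_abs_self R])
    rw [hreal x] at h1
    have h2 : (x : ℂ) ^ (m - n) ≠ 0 := by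
      apply pow_ne_zero
      have : x ≠ 0 := by
        have := abs_nonneg R
        intro h0
        linarith
      exact_mod_cast this
    have h3 := (mul_eq_zero.mp h1).resolve_left h2
    exact (map_eq_zero (starRingEnd ℂ)).mp h3
  refine ⟨k, |R| + 1, hks, fun x => ?_, hkRn, hHRn, hreal, ?_⟩
  · rw [hk, hh]
    simp only
    rw [div_eq_mul_inv]
  · have h1 := dbdd n φ₂
    have e1 : ((db^[n] φ₂ : 𝓢(ℂ, ℂ)) : ℂ → ℂ) = fun z : ℂ =>
        z ^ (m + n) * iteratedDeriv n k (Complex.normSq z) := funext hdb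
    have e2 : ((dd^[n] φ₂ : 𝓢(ℂ, ℂ)) : ℂ → ℂ) = fun z : ℂ =>
        z ^ (m - n) * HH m k n (Complex.normSq z) := funext hdd
    rw [e1, e2] at h1
    exact h1

theorem intOn {g : ℝ → ℝ} (hg : Continuous g) (R : ℝ) (hR : ∀ x, R ≤ x → g x = 0) :
    IntegrableOn g (Ioi 0) := by
  have h1 : IntegrableOn g (Icc 0 |R|) := hg.continuousOn.integrableOn_Icc
  have h2 : IntegrableOn g (Ioi |R|) :=
    integrableOn_zero.congr_fun (fun x hx => (hR x ((le_abs_self R).trans (le_of_lt hx))).symm)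
      measurableSet_Ioi
  refine (h1.union h2).mono_set fun x hx => ?_
  have hx0 : (0 : ℝ) < x := hx
  rcases le_or_gt x |R| with h | h
  · exact Or.inl ⟨hx0.le, h⟩
  · exact Or.inr h

/-- the `L^2` norm -/
theorem norm2 {G : ℝ → ℂ} (hG : Continuous G) (R : ℝ) (hR : ∀ x, R ≤ x → G x = 0) :
    MemLp G 2 mu ∧
    eLpNorm G 2 mu = ENNReal.ofReal ((∫ x in Ioi (0 : ℝ), ‖G x‖ ^ 2) ^ ((1 : ℝ) / 2)) := by
  have h1 : IntegrableOn (fun x => ‖G x‖ ^ 2) (Ioi 0) :=
    intOn (hG.norm.pow 2) R fun x hx => by rw [hR x hx]; simp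
  have hm : MemLp G 2 mu := by
    rw [memLp_two_iff_integrable_sq_norm hG.aestronglyMeasurable]
    exact h1
  refine ⟨hm, ?_⟩
  rw [hm.eLpNorm_eq_integral_rpow_norm (by norm_num) (by norm_num)]
  congr 1
  unfold mu
  norm_num

/-- polar coordinates -/
theorem polar (s : ℕ) (W : ℝ → ℂ) (hW : Continuous W) (R : ℝ) (hR : ∀ x, R ≤ x → W x = 0) :
    eLpNorm (fun z : ℂ => z ^ s * W (Complex.normSq z)) 2 (volume : Measure ℂ) =
      ENNReal.ofReal (Real.pi ^ ((1 : ℝ) / 2)) *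
        eLpNorm (fun x : ℝ => ((x ^ ((s : ℝ) / 2) : ℝ) : ℂ) * W x) 2 mu := by
  have h1 := Pool.Agent.R223.RD.PC.main 2 s le_rfl (Nat.cast_nonneg s) W hW ⟨R, hR⟩
    (fun z : ℂ => z ^ s * W (Complex.normSq z)) (by
      intro z
      rw [norm_mul, norm_pow, Real.rpow_natCast])
    (Continuous.aestronglyMeasurable (by
      exact (continuous_id.pow s).mul (hW.comp Complex.continuous_normSq)))
  have e2 : ENNReal.ofReal (2 : ℝ) = 2 := by norm_num
  rw [e2] at h1
  rw [h1]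
  have hGc : Continuous (fun x : ℝ => ((x ^ ((s : ℝ) / 2) : ℝ) : ℂ) * W x) :=
    (Complex.continuous_ofReal.comp (continuous_id.rpow_const fun _ => Or.inr (by positivity))).mul
      hW
  rw [(norm2 hGc R fun x hx => by rw [hR x hx, mul_zero]).2,
    ← ENNReal.ofReal_mul (by positivity)]
  congr 1
  have hI : 0 ≤ ∫ x in Ioi (0 : ℝ), ‖((x ^ ((s : ℝ) / 2) : ℝ) : ℂ) * W x‖ ^ 2 :=
    setIntegral_nonneg measurableSet_Ioi fun x _ => sq_nonneg _
  rw [← Real.mul_rpow Real.pi_pos.le hI]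
  congr 2
  refine setIntegral_congr_fun measurableSet_Ioi fun x hx => ?_
  have hx0 : (0 : ℝ) < x := hx
  rw [Real.rpow_two, norm_mul, Complex.norm_real, Real.norm_of_nonneg (by positivity)]

theorem nice (hK : S_KFN) (n m : ℕ) (V : ℝ → ℂ) (hV : Cc V) :
    eLpNorm (opC (KC n m)
      (fun s => ((s ^ (-((m : ℝ) / 2)) : ℝ) : ℂ) * iteratedDeriv n V s)) 2 mu =
    eLpNorm (fun s : ℝ => ((s ^ (-((m : ℝ) / 2)) : ℝ) : ℂ) * iteratedDeriv n V s) 2 mu := by
  obtain ⟨k, R, hks, hk, hkR, hHR, hreal, he⟩ := single (n + m) n V (Nat.le_add_right n m) hV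
  have hkc : Continuous (iteratedDeriv n k) :=
    hks.continuous_iteratedDeriv n (by exact_mod_cast le_top)
  have hHc : Continuous (HH (n + m) k n) := (HH_smooth (n + m) hks n).continuous
  rw [polar _ _ hkc R hkR, polar _ _ hHc R hHR] at he
  have h0 : ENNReal.ofReal (Real.pi ^ ((1 : ℝ) / 2)) ≠ 0 := by
    rw [Ne, ENNReal.ofReal_eq_zero, not_le]
    have := Real.pi_pos
    positivity
  have he' := (ENNReal.mul_right_inj h0 ENNReal.ofReal_ne_top).1 he
  have h1 : eLpNorm (opC (KC n m)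
      (fun s => ((s ^ (-((m : ℝ) / 2)) : ℝ) : ℂ) * iteratedDeriv n V s)) 2 mu =
      eLpNorm (fun x : ℝ => ((x ^ (((n + m + n : ℕ) : ℝ) / 2) : ℝ) : ℂ) *
        iteratedDeriv n k x) 2 mu := by
    refine eLpNorm_congr_norm_ae ?_
    refine (ae_restrict_iff' measurableSet_Ioi).2 (Eventually.of_forall fun t ht => ?_)
    have ht0 : (0 : ℝ) < t := ht
    rw [← hK n m V hV t ht0]
    have e1 : k = fun x : ℝ => (starRingEnd ℂ) (V x / (x : ℂ) ^ (n + m)) := funext hk
    rw [e1, iter_conj, norm_mul, norm_mul, Complex.norm_conj]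
    congr 3
    congr 1
    push_cast
    ring
  have h2 : eLpNorm (fun s : ℝ => ((s ^ (-((m : ℝ) / 2)) : ℝ) : ℂ) * iteratedDeriv n V s) 2 mu =
      eLpNorm (fun x : ℝ => ((x ^ (((n + m - n : ℕ) : ℝ) / 2) : ℝ) : ℂ) *
        HH (n + m) k n x) 2 mu := by
    refine eLpNorm_congr_norm_ae ?_
    refine (ae_restrict_iff' measurableSet_Ioi).2 (Eventually.of_forall fun t ht => ?_)
    have ht0 : (0 : ℝ) < t := ht
    rw [hreal t, norm_mul, norm_mul, norm_mul, Complex.norm_conj, ← mul_assoc,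
      add_tsub_cancel_left]
    congr 1
    rw [norm_pow, Complex.norm_real, Complex.norm_real, Complex.norm_real,
      Real.norm_of_nonneg (by positivity), Real.norm_of_nonneg (by positivity),
      Real.norm_of_nonneg (by positivity), ← Real.rpow_natCast, ← Real.rpow_add ht0]
    congr 1
    ring
  rw [h1, h2, he']

/-! ### the class `Cc` -/

theorem iter_zero_left {f : ℝ → ℂ} {a : ℝ} (hf : ∀ x, x < a → f x = 0) (n : ℕ) :
    ∀ x, x < a → iteratedDeriv n f x = 0 := by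
  induction n with
  | zero => intro x hx; rw [iteratedDeriv_zero]; exact hf x hx
  | succ n ih =>
    intro x hx
    rw [iteratedDeriv_succ]
    have h1 : iteratedDeriv n f =ᶠ[nhds x] fun _ => 0 := by
      filter_upwards [Iio_mem_nhds hx] with y hy
      exact ih y hy
    rw [h1.deriv_eq]
    simp

theorem Cc_iter {V : ℝ → ℂ} (hV : Cc V) (n : ℕ) : Cc (iteratedDeriv n V) := by
  obtain ⟨hVs, a, R, ha, haR, hV0, hVR⟩ := hV
  refine ⟨?_, a / 2, R + 1, by linarith, by linarith, ?_, ?_⟩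
  · rw [iteratedDeriv_eq_iterate]
    exact hVs.iterate_deriv n
  · intro x hx
    exact iter_zero_left (fun y hy => hV0 y (le_of_lt hy)) n x (by linarith)
  · intro x hx
    exact iter_zero (fun y hy => hVR y (le_of_lt hy)) n x (by linarith)

theorem Cc_rpow {V : ℝ → ℂ} (hV : Cc V) (c : ℝ) :
    Cc (fun s : ℝ => ((s ^ c : ℝ) : ℂ) * V s) := by
  obtain ⟨hVs, a, R, ha, haR, hV0, hVR⟩ := hV
  refine ⟨?_, a, R, ha, haR, ?_, ?_⟩
  · rw [contDiff_iff_contDiffAt]
    intro x
    rcases lt_or_ge x a with hx | hx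
    · have h1 : (fun s : ℝ => ((s ^ c : ℝ) : ℂ) * V s) =ᶠ[nhds x] fun _ => 0 := by
        filter_upwards [Iio_mem_nhds hx] with y hy
        rw [hV0 y (le_of_lt hy), mul_zero]
      exact contDiffAt_const.congr_of_eventuallyEq h1
    · have h2 : ContDiffAt ℝ (⊤ : ℕ∞) (fun y : ℝ => y ^ c) x :=
        Real.contDiffAt_rpow_const_of_ne (by linarith)
      have h3 : ContDiffAt ℝ (⊤ : ℕ∞) (fun y : ℝ => ((y ^ c : ℝ) : ℂ)) x :=
        Complex.ofRealCLM.contDiff.contDiffAt.comp x h2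
      exact h3.mul hVs.contDiffAt
  · intro x hx
    show ((x ^ c : ℝ) : ℂ) * V x = 0
    rw [hV0 x hx, mul_zero]
  · intro x hx
    show ((x ^ c : ℝ) : ℂ) * V x = 0
    rw [hVR x hx, mul_zero]

theorem Cc_sub {V W : ℝ → ℂ} (hV : Cc V) (hW : Cc W) : Cc (fun s : ℝ => V s - W s) := by
  obtain ⟨hVs, a, R, ha, haR, hV0, hVR⟩ := hV
  obtain ⟨hWs, a', R', ha', haR', hW0, hWR⟩ := hW
  refine ⟨hVs.sub hWs, min a a', max R R', lt_min ha ha', ?_, ?_, ?_⟩
  · exact (min_le_left _ _).trans_lt (haR.trans_le (le_max_left _ _))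
  · intro x hx
    show V x - W x = 0
    rw [hV0 x (hx.trans (min_le_left _ _)), hW0 x (hx.trans (min_le_right _ _)), sub_zero]
  · intro x hx
    show V x - W x = 0
    rw [hVR x ((le_max_left _ _).trans hx), hWR x ((le_max_right _ _).trans hx), sub_zero]

/-! ### the integral part of the operator -/

theorem KC_cont (n m : ℕ) : Continuous (KC n m) := by
  unfold KC PP
  refine Continuous.mul ?_ ?_
  · exact (continuous_const.sub continuous_id).rpow_const fun _ => Or.inr (by positivity)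
  · exact continuous_finset_sum _ fun i _ => continuous_const.mul (continuous_id.pow i)

noncomputable def Ko (k : ℝ → ℝ) (a : ℝ → ℂ) (t : ℝ) : ℂ :=
  ∫ x in Ioo (0 : ℝ) 1, (k x : ℂ) * a (t * (1 - x))

theorem Ko_int {k : ℝ → ℝ} (hk : Continuous k) {a : ℝ → ℂ} (ha : Continuous a) (t : ℝ) :
    IntegrableOn (fun x : ℝ => (k x : ℂ) * a (t * (1 - x))) (Ioo 0 1) := by
  have h1 : Continuous (fun x : ℝ => (k x : ℂ) * a (t * (1 - x))) :=
    (Complex.continuous_ofReal.comp hk).mul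
      (ha.comp (continuous_const.mul (continuous_const.sub continuous_id)))
  exact (h1.continuousOn.integrableOn_Icc (a := 0) (b := 1)).mono_set Ioo_subset_Icc_self

theorem Ko_sub {k : ℝ → ℝ} (hk : Continuous k) {a b : ℝ → ℂ} (ha : Continuous a)
    (hb : Continuous b) (t : ℝ) : Ko k (fun s => a s - b s) t = Ko k a t - Ko k b t := by
  unfold Ko
  rw [← integral_sub (Ko_int hk ha t) (Ko_int hk hb t)]
  congr 1
  funext x
  ring

theorem Ko_meas {k : ℝ → ℝ} (hk : Continuous k) {a : ℝ → ℂ} (ha : Continuous a) :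
    StronglyMeasurable (Ko k a) := by
  have h1 : Continuous (Function.uncurry fun (t x : ℝ) => (k x : ℂ) * a (t * (1 - x))) := by
    refine Continuous.mul ?_ ?_
    · exact Complex.continuous_ofReal.comp (hk.comp continuous_snd)
    · exact ha.comp (continuous_fst.mul (continuous_const.sub continuous_snd))
  exact h1.stronglyMeasurable.integral_prod_right

theorem Ko_bound {k : ℝ → ℝ} (hk : Continuous k) {C : ℝ} (hC : ∀ x ∈ Icc (0 : ℝ) 1, ‖k x‖ ≤ C)
    (hC0 : 0 ≤ C) {d : ℝ → ℂ} (hd : Continuous d) (R : ℝ) (hR : ∀ x, R ≤ x → d x = 0) {t : ℝ}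
    (ht : 0 < t) :
    ‖Ko k d t‖ ≤ C * Real.sqrt (t⁻¹ * ∫ x in Ioi (0 : ℝ), ‖d x‖ ^ 2) := by
  have hdc : Continuous (fun x : ℝ => ‖d (t * (1 - x))‖) :=
    (hd.comp (continuous_const.mul (continuous_const.sub continuous_id))).norm
  have hi : IntegrableOn (fun x : ℝ => ‖d (t * (1 - x))‖) (Ioo 0 1) :=
    (hdc.continuousOn.integrableOn_Icc (a := 0) (b := 1)).mono_set Ioo_subset_Icc_self
  have hi2 : IntegrableOn (fun x : ℝ => ‖d (t * (1 - x))‖ ^ 2) (Ioo 0 1) :=
    ((hdc.pow 2).continuousOn.integrableOn_Icc (a := 0) (b := 1)).mono_set Ioo_subset_Icc_self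
  set J : ℝ := ∫ x in Ioo (0 : ℝ) 1, ‖d (t * (1 - x))‖ with hJ
  have h1 : ‖Ko k d t‖ ≤ C * J := by
    unfold Ko
    refine (norm_integral_le_integral_norm _).trans ?_
    rw [hJ, ← integral_const_mul]
    refine setIntegral_mono_on (Ko_int hk hd t).norm (hi.const_mul C) measurableSet_Ioo
      fun x hx => ?_
    rw [norm_mul, Complex.norm_real]
    exact mul_le_mul_of_nonneg_right (hC x (Ioo_subset_Icc_self hx)) (norm_nonneg _)
  have h2 : J ^ 2 ≤ ∫ x in Ioo (0 : ℝ) 1, ‖d (t * (1 - x))‖ ^ 2 := by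
    have h3 : 0 ≤ ∫ x in Ioo (0 : ℝ) 1, (‖d (t * (1 - x))‖ - J) ^ 2 :=
      setIntegral_nonneg measurableSet_Ioo fun x _ => sq_nonneg _
    have i3 : IntegrableOn (fun x : ℝ => 2 * J * ‖d (t * (1 - x))‖) (Ioo 0 1) := hi.const_mul _
    have i4 : IntegrableOn (fun x : ℝ => ‖d (t * (1 - x))‖ ^ 2 - 2 * J * ‖d (t * (1 - x))‖)
        (Ioo 0 1) := hi2.sub i3
    have i5 : IntegrableOn (fun _ : ℝ => J ^ 2) (Ioo 0 1) := by simp
    have h4 : ∫ x in Ioo (0 : ℝ) 1, (‖d (t * (1 - x))‖ - J) ^ 2 =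
        (∫ x in Ioo (0 : ℝ) 1, ‖d (t * (1 - x))‖ ^ 2) - 2 * J * J + J ^ 2 := by
      have e : ∀ x : ℝ, (‖d (t * (1 - x))‖ - J) ^ 2 =
          ‖d (t * (1 - x))‖ ^ 2 - 2 * J * ‖d (t * (1 - x))‖ + J ^ 2 := fun x => by ring
      simp only [e]
      rw [integral_add i4 i5, integral_sub hi2 i3, integral_const_mul, ← hJ, setIntegral_const]
      simp
    rw [h4] at h3
    nlinarith
  have h5 : ∫ x in Ioo (0 : ℝ) 1, ‖d (t * (1 - x))‖ ^ 2 ≤
      t⁻¹ * ∫ x in Ioi (0 : ℝ), ‖d x‖ ^ 2 := by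
    have e1 : ∫ x in Ioo (0 : ℝ) 1, ‖d (t * (1 - x))‖ ^ 2 =
        ∫ x in (0 : ℝ)..1, (fun y : ℝ => ‖d y‖ ^ 2) (t - t * x) := by
      rw [intervalIntegral.integral_of_le zero_le_one, integral_Ioc_eq_integral_Ioo]
      refine setIntegral_congr_fun measurableSet_Ioo fun x _ => ?_
      simp only
      congr 3
      ring
    have e4 := intervalIntegral.integral_comp_sub_mul (f := fun y : ℝ => ‖d y‖ ^ 2) (a := 0)
      (b := 1) ht.ne' t
    rw [e1, e4, smul_eq_mul]
    have e2 : t - t * 1 = 0 := by ring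
    have e3 : t - t * 0 = t := by ring
    rw [e2, e3, intervalIntegral.integral_of_le ht.le]
    refine mul_le_mul_of_nonneg_left ?_ (by positivity)
    refine setIntegral_mono_set (intOn (hd.norm.pow 2) R fun x hx => by rw [hR x hx]; simp) ?_ ?_
    · exact Eventually.of_forall fun x => sq_nonneg _
    · exact Ioc_subset_Ioi_self.eventuallyLE
  have hJ0 : 0 ≤ J := setIntegral_nonneg measurableSet_Ioo fun x _ => norm_nonneg _
  refine h1.trans (mul_le_mul_of_nonneg_left ?_ hC0)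
  exact Real.le_sqrt_of_sq_le (h2.trans h5)

theorem main : S_ISOC := by
  intro hK n m a ha
  have hkc := KC_cont n m
  obtain ⟨C, hC⟩ := isCompact_Icc.exists_bound_of_continuousOn (hkc.continuousOn (s := Icc 0 1))
  have hC0 : 0 ≤ C := (norm_nonneg _).trans (hC 0 ⟨le_rfl, zero_le_one⟩)
  set w : ℝ → ℂ := fun s => ((s ^ ((m : ℝ) / 2) : ℝ) : ℂ) * a s with hw
  have hwc : Cc w := Cc_rpow ha _
  have hac : Continuous a := ha.1.continuous
  -- the approximation
  have happ : ∀ j : ℕ, ∃ b : ℝ → ℂ, Cc b ∧ eLpNorm (opC (KC n m) b) 2 mu = eLpNorm b 2 mu ∧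
      eLpNorm (fun s => b s - a s) 2 mu ≤ ENNReal.ofReal (1 / ((j : ℝ) + 1)) := by
    intro j
    obtain ⟨V, hV, hV1, hV2⟩ := Pool.Agent.R223.RD.AP.main 2 le_rfl n w hwc (1 / ((j : ℝ) + 1))
      (by positivity)
    have hVn := Cc_iter hV n
    refine ⟨fun s => ((s ^ (-((m : ℝ) / 2)) : ℝ) : ℂ) * iteratedDeriv n V s,
      Cc_rpow hVn _, nice hK n m V hV, ?_⟩
    have hd : Cc (fun s => w s - iteratedDeriv n V s) := Cc_sub hwc hVn
    obtain ⟨hds, a1, R1, ha1, haR1, hd0, hdR⟩ := hd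
    have h1 := polar 0 (fun s => w s - iteratedDeriv n V s) hds.continuous R1 hdR
    have e2 : ENNReal.ofReal (2 : ℝ) = 2 := by norm_num
    rw [e2] at hV2
    simp only [pow_zero, one_mul] at h1
    rw [h1] at hV2
    have h3 : eLpNorm (fun s => ((s ^ (-((m : ℝ) / 2)) : ℝ) : ℂ) * iteratedDeriv n V s - a s) 2 mu ≤
        eLpNorm (fun x : ℝ => ((x ^ (((0 : ℕ) : ℝ) / 2) : ℝ) : ℂ) *
          (w x - iteratedDeriv n V x)) 2 mu := by
      refine eLpNorm_mono_ae ?_
      refine (ae_restrict_iff' measurableSet_Ioi).2 (Eventually.of_forall fun s hs => ?_)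
      have hs0 : (0 : ℝ) < s := hs
      have e3 : a s = ((s ^ (-((m : ℝ) / 2)) : ℝ) : ℂ) * w s := by
        rw [hw]
        simp only
        rw [← mul_assoc, ← Complex.ofReal_mul, ← Real.rpow_add hs0]
        simp
      rw [e3, ← mul_sub, norm_mul, norm_mul, Complex.norm_real, Complex.norm_real,
        Real.norm_of_nonneg (by positivity), Real.norm_of_nonneg (by positivity),
        norm_sub_rev]
      rcases lt_or_ge s 1 with h | h
      · rw [hV1 s h, sub_self, norm_zero, mul_zero, mul_zero]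
      · refine mul_le_mul_of_nonneg_right ?_ (norm_nonneg _)
        have e4 : s ^ (((0 : ℕ) : ℝ) / 2) = 1 := by simp
        rw [e4]
        exact Real.rpow_le_one_of_one_le_of_nonpos h (by
          have : (0 : ℝ) ≤ m := Nat.cast_nonneg m
          linarith)
    refine h3.trans (le_trans ?_ hV2)
    refine le_mul_of_one_le_left bot_le ?_
    rw [ENNReal.one_le_ofReal]
    exact Real.one_le_rpow (by linarith [Real.pi_gt_three]) (by norm_num)
  choose b hb hbe hbd using happ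
  have hbc : ∀ j, Continuous (b j) := fun j => (hb j).1.continuous
  -- the sequence
  set f : ℕ → ℝ → ℂ := fun j t => a t - Ko (KC n m) (b j) t with hf
  have hfm : ∀ j, AEStronglyMeasurable (f j) mu := fun j =>
    hac.aestronglyMeasurable.sub (Ko_meas hkc (hbc j)).aestronglyMeasurable
  have hlim : ∀ᵐ t ∂mu, Tendsto (fun j => f j t) atTop (𝓝 (opC (KC n m) a t)) := by
    refine (ae_restrict_iff' measurableSet_Ioi).2 (Eventually.of_forall fun t ht => ?_)
    have ht0 : (0 : ℝ) < t := ht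
    have e1 : opC (KC n m) a t = a t - Ko (KC n m) a t := rfl
    rw [e1]
    refine tendsto_const_nhds.sub ?_
    rw [tendsto_iff_norm_sub_tendsto_zero]
    have h1 : ∀ j, ‖Ko (KC n m) (b j) t - Ko (KC n m) a t‖ ≤
        C * (Real.sqrt t⁻¹ * (1 / ((j : ℝ) + 1))) := by
      intro j
      rw [← Ko_sub hkc (hbc j) hac]
      obtain ⟨hds, a1, R1, ha1, haR1, hd0, hdR⟩ := Cc_sub (hb j) ha
      refine (Ko_bound hkc hC hC0 hds.continuous R1 hdR ht0).trans ?_
      refine mul_le_mul_of_nonneg_left ?_ hC0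
      have hI : 0 ≤ ∫ x in Ioi (0 : ℝ), ‖b j x - a x‖ ^ 2 :=
        setIntegral_nonneg measurableSet_Ioi fun x _ => sq_nonneg _
      rw [Real.sqrt_mul (by positivity)]
      refine mul_le_mul_of_nonneg_left ?_ (Real.sqrt_nonneg _)
      have h2 := hbd j
      rw [(norm2 hds.continuous R1 hdR).2] at h2
      rw [Real.sqrt_eq_rpow]
      exact (ENNReal.ofReal_le_ofReal_iff (by positivity)).1 h2
    refine squeeze_zero (fun j => norm_nonneg _) h1 ?_
    have h2 : Tendsto (fun j : ℕ => (1 : ℝ) / ((j : ℝ) + 1)) atTop (𝓝 0) :=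
      tendsto_one_div_add_atTop_nhds_zero_nat
    have h3 := (h2.const_mul (Real.sqrt t⁻¹)).const_mul C
    simpa using h3
  have hfat := Lp.eLpNorm_lim_le_liminf_eLpNorm (p := 2) hfm (opC (KC n m) a) hlim
  refine hfat.trans ?_
  have hle : ∀ j, eLpNorm (f j) 2 mu ≤ eLpNorm a 2 mu +
      2 * ENNReal.ofReal (1 / ((j : ℝ) + 1)) := by
    intro j
    have e1 : f j = (opC (KC n m) (b j)) - (fun s => b j s - a s) := by
      funext t
      show a t - Ko (KC n m) (b j) t = (b j t - Ko (KC n m) (b j) t) - (b j t - a t)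
      ring
    have hom : AEStronglyMeasurable (opC (KC n m) (b j)) mu :=
      (hbc j).aestronglyMeasurable.sub (Ko_meas hkc (hbc j)).aestronglyMeasurable
    have hdm : AEStronglyMeasurable (fun s => b j s - a s) mu :=
      ((hbc j).sub hac).aestronglyMeasurable
    have h1 : eLpNorm (f j) 2 mu ≤ eLpNorm (opC (KC n m) (b j)) 2 mu +
        eLpNorm (fun s => b j s - a s) 2 mu := by
      rw [e1]
      exact eLpNorm_sub_le hom hdm (by norm_num)
    have h2 : eLpNorm (b j) 2 mu ≤ eLpNorm a 2 mu + eLpNorm (fun s => b j s - a s) 2 mu := by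
      have e2 : b j = a + (fun s => b j s - a s) := by
        funext s
        show b j s = a s + (b j s - a s)
        ring
      calc eLpNorm (b j) 2 mu = eLpNorm (a + (fun s => b j s - a s)) 2 mu := by rw [← e2]
        _ ≤ _ := eLpNorm_add_le hac.aestronglyMeasurable hdm (by norm_num)
    rw [hbe j] at h1
    calc eLpNorm (f j) 2 mu ≤ (eLpNorm a 2 mu + eLpNorm (fun s => b j s - a s) 2 mu) +
          eLpNorm (fun s => b j s - a s) 2 mu := h1.trans (add_le_add h2 le_rfl)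
      _ ≤ (eLpNorm a 2 mu + ENNReal.ofReal (1 / ((j : ℝ) + 1))) +
          ENNReal.ofReal (1 / ((j : ℝ) + 1)) :=
        add_le_add (add_le_add le_rfl (hbd j)) (hbd j)
      _ = _ := by rw [two_mul, add_assoc]
  refine (liminf_le_liminf (Eventually.of_forall hle)).trans ?_
  have hT : Tendsto (fun j : ℕ => eLpNorm a 2 mu + 2 * ENNReal.ofReal (1 / ((j : ℝ) + 1))) atTop
      (𝓝 (eLpNorm a 2 mu + 2 * ENNReal.ofReal 0)) := by
    refine tendsto_const_nhds.add ?_
    refine ENNReal.Tendsto.const_mul ?_ (Or.inr (by norm_num))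
    exact (ENNReal.continuous_ofReal.tendsto 0).comp tendsto_one_div_add_atTop_nhds_zero_nat
  rw [hT.liminf_eq]
  simp

end Pool.Agent.R223.RY.ISOC
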