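import Pool.Agent.R223.RY.Stm

set_option autoImplicit false

/-!
# RY-KFN: the causal kernel formula

Leibniz formula for `V * x ^ (-(n + m))` and Taylor's formula with integral remainder at `0`
(`V` vanishes near `0`); the analogue of `Pool/Agent/R223/RX/KER.lean`.
-/

open MeasureTheory Set Filter Topology

namespace Pool.Agent.R223.RY.KFN

open Pool.Agent.R223.RD (Cc)

/-- the moments -/
noncomputable def J (k : ℕ) (F : ℝ → ℂ) (t : ℝ) : ℂ :=
  ∫ x in (0 : ℝ)..1, (x : ℂ) ^ k * F (t * (1 - x))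

lemma deriv_vanish {F : ℝ → ℂ} {a : ℝ} (ha : ∀ x, x < a → F x = 0) :
    ∀ x, x < a → deriv F x = 0 := by
  intro x hx
  have h : F =ᶠ[𝓝 x] fun _ => (0 : ℂ) := by
    filter_upwards [gt_mem_nhds hx] with y hy
    exact ha y hy
  rw [h.deriv_eq]
  simp

lemma vanish_iter {h : ℝ → ℂ} {a : ℝ} (ha : ∀ x, x < a → h x = 0) (i : ℕ) :
    ∀ x, x < a → iteratedDeriv i h x = 0 := by
  induction i with
  | zero => intro x hx; rw [iteratedDeriv_zero]; exact ha x hx
  | succ i ih =>
    rw [iteratedDeriv_succ]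
    exact deriv_vanish ih

lemma smooth_iter {h : ℝ → ℂ} (hh : ContDiff ℝ (⊤ : ℕ∞) h) (i : ℕ) :
    ContDiff ℝ (⊤ : ℕ∞) (iteratedDeriv i h) := by
  induction i with
  | zero => rw [iteratedDeriv_zero]; exact hh
  | succ i ih =>
    rw [iteratedDeriv_succ]
    exact ((contDiff_infty_iff_deriv (f := iteratedDeriv i h)).1 ih).2

lemma ibp {F : ℝ → ℂ} (hF : ContDiff ℝ 1 F) (h0 : F 0 = 0) (t : ℝ) (k : ℕ) :
    (k : ℂ) * (∫ x in (0 : ℝ)..1, (x : ℂ) ^ (k - 1) * F (t * (1 - x))) -
      (t : ℂ) * J k (deriv F) t = - ((0 : ℂ) ^ k * F t) := by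
  have hFc : Continuous F := hF.continuous
  have hFd : Differentiable ℝ F := hF.differentiable (by norm_num)
  have hF' : Continuous (deriv F) := hF.continuous_deriv (by norm_num)
  have c1 : Continuous fun x : ℝ => (k : ℂ) * ((x : ℂ) ^ (k - 1) * F (t * (1 - x))) := by
    fun_prop
  have c2 : Continuous fun x : ℝ => (t : ℂ) * ((x : ℂ) ^ k * deriv F (t * (1 - x))) := by
    fun_prop
  have hder : ∀ x : ℝ, HasDerivAt (fun x : ℝ => (x : ℂ) ^ k * F (t * (1 - x)))
      ((k : ℂ) * ((x : ℂ) ^ (k - 1) * F (t * (1 - x))) -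
        (t : ℂ) * ((x : ℂ) ^ k * deriv F (t * (1 - x)))) x := by
    intro x
    have h1 : HasDerivAt (fun y : ℝ => (y : ℂ) ^ k) ((k : ℂ) * (x : ℂ) ^ (k - 1)) x := by
      have := (hasDerivAt_pow k (x : ℂ)).comp_ofReal
      exact this
    have h2 : HasDerivAt (fun y : ℝ => t * (1 - y)) (-t) x := by
      have := ((hasDerivAt_id x).const_sub 1).const_mul t
      simpa using this
    have h3 : HasDerivAt (fun y : ℝ => F (t * (1 - y))) ((-t) • deriv F (t * (1 - x))) x :=
      HasDerivAt.scomp x (hFd _).hasDerivAt h2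
    have h4 := h1.mul h3
    refine h4.congr_deriv ?_
    rw [Complex.real_smul]
    push_cast
    ring
  have hint := intervalIntegral.integral_eq_sub_of_hasDerivAt (a := 0) (b := 1)
    (fun x _ => hder x) ((c1.sub c2).intervalIntegrable _ _)
  rw [intervalIntegral.integral_sub (c1.intervalIntegrable _ _) (c2.intervalIntegrable _ _),
    intervalIntegral.integral_const_mul, intervalIntegral.integral_const_mul] at hint
  unfold J
  rw [hint]
  simp [h0]

/-- Taylor formula at `0` -/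
lemma taylor {g : ℝ → ℂ} (hg : ContDiff ℝ (⊤ : ℕ∞) g) {a : ℝ} (ha0 : 0 < a)
    (ha : ∀ x, x < a → g x = 0) (t : ℝ) (i : ℕ) :
    (t : ℂ) ^ (i + 1) * J i (iteratedDeriv (i + 1) g) t = (i.factorial : ℂ) * g t := by
  induction i with
  | zero =>
    have h1 := ibp (hg.of_le (by exact_mod_cast le_top)) (ha 0 ha0) t 0
    rw [zero_add, iteratedDeriv_one]
    simp only [Nat.cast_zero, zero_mul, zero_sub, pow_zero, one_mul] at h1
    simp only [Nat.factorial_zero, Nat.cast_one, pow_one]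
    linear_combination -h1
  | succ i ih =>
    have h1 := ibp ((smooth_iter hg (i + 1)).of_le (by exact_mod_cast le_top))
      (vanish_iter ha (i + 1) 0 ha0) t (i + 1)
    rw [iteratedDeriv_succ (n := i + 1)]
    rw [Nat.add_sub_cancel, zero_pow (Nat.succ_ne_zero i), zero_mul, neg_zero] at h1
    change ((i + 1 : ℕ) : ℂ) * J i (iteratedDeriv (i + 1) g) t - _ = 0 at h1
    have h2 : (t : ℂ) * J (i + 1) (deriv (iteratedDeriv (i + 1) g)) t =
        ((i + 1 : ℕ) : ℂ) * J i (iteratedDeriv (i + 1) g) t := by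
      linear_combination -h1
    rw [pow_succ, mul_assoc, h2, Nat.factorial_succ]
    push_cast
    linear_combination ((i : ℂ) + 1) * ih

lemma taylor' {h : ℝ → ℂ} (hh : ContDiff ℝ (⊤ : ℕ∞) h) {a : ℝ} (ha0 : 0 < a)
    (ha : ∀ x, x < a → h x = 0) (t : ℝ) (j i : ℕ) (hi : i < j) :
    (t : ℂ) ^ (i + 1) * J i (iteratedDeriv j h) t =
      (i.factorial : ℂ) * iteratedDeriv (j - 1 - i) h t := by
  have h1 := taylor (smooth_iter hh (j - 1 - i)) ha0 (vanish_iter ha (j - 1 - i)) t i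
  have h2 : iteratedDeriv (i + 1) (iteratedDeriv (j - 1 - i) h) = iteratedDeriv j h := by
    rw [iteratedDeriv_eq_iterate, iteratedDeriv_eq_iterate, iteratedDeriv_eq_iterate,
      ← Function.iterate_add_apply]
    congr 2
    omega
  rw [h2] at h1
  exact h1

/-- the derivatives of `x ^ (-N)` -/
lemma inv_iter (N j : ℕ) : ∀ t : ℝ, t ≠ 0 → iteratedDeriv j (fun x : ℝ => ((x : ℂ) ^ N)⁻¹) t =
    (-1) ^ j * (N.ascFactorial j : ℂ) * ((t : ℂ) ^ (N + j))⁻¹ := by
  induction j with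
  | zero => intro t _; simp [iteratedDeriv_zero]
  | succ j ih =>
    intro t ht
    have htC : (t : ℂ) ≠ 0 := by exact_mod_cast ht
    rw [iteratedDeriv_succ]
    have h1 : iteratedDeriv j (fun x : ℝ => ((x : ℂ) ^ N)⁻¹) =ᶠ[𝓝 t]
        fun x : ℝ => (-1) ^ j * (N.ascFactorial j : ℂ) * ((x : ℂ) ^ (N + j))⁻¹ := by
      filter_upwards [isOpen_ne.mem_nhds ht] with y hy
      exact ih y hy
    rw [h1.deriv_eq]
    have h2 : HasDerivAt (fun y : ℝ => (y : ℂ) ^ (N + j))
        (((N + j : ℕ) : ℂ) * (t : ℂ) ^ (N + j - 1)) t := by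
      have := (hasDerivAt_pow (N + j) (t : ℂ)).comp_ofReal
      exact this
    have h3 := (h2.fun_inv (pow_ne_zero _ htC)).const_mul ((-1) ^ j * (N.ascFactorial j : ℂ))
    rw [h3.deriv, Nat.ascFactorial_succ]
    rcases Nat.eq_zero_or_pos (N + j) with h0 | h0
    · have hN : N = 0 := by omega
      have hj : j = 0 := by omega
      subst hN hj
      simp
    · have e1 : (t : ℂ) ^ (N + j) = (t : ℂ) ^ (N + j - 1) * t := by
        rw [← pow_succ]
        congr 1
        omega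
      have e2 : (t : ℂ) ^ (N + (j + 1)) = (t : ℂ) ^ (N + j - 1) * t * t := by
        rw [← pow_succ, ← pow_succ]
        congr 1
        omega
      rw [e1, e2]
      push_cast
      field_simp
      ring

theorem main : S_KFN := by
  intro n m V ⟨hV, a, R, ha0, haR, ha, hR⟩ t ht
  have htC : (t : ℂ) ≠ 0 := by exact_mod_cast ht.ne'
  have ha' : ∀ x, x < a → V x = 0 := fun x hx => ha x hx.le
  have hcont : Continuous (iteratedDeriv n V) := (smooth_iter hV n).continuous
  -- the right hand side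
  have hrhs : opC (KC n m) (fun s => ((s ^ (-((m : ℝ) / 2)) : ℝ) : ℂ) * iteratedDeriv n V s) t =
      ((t ^ (-((m : ℝ) / 2)) : ℝ) : ℂ) *
      (iteratedDeriv n V t - ∑ i ∈ Finset.range n, ((((-1 : ℝ) ^ i * (((i : ℝ) + 1) *
        (n.choose (i + 1)) * ((n + m + i).choose (i + 1))) : ℝ)) : ℂ) *
          J i (iteratedDeriv n V) t) := by
    unfold opC
    rw [mul_sub]
    congr 1
    have e1 : ∀ x ∈ Ioo (0 : ℝ) 1, (KC n m x : ℂ) *
        ((((t * (1 - x)) ^ (-((m : ℝ) / 2)) : ℝ) : ℂ) * iteratedDeriv n V (t * (1 - x))) =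
        ((t ^ (-((m : ℝ) / 2)) : ℝ) : ℂ) * ∑ i ∈ Finset.range n,
          ((((-1 : ℝ) ^ i * (((i : ℝ) + 1) *
        (n.choose (i + 1)) * ((n + m + i).choose (i + 1))) : ℝ)) : ℂ) *
          ((x : ℂ) ^ i * iteratedDeriv n V (t * (1 - x))) := by
      intro x hx
      have h1 : (0 : ℝ) < 1 - x := by linarith [hx.2]
      rw [Real.mul_rpow ht.le h1.le]
      unfold KC
      have h2 : (1 - x) ^ ((m : ℝ) / 2) * (1 - x) ^ (-((m : ℝ) / 2)) = 1 := by
        rw [← Real.rpow_add h1, add_neg_cancel, Real.rpow_zero]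
      have h3 : (((1 - x) ^ ((m : ℝ) / 2) : ℝ) : ℂ) *
          (((1 - x) ^ (-((m : ℝ) / 2)) : ℝ) : ℂ) = 1 := by
        rw [← Complex.ofReal_mul, h2, Complex.ofReal_one]
      have h4 : ∑ i ∈ Finset.range n, ((((-1 : ℝ) ^ i * (((i : ℝ) + 1) *
          (n.choose (i + 1)) * ((n + m + i).choose (i + 1))) : ℝ)) : ℂ) *
          ((x : ℂ) ^ i * iteratedDeriv n V (t * (1 - x))) =
          ((PP n m x : ℝ) : ℂ) * iteratedDeriv n V (t * (1 - x)) := by
        unfold PP
        rw [Complex.ofReal_sum, Finset.sum_mul]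
        apply Finset.sum_congr rfl
        intro i _
        rw [Complex.ofReal_mul ((-1 : ℝ) ^ i * (((i : ℝ) + 1) *
          (n.choose (i + 1)) * ((n + m + i).choose (i + 1)))) (x ^ i), Complex.ofReal_pow x i]
        ring
      rw [h4, Complex.ofReal_mul, Complex.ofReal_mul (t ^ (-((m : ℝ) / 2)))]
      linear_combination ((((t ^ (-((m : ℝ) / 2)) : ℝ)) : ℂ) * ((PP n m x : ℝ) : ℂ) *
        iteratedDeriv n V (t * (1 - x))) * h3
    rw [setIntegral_congr_fun measurableSet_Ioo e1, integral_const_mul,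
      ← integral_Ioc_eq_integral_Ioo, ← intervalIntegral.integral_of_le zero_le_one,
      intervalIntegral.integral_finsetSum]
    · congr 1
      apply Finset.sum_congr rfl
      intro i _
      rw [intervalIntegral.integral_const_mul]
      rfl
    · intro i _
      refine Continuous.intervalIntegrable ?_ _ _
      fun_prop
  rw [hrhs]
  -- the left hand side
  have hlhs : iteratedDeriv n (fun x : ℝ => V x / ((x : ℂ) ^ (n + m))) t =
      ∑ i ∈ Finset.range (n + 1), (n.choose i : ℂ) * iteratedDeriv i V t *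
        ((-1) ^ (n - i) * ((n + m).ascFactorial (n - i) : ℂ) *
          ((t : ℂ) ^ (n + m + (n - i)))⁻¹) := by
    have h1 : (fun x : ℝ => V x / ((x : ℂ) ^ (n + m))) =
        fun x : ℝ => V x * ((x : ℂ) ^ (n + m))⁻¹ := funext fun x => div_eq_mul_inv _ _
    have h2 : ContDiffAt ℝ n V t := (hV.of_le (by exact_mod_cast le_top)).contDiffAt
    have h3 : ContDiffAt ℝ n (fun x : ℝ => ((x : ℂ) ^ (n + m))⁻¹) t := by
      have h4 : ContDiffAt ℝ n (fun x : ℝ => ((x : ℂ) ^ (n + m))) t :=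
        (Complex.ofRealCLM.contDiff.pow (n + m)).contDiffAt
      exact h4.inv (pow_ne_zero _ htC)
    rw [h1, iteratedDeriv_fun_mul h2 h3]
    refine Finset.sum_congr rfl fun i _ => ?_
    rw [inv_iter (n + m) (n - i) t ht.ne']
  have hpow : ((t ^ ((n : ℝ) + (m : ℝ) / 2) : ℝ) : ℂ) =
      ((t ^ (-((m : ℝ) / 2)) : ℝ) : ℂ) * (t : ℂ) ^ (n + m) := by
    have h1 : (n : ℝ) + (m : ℝ) / 2 = -((m : ℝ) / 2) + ((n + m : ℕ) : ℝ) := by
      push_cast
      ring
    rw [h1, Real.rpow_add ht, Real.rpow_natCast]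
    push_cast
    ring
  have e2 : ∀ i ∈ Finset.range n,
      (n.choose (n - 1 - i) : ℂ) * iteratedDeriv (n - 1 - i) V t *
        ((-1) ^ (n - (n - 1 - i)) * ((n + m).ascFactorial (n - (n - 1 - i)) : ℂ) *
          ((t : ℂ) ^ (n + m + (n - (n - 1 - i))))⁻¹) =
      ((t : ℂ) ^ (n + m))⁻¹ * (- (((((-1 : ℝ) ^ i * (((i : ℝ) + 1) *
        (n.choose (i + 1)) * ((n + m + i).choose (i + 1))) : ℝ)) : ℂ) *
          J i (iteratedDeriv n V) t)) := by
    intro i hi
    rw [Finset.mem_range] at hi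
    have h1 := taylor' hV ha0 ha' t n i hi
    have e3 : n - (n - 1 - i) = i + 1 := by omega
    have e4 : n.choose (n - 1 - i) = n.choose (i + 1) := by
      rw [← Nat.choose_symm (show i + 1 ≤ n by omega)]
      congr 1
      omega
    have e6 : ((n + m).ascFactorial (i + 1) : ℂ) =
        ((i : ℂ) + 1) * (i.factorial : ℂ) * ((n + m + i).choose (i + 1) : ℂ) := by
      rw [Nat.ascFactorial_eq_factorial_mul_choose', Nat.factorial_succ]
      have e7 : n + m + (i + 1) - 1 = n + m + i := by omega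
      rw [e7]
      push_cast
      ring
    rw [e3, e4, e6, pow_add (t : ℂ) (n + m) (i + 1), mul_inv]
    have h2 : J i (iteratedDeriv n V) t =
        ((t : ℂ) ^ (i + 1))⁻¹ * ((i.factorial : ℂ) * iteratedDeriv (n - 1 - i) V t) := by
      rw [← h1, ← mul_assoc, inv_mul_cancel₀ (pow_ne_zero _ htC), one_mul]
    rw [h2]
    push_cast
    ring
  rw [hlhs, Finset.sum_range_succ, ← Finset.sum_range_reflect, Finset.sum_congr rfl e2,
    ← Finset.mul_sum, Finset.sum_neg_distrib, Nat.sub_self, Nat.choose_self,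
    Nat.ascFactorial_zero, hpow]
  have hne : (t : ℂ) ^ (n + m) ≠ 0 := pow_ne_zero _ htC
  simp only [Nat.cast_one, pow_zero, one_mul, add_zero]
  field_simp
  ring

end Pool.Agent.R223.RY.KFN
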