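import Pool.Agent.R223.RY.Stm

/-!
# RY-ODEC (helper308): the differential equation of the kernel
-/

set_option autoImplicit false

open MeasureTheory Set Filter Topology Polynomial

namespace Pool.Agent.R223.RY.ODEC

open Pool.Agent.R223.RX (nn)

noncomputable section

/-- the coefficients of `PP` -/
def c (n m i : ℕ) : ℝ :=
  (-1 : ℝ) ^ i * (((i : ℝ) + 1) * (n.choose (i + 1)) * ((n + m + i).choose (i + 1)))

theorem choose_real (a i : ℕ) : ((a.choose (i + 1) : ℕ) : ℝ) * (i + 1) = a.choose i * ((a : ℝ) - i) := by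
  rcases le_or_gt i a with h | h
  · have h1 := Nat.choose_succ_right_eq a i
    have h2 : (((a.choose (i + 1) * (i + 1) : ℕ)) : ℝ) = ((a.choose i * (a - i) : ℕ) : ℝ) := by
      rw [h1]
    push_cast [Nat.cast_sub h] at h2
    exact h2
  · rw [Nat.choose_eq_zero_of_lt h, Nat.choose_eq_zero_of_lt (by omega : a < i + 1)]
    simp

theorem choose_real' (a i : ℕ) :
    (((a + 1).choose (i + 1) : ℕ) : ℝ) * (i + 1) = ((a : ℝ) + 1) * a.choose i := by
  have h1 := Nat.add_one_mul_choose_eq a i
  have h2 : ((((a + 1).choose (i + 1) * (i + 1) : ℕ)) : ℝ) = (((a + 1) * a.choose i : ℕ) : ℝ) := by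
    rw [← h1]
  push_cast at h2
  exact h2

theorem c_rec (n m i : ℕ) : ((i : ℝ) + 1) * (i + 2) * c n m (i + 1) =
    -(((n : ℝ) - i - 1) * ((n : ℝ) + m + i + 1)) * c n m i := by
  have h1 := choose_real n (i + 1)
  have h2 := choose_real' (n + m + i) (i + 1)
  unfold c
  have e0 : n + m + (i + 1) = n + m + i + 1 := by ring
  rw [e0]
  push_cast at h1 h2 ⊢
  have e : (-1 : ℝ) ^ (i + 1) = -(-1) ^ i := by ring
  rw [e]
  linear_combination (-((-1 : ℝ) ^ i) * (i + 1) * (i + 2) * (((n + m + i + 1).choose (i + 1 + 1) : ℕ) : ℝ)) * h1 +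
    (-((-1 : ℝ) ^ i) * (i + 1) * ((n.choose (i + 1) : ℕ) : ℝ) * (n - i - 1)) * h2

theorem c_big (n m i : ℕ) (h : n ≤ i) : c n m i = 0 := by
  simp [c, Nat.choose_eq_zero_of_lt (by omega : n < i + 1)]

/-- the polynomial `G` -/
def P (n m : ℕ) : ℝ[X] := X * ∑ i ∈ Finset.range n, C (c n m i) * X ^ i

theorem coeff_P_zero (n m : ℕ) : (P n m).coeff 0 = 0 := by
  unfold P
  rw [Polynomial.coeff_X_mul_zero]

theorem coeff_P_succ (n m i : ℕ) : (P n m).coeff (i + 1) = c n m i := by
  unfold P
  rw [Polynomial.coeff_X_mul, Polynomial.finsetSum_coeff]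
  simp only [Polynomial.coeff_C_mul, Polynomial.coeff_X_pow, mul_ite, mul_one, mul_zero]
  rw [Finset.sum_ite_eq (Finset.range n) i (fun i => c n m i)]
  by_cases h : i ∈ Finset.range n
  · rw [if_pos h]
  · rw [if_neg h, c_big]
    rw [Finset.mem_range] at h
    omega

theorem eval_P (n m : ℕ) (x : ℝ) : (P n m).eval x = x * PP n m x := by
  unfold P PP
  rw [Polynomial.eval_mul, Polynomial.eval_X, Polynomial.eval_finsetSum]
  simp only [Polynomial.eval_mul, Polynomial.eval_C, Polynomial.eval_pow, Polynomial.eval_X]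
  rfl

theorem ode (n m : ℕ) : X * derivative (derivative (P n m)) -
    X * (X * derivative (derivative (P n m))) -
    C ((m : ℝ) + 1) * (X * derivative (P n m)) + C (nn n m) * P n m = 0 := by
  ext i
  rcases i with _ | i
  · simp [coeff_P_zero]
  · simp only [Polynomial.coeff_add, Polynomial.coeff_sub, Polynomial.coeff_X_mul,
      Polynomial.coeff_C_mul, Polynomial.coeff_derivative, coeff_P_succ, Polynomial.coeff_zero]
    have h := c_rec n m i
    have h2 : (X * derivative (derivative (P n m))).coeff i = c n m i * (i + 1) * i := by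
      rcases i with _ | i
      · simp
      · simp only [Polynomial.coeff_X_mul, Polynomial.coeff_derivative, coeff_P_succ]
        push_cast
        ring
    rw [h2]
    unfold nn
    push_cast at h ⊢
    linear_combination h

/-- the numerator of `U1` -/
def Q (n m : ℕ) : ℝ[X] :=
  (1 - X) * derivative (P n m) - C ((m : ℝ) / 2) * P n m

theorem bound (q : ℝ[X]) (x : ℝ) (hx : 0 < x) (hx1 : x < 1) :
    |q.eval x| ≤ ∑ i ∈ Finset.range (q.natDegree + 1), |q.coeff i| := by
  rw [Polynomial.eval_eq_sum_range]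
  refine (Finset.abs_sum_le_sum_abs _ _).trans (Finset.sum_le_sum fun i _ => ?_)
  rw [abs_mul, abs_of_nonneg (pow_nonneg hx.le i)]
  exact mul_le_of_le_one_right (abs_nonneg _) (pow_le_one₀ hx.le hx1.le)

theorem bound_PP (n m : ℕ) (x : ℝ) (hx : 0 < x) (hx1 : x < 1) :
    |PP n m x| ≤ ∑ i ∈ Finset.range n, |c n m i| := by
  unfold PP
  refine (Finset.abs_sum_le_sum_abs _ _).trans (Finset.sum_le_sum fun i _ => ?_)
  rw [abs_mul, abs_of_nonneg (pow_nonneg hx.le i)]
  exact mul_le_of_le_one_right (abs_nonneg _) (pow_le_one₀ hx.le hx1.le)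

theorem hasDeriv_pow (μ x : ℝ) (hx : x < 1) :
    HasDerivAt (fun x : ℝ => (1 - x) ^ μ) (-μ * ((1 - x) ^ μ / (1 - x))) x := by
  have h0 : 0 < 1 - x := by linarith
  have h1 : HasDerivAt (fun x : ℝ => 1 - x) (-1) x := (hasDerivAt_id x).const_sub 1
  have h2 := h1.rpow_const (p := μ) (Or.inl h0.ne')
  refine h2.congr_deriv ?_
  rw [Real.rpow_sub_one h0.ne']
  ring

theorem main : S_ODEC := by
  intro n m hn
  set μ : ℝ := (m : ℝ) / 2 with hμ
  have hμ0 : 0 ≤ μ := by positivity
  set C1 : ℝ := ∑ i ∈ Finset.range n, |c n m i| with hC1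
  set C2 : ℝ := ∑ i ∈ Finset.range ((Q n m).natDegree + 1), |(Q n m).coeff i| with hC2
  have hC10 : 0 ≤ C1 := Finset.sum_nonneg fun i _ => abs_nonneg _
  have hC20 : 0 ≤ C2 := Finset.sum_nonneg fun i _ => abs_nonneg _
  have hUU : ∀ x, UC n m x = (1 - x) ^ μ * (P n m).eval x := by
    intro x
    rw [eval_P]
    unfold UC KC
    ring
  have hQe : ∀ x, (Q n m).eval x = (1 - x) * (derivative (P n m)).eval x - μ * (P n m).eval x := by
    intro x
    unfold Q
    simp only [Polynomial.eval_sub, Polynomial.eval_mul, Polynomial.eval_one,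
      Polynomial.eval_X, Polynomial.eval_C]
    rw [← hμ]
  refine ⟨fun x => (1 - x) ^ μ * (Q n m).eval x, C1 + C2, ?_, ?_, ?_, ?_, ?_, ?_⟩
  · intro x hx hx1
    have h1 := (hasDeriv_pow μ x hx1).mul ((P n m).hasDerivAt x)
    have e : UC n m = fun x => (1 - x) ^ μ * (P n m).eval x := funext hUU
    rw [e]
    refine h1.congr_deriv ?_
    have hx2 : (1 - x) ≠ 0 := by linarith
    simp only [hQe]
    field_simp
    ring
  · intro x hx hx1
    have h1 := (hasDeriv_pow μ x hx1).mul ((Q n m).hasDerivAt x)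
    refine h1.congr_deriv ?_
    have hx2 : (1 - x) ≠ 0 := by linarith
    have hx0 : x ≠ 0 := hx.ne'
    rw [hUU]
    have ho := congrArg (Polynomial.eval x) (ode n m)
    simp only [Polynomial.eval_mul, Polynomial.eval_add, Polynomial.eval_sub, Polynomial.eval_X,
      Polynomial.eval_C, Polynomial.eval_zero] at ho
    have hQ' : (derivative (Q n m)).eval x = -(derivative (P n m)).eval x +
        (1 - x) * (derivative (derivative (P n m))).eval x - μ * (derivative (P n m)).eval x := by
      unfold Q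
      simp only [Polynomial.derivative_sub, Polynomial.derivative_mul,
        Polynomial.derivative_one, Polynomial.derivative_X, Polynomial.derivative_C,
        Polynomial.eval_sub, Polynomial.eval_mul, Polynomial.eval_add,
        Polynomial.eval_one, Polynomial.eval_X, Polynomial.eval_C, Polynomial.eval_zero]
      ring
    rw [hQe, hQ']
    generalize (derivative (derivative (P n m))).eval x = p2 at *
    generalize (derivative (P n m)).eval x = p1 at *
    generalize (P n m).eval x = p0 at *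
    generalize (1 - x) ^ μ = E at *
    have key : -μ * ((1 - x) * p1 - μ * p0) + (1 - x) * (-p1 + (1 - x) * p2 - μ * p1) =
        -(nn n m * (1 - x) / x - (m : ℝ) ^ 2 / 4) * p0 := by
      apply mul_left_cancel₀ hx0
      have e1 : x * (-(nn n m * (1 - x) / x - (m : ℝ) ^ 2 / 4) * p0) =
          -(nn n m * (1 - x)) * p0 + (m : ℝ) ^ 2 / 4 * x * p0 := by
        field_simp
        ring
      rw [e1, hμ]
      linear_combination (1 - x) * ho
    have e2 : -μ * (E / (1 - x)) * ((1 - x) * p1 - μ * p0) +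
        E * (-p1 + (1 - x) * p2 - μ * p1) =
        E / (1 - x) * (-μ * ((1 - x) * p1 - μ * p0) +
          (1 - x) * (-p1 + (1 - x) * p2 - μ * p1)) := by
      field_simp
    rw [e2, key]
    ring
  · have hcont : ContinuousAt (fun x : ℝ => (1 - x) ^ μ * (Q n m).eval x) 0 := by
      refine ContinuousAt.mul ?_ (Q n m).continuous.continuousAt
      refine ContinuousAt.rpow_const (by fun_prop) (Or.inr hμ0)
    have h1 : (1 - (0 : ℝ)) ^ μ * (Q n m).eval 0 = nn n m := by
      have h2 : (Q n m).eval 0 = c n m 0 := by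
        rw [hQe, ← Polynomial.coeff_zero_eq_eval_zero, ← Polynomial.coeff_zero_eq_eval_zero,
          Polynomial.coeff_derivative, coeff_P_succ, coeff_P_zero]
        simp
      rw [h2, sub_zero, Real.one_rpow, one_mul]
      unfold c nn
      simp
    have h3 := hcont.tendsto
    rw [h1] at h3
    exact h3.mono_left nhdsWithin_le_nhds
  · have hcont : ContinuousAt (fun x : ℝ => (1 - x) ^ μ * (Q n m).eval x) 1 := by
      refine ContinuousAt.mul ?_ (Q n m).continuous.continuousAt
      refine ContinuousAt.rpow_const (by fun_prop) (Or.inr hμ0)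
    have h1 : (1 - (1 : ℝ)) ^ μ * (Q n m).eval 1 = 0 := by
      rw [hQe]
      rcases eq_or_lt_of_le hμ0 with h | h
      · rw [← h]; simp
      · rw [sub_self, Real.zero_rpow h.ne', zero_mul]
    have h3 := hcont.tendsto
    rw [h1] at h3
    exact h3.mono_left nhdsWithin_le_nhds
  · intro x hx hx1
    have hx2 : (0 : ℝ) < 1 - x := by linarith
    have h1 := bound_PP n m x hx hx1
    rw [← hC1] at h1
    have h2 : UC n m x = x * ((1 - x) ^ μ * PP n m x) := rfl
    have hE := Real.rpow_pos_of_pos hx2 μ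
    rw [h2, abs_mul, abs_of_pos hx, abs_mul, abs_of_pos hE]
    calc x * ((1 - x) ^ μ * |PP n m x|)
        ≤ x * ((1 - x) ^ μ * (C1 + C2)) := by
          refine mul_le_mul_of_nonneg_left ?_ hx.le
          exact mul_le_mul_of_nonneg_left (by linarith) hE.le
      _ = (C1 + C2) * x * (1 - x) ^ μ := by ring
  · intro x hx hx1
    have hx2 : (0 : ℝ) < 1 - x := by linarith
    have h1 := bound (Q n m) x hx hx1
    rw [← hC2] at h1
    have hE := Real.rpow_pos_of_pos hx2 μ
    have hE1 : (1 - x) ^ μ ≤ 1 := Real.rpow_le_one hx2.le (by linarith) hμ0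
    simp only
    rw [abs_mul, abs_of_pos hE]
    calc (1 - x) ^ μ * |(Q n m).eval x| ≤ 1 * C2 :=
          mul_le_mul hE1 h1 (abs_nonneg _) zero_le_one
      _ ≤ C1 + C2 := by linarith

end

end Pool.Agent.R223.RY.ODEC
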