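import Pool.Agent.R223.RY.Stm
import Pool.Agent.R223.RD.PV
import Pool.Agent.R223.RD.PC

/-!
# Project RY: from the half line to the plane, square functions (S_PV2)
-/

set_option autoImplicit false

open MeasureTheory Set
open scoped SchwartzMap ContDiff ENNReal

namespace Pool.Agent.R223.RY.PV2

open Pool.Agent.R223.RD (Cc S_CJ)
open Pool.Agent.R223.RX (mu nn)
open Pool.Agent.Y282.RB (Tn)
open Pool.Agent.Y282.RB.A2 (HH db dd Tn_db db_iter dd_iter real_iter HH_smooth)
open Pool.Agent.R223.RD.P (iter_zero iter_conj)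

/-- the function `F` for one `V` -/
theorem single (hCJ : S_CJ) (m n : ℕ) (V : ℝ → ℂ) (hnm : n ≤ m) (hV : Cc V) :
    ∃ (k : ℝ → ℂ) (F : 𝓢(ℂ, ℂ)) (R : ℝ),
      (k = fun x => (starRingEnd ℂ) (V x / ((x : ℂ) ^ m))) ∧
      ContDiff ℝ (⊤ : ℕ∞) k ∧ (∀ x, R ≤ x → k x = 0) ∧
      (∀ x, R ≤ x → iteratedDeriv n k x = 0) ∧ (∀ x, R ≤ x → HH m k n x = 0) ∧
      (∀ z, F z = (z⁻¹) ^ (m - n) * iteratedDeriv n V (Complex.normSq z)) ∧
      (∀ z, ‖F z‖ = ‖z‖ ^ (m - n) * ‖HH m k n (Complex.normSq z)‖) ∧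
      (∀ z, ‖Tn n F z‖ = ‖z‖ ^ (m + n) * ‖iteratedDeriv n k (Complex.normSq z)‖) := by
  obtain ⟨hVs, a, R, ha, haR, hV0, hVR⟩ := hV
  -- the function h
  set h : ℝ → ℂ := fun x => V x * ((x : ℂ) ^ m)⁻¹ with hh
  have hxm : ∀ x : ℝ, V x = (x : ℂ) ^ m * h x := by
    intro x
    rcases le_or_gt x a with hx | hx
    · rw [hh]; simp only; rw [hV0 x hx]; simp
    · have h1 : (x : ℂ) ^ m ≠ 0 := by
        apply pow_ne_zero
        have : x ≠ 0 := by linarith
        exact_mod_cast this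
      rw [hh]
      simp only
      field_simp
  have hhs : ContDiff ℝ (⊤ : ℕ∞) h := by
    rw [contDiff_iff_contDiffAt]
    intro x
    rcases lt_or_ge x a with hx | hx
    · have h1 : h =ᶠ[nhds x] fun _ => 0 := by
        filter_upwards [Iio_mem_nhds hx] with y hy
        rw [hh]
        simp only
        rw [hV0 y (le_of_lt hy), zero_mul]
      exact contDiffAt_const.congr_of_eventuallyEq h1
    · have hx0 : (x : ℂ) ^ m ≠ 0 := by
        apply pow_ne_zero
        have : x ≠ 0 := by linarith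
        exact_mod_cast this
      have h2 : ContDiffAt ℝ (⊤ : ℕ∞) (fun y : ℝ => (y : ℂ) ^ m) x :=
        (Complex.ofRealCLM.contDiff.pow m).contDiffAt
      exact hVs.contDiffAt.mul (h2.inv hx0)
  set k : ℝ → ℂ := fun x => (starRingEnd ℂ) (h x) with hk
  have hks : ContDiff ℝ (⊤ : ℕ∞) k := by
    have h1 : ContDiff ℝ (⊤ : ℕ∞) (fun z : ℂ => (starRingEnd ℂ) z) :=
      Complex.conjCLE.contDiff
    exact h1.comp hhs
  have hkR : ∀ x, R ≤ x → k x = 0 := by
    intro x hx
    rw [hk, hh]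
    simp only
    rw [hVR x hx]
    simp
  -- Schwartz functions
  have hsq : ContDiff ℝ ∞ (Complex.normSq : ℂ → ℝ) := by
    have e : (Complex.normSq : ℂ → ℝ) = fun z => z.re * z.re + z.im * z.im := by
      funext z
      exact Complex.normSq_apply z
    rw [e]
    exact (Complex.reCLM.contDiff.mul Complex.reCLM.contDiff).add
      (Complex.imCLM.contDiff.mul Complex.imCLM.contDiff)
  have hs2 : ContDiff ℝ ∞ (fun z : ℂ => z ^ m * k (Complex.normSq z)) :=
    (contDiff_id.pow m).mul (hks.comp hsq)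
  have hs1 : ContDiff ℝ ∞ (fun z : ℂ => (starRingEnd ℂ) (z ^ m * k (Complex.normSq z))) := by
    have h1 : ContDiff ℝ ∞ (fun z : ℂ => (starRingEnd ℂ) z) := Complex.conjCLE.contDiff
    exact h1.comp hs2
  have hvan : ∀ w : ℂ, w ∉ Metric.closedBall (0 : ℂ) (|R| + 1) → w ^ m * k (Complex.normSq w) = 0 := by
    intro w hw
    rw [Metric.mem_closedBall, dist_zero_right, not_le] at hw
    have h1 : R ≤ Complex.normSq w := by
      rw [Complex.normSq_eq_norm_sq]
      nlinarith [le_abs_self R, abs_nonneg R]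
    rw [hkR _ h1, mul_zero]
  have hc2 : HasCompactSupport (fun z : ℂ => z ^ m * k (Complex.normSq z)) :=
    HasCompactSupport.intro (isCompact_closedBall (0 : ℂ) (|R| + 1)) fun w hw => hvan w hw
  have hc1 : HasCompactSupport (fun z : ℂ => (starRingEnd ℂ) (z ^ m * k (Complex.normSq z))) :=
    HasCompactSupport.intro (isCompact_closedBall (0 : ℂ) (|R| + 1)) fun w hw => by
      rw [hvan w hw, map_zero]
  set φ₂ : 𝓢(ℂ, ℂ) := hc2.toSchwartzMap hs2 with hφ₂
  set φ : 𝓢(ℂ, ℂ) := hc1.toSchwartzMap hs1 with hφ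
  have hφ₂a : ∀ z, φ₂ z = z ^ m * k (Complex.normSq z) := fun z => rfl
  have hφa : ∀ z, φ z = (starRingEnd ℂ) (φ₂ z) := fun z => rfl
  have hCJ' := hCJ φ₂ φ hφa n
  have hdb : ∀ z, (db^[n] φ₂) z = z ^ (m + n) * iteratedDeriv n k (Complex.normSq z) :=
    fun z => db_iter hks hφ₂a n z
  have hdd : ∀ z, (dd^[n] φ₂) z = z ^ (m - n) * HH m k n (Complex.normSq z) :=
    fun z => dd_iter hks hφ₂a n hnm z
  have hreal : ∀ t : ℝ, iteratedDeriv n V t = (t : ℂ) ^ (m - n) * (starRingEnd ℂ) (HH m k n t) := by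
    intro t
    have h1 := real_iter hks n hnm t
    have h2 : (fun t : ℝ => (t : ℂ) ^ m * k t) = fun t => (starRingEnd ℂ) (V t) := by
      funext t
      rw [hxm t, map_mul, map_pow, Complex.conj_ofReal]
    rw [h2, iter_conj] at h1
    have h3 := congrArg (starRingEnd ℂ) h1
    rw [Complex.conj_conj, map_mul, map_pow, Complex.conj_ofReal] at h3
    exact h3
  have hkRn : ∀ x, R + 1 ≤ x → iteratedDeriv n k x = 0 := by
    intro x hx
    exact iter_zero (R := R) (fun y hy => hkR y hy.le) n x (by linarith)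
  have hHRn : ∀ x, R + 1 ≤ x → HH m k n x = 0 := by
    intro x hx
    have h1 : iteratedDeriv n V x = 0 :=
      iter_zero (R := R) (fun y hy => hVR y hy.le) n x (by linarith)
    rw [hreal x] at h1
    have h2 : (x : ℂ) ^ (m - n) ≠ 0 := by
      apply pow_ne_zero
      have : x ≠ 0 := by linarith
      exact_mod_cast this
    have h3 := (mul_eq_zero.mp h1).resolve_left h2
    exact (map_eq_zero (starRingEnd ℂ)).mp h3
  refine ⟨k, db^[n] φ, R + 1, by
    rw [hk, hh]
    funext x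
    simp only
    rw [div_eq_mul_inv], hks, fun x hx => hkR x (by linarith), hkRn, hHRn, ?_, ?_, ?_⟩
  · intro z
    rw [(hCJ' z).1, hdd z, hreal, map_mul, map_pow, ← mul_assoc, ← mul_pow]
    congr 2
    rw [← Complex.mul_conj, ← mul_assoc]
    rcases eq_or_ne z 0 with hz | hz
    · rw [hz]; simp
    · rw [inv_mul_cancel₀ hz, one_mul]
  · intro z
    rw [(hCJ' z).1, hdd z, Complex.norm_conj, norm_mul, norm_pow]
  · intro z
    rw [show Tn n (⇑(db^[n] φ)) z = (dd^[n] φ) z from Tn_db n φ z]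
    rw [(hCJ' z).2, hdb z, Complex.norm_conj, norm_mul, norm_pow]


/-- the `L^p` norm on the half line -/
theorem half (p : ℝ) (hp : 0 < p) (φ : ℝ → ℝ) (hφ : Continuous φ) (R : ℝ)
    (hR : ∀ x, R ≤ x → φ x = 0) : eLpNorm φ (ENNReal.ofReal p) mu =
      ENNReal.ofReal ((∫ x in Ioi (0 : ℝ), |φ x| ^ p) ^ (1 / p)) := by
  have hae : φ =ᵐ[mu] fun x => φ |x| := by
    unfold mu
    rw [Filter.EventuallyEq, ae_restrict_iff' measurableSet_Ioi]
    refine Filter.Eventually.of_forall fun x hx => ?_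
    rw [abs_of_pos hx]
  have hc : Continuous (fun x : ℝ => φ |x|) := hφ.comp continuous_abs
  have hs : HasCompactSupport (fun x : ℝ => φ |x|) := by
    refine HasCompactSupport.intro (isCompact_Icc (a := -|R|) (b := |R|)) fun x hx => ?_
    apply hR
    by_contra hcon
    push Not at hcon
    apply hx
    rw [mem_Icc, ← abs_le]
    exact (hcon.trans_le (le_abs_self R)).le
  have hm : MemLp (fun x : ℝ => φ |x|) (ENNReal.ofReal p) mu :=
    (hc.memLp_of_hasCompactSupport hs).restrict _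
  rw [eLpNorm_congr_ae hae, hm.eLpNorm_eq_integral_rpow_norm (by simpa using hp)
    ENNReal.ofReal_ne_top, ENNReal.toReal_ofReal hp.le, one_div]
  congr 2
  refine setIntegral_congr_fun measurableSet_Ioi fun x hx => ?_
  rw [abs_of_pos (show (0 : ℝ) < x from hx), Real.norm_eq_abs]

/-- polar coordinates -/
theorem polar2 {ι : Type} [Fintype ι] (p : ℝ) (hp : 2 ≤ p) (s : ι → ℝ) (hs : ∀ i, 0 ≤ s i)
    (W : ι → ℝ → ℂ) (hW : ∀ i, Continuous (W i)) (R : ℝ) (hR : ∀ i x, R ≤ x → W i x = 0)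
    (G : ι → ℂ → ℂ) (hG : ∀ i z, ‖G i z‖ = ‖z‖ ^ (s i) * ‖W i (Complex.normSq z)‖) :
    eLpNorm (fun z : ℂ => Real.sqrt (∑ i, ‖G i z‖ ^ 2)) (ENNReal.ofReal p) (volume : Measure ℂ)
      = ENNReal.ofReal (Real.pi ^ (1 / p)) *
        eLpNorm (fun x : ℝ => Real.sqrt (∑ i, (x ^ (s i / 2) * ‖W i x‖) ^ 2))
          (ENNReal.ofReal p) mu := by
  have hp0 : 0 < p := by linarith
  rw [Pool.Agent.R223.RD.PV.polar p hp s hs W hW R hR G hG]
  rw [half p hp0 (fun x : ℝ => Real.sqrt (∑ i, (x ^ (s i / 2) * ‖W i x‖) ^ 2)) ?_ R ?_]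
  · have e : ∫ x in Ioi (0 : ℝ), |Real.sqrt (∑ i, (x ^ (s i / 2) * ‖W i x‖) ^ 2)| ^ p =
        ∫ x in Ioi (0 : ℝ), (∑ i, (x ^ (s i / 2) * ‖W i x‖) ^ 2) ^ (p / 2) := by
      refine setIntegral_congr_fun measurableSet_Ioi fun x _ => ?_
      have h0 : 0 ≤ ∑ i, (x ^ (s i / 2) * ‖W i x‖) ^ 2 := Finset.sum_nonneg fun _ _ => sq_nonneg _
      rw [abs_of_nonneg (Real.sqrt_nonneg _), Real.sqrt_eq_rpow, ← Real.rpow_mul h0]
      congr 1
      ring
    rw [e]
    have hI : 0 ≤ ∫ x in Ioi (0 : ℝ), (∑ i, (x ^ (s i / 2) * ‖W i x‖) ^ 2) ^ (p / 2) := by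
      apply setIntegral_nonneg measurableSet_Ioi
      intro x hx
      exact Real.rpow_nonneg (Finset.sum_nonneg fun _ _ => sq_nonneg _) _
    rw [Real.mul_rpow Real.pi_pos.le hI, ENNReal.ofReal_mul (by positivity)]
  · refine Real.continuous_sqrt.comp (continuous_finsetSum _ fun i _ => ?_)
    exact ((continuous_id.rpow_const fun _ => Or.inr (by have := hs i; positivity)).mul
      (hW i).norm).pow 2
  · intro x hx
    rw [Finset.sum_eq_zero, Real.sqrt_zero]
    intro i _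
    rw [hR i x hx, norm_zero, mul_zero]
    norm_num

lemma iter_zero_left {f : ℝ → ℂ} {a : ℝ} (hf : ∀ x, x < a → f x = 0) (n : ℕ) :
    ∀ x, x < a → iteratedDeriv n f x = 0 := by
  induction n with
  | zero => intro x hx; rw [iteratedDeriv_zero]; exact hf x hx
  | succ n ih =>
    intro x hx
    rw [iteratedDeriv_succ]
    have h1 : iteratedDeriv n f =ᶠ[nhds x] fun _ => 0 := by
      filter_upwards [Iio_mem_nhds hx] with y hy
      exact ih y hy
    rw [h1.deriv_eq]
    simp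

/-- the function on the half line -/
noncomputable def AA (n : ℕ) (r : ℝ) (V : ℝ → ℂ) (s : ℝ) : ℂ :=
  ((s ^ (-r) : ℝ) : ℂ) * iteratedDeriv n V s

lemma AA_cc (n : ℕ) (r : ℝ) (V : ℝ → ℂ) (hV : Cc V) : Cc (AA n r V) := by
  obtain ⟨hVs, a, R, ha, haR, hV0, hVR⟩ := hV
  have hl := iter_zero_left (a := a) (fun y hy => hV0 y hy.le) n
  have hr := iter_zero (R := R) (fun y hy => hVR y hy.le) n
  have hsm : ContDiff ℝ (⊤ : ℕ∞) (iteratedDeriv n V) := by
    rw [iteratedDeriv_eq_iterate]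
    exact hVs.iterate_deriv n
  refine ⟨?_, a / 2, R + 1, by linarith, by linarith, fun x hx => ?_, fun x hx => ?_⟩
  · rw [contDiff_iff_contDiffAt]
    intro x
    rcases lt_or_ge x a with hx | hx
    · have h1 : AA n r V =ᶠ[nhds x] fun _ => 0 := by
        filter_upwards [Iio_mem_nhds hx] with y hy
        unfold AA
        rw [hl y hy, mul_zero]
      exact contDiffAt_const.congr_of_eventuallyEq h1
    · have hx0 : x ≠ 0 := by linarith
      have h2 : ContDiffAt ℝ (⊤ : ℕ∞) (fun s : ℝ => ((s ^ (-r) : ℝ) : ℂ)) x :=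
        Complex.ofRealCLM.contDiff.contDiffAt.comp x (Real.contDiffAt_rpow_const_of_ne hx0)
      exact h2.mul hsm.contDiffAt
  · unfold AA
    rw [hl x (by linarith), mul_zero]
  · unfold AA
    rw [hr x (by linarith), mul_zero]

lemma KC_cont (n m : ℕ) : Continuous (KC n m) := by
  unfold KC PP
  refine Continuous.mul ?_ ?_
  · exact (continuous_const.sub continuous_id).rpow_const fun x => Or.inr (by positivity)
  · exact continuous_finsetSum _ fun i _ => continuous_const.mul (continuous_pow i)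

theorem main : S_PV2 := by
  intro hKF hISO hRT hEC ι _ m n N p V hnm hN hNm hp hV
  choose k F R hkdef hks hkR hkRn hHRn hF1 hF2 hF3 using
    fun i => single Pool.Agent.R223.RD.PC.cj (m i) (n i) (V i) (hnm i) (hV i)
  refine ⟨F, hF1, ?_⟩
  set R' : ℝ := ∑ i, |R i| with hR'
  have hRR : ∀ i, R i ≤ R' := fun i => (le_abs_self _).trans
    (Finset.single_le_sum (f := fun i => |R i|) (fun _ _ => abs_nonneg _) (Finset.mem_univ i))
  have hp0 : 0 < p := by linarith
  have e1 := polar2 p hp (fun i => (m i : ℝ) + n i) (fun i => by positivity)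
    (fun i => iteratedDeriv (n i) (k i))
    (fun i => (hks i).continuous_iteratedDeriv (n i) (by exact_mod_cast le_top)) R'
    (fun i x hx => hkRn i x ((hRR i).trans hx)) (fun i => Tn (n i) (F i)) (by
      intro i z
      rw [hF3 i z]
      congr 1
      rw [← Real.rpow_natCast]
      push_cast
      rfl)
  have e2 := polar2 p hp (fun i => (m i : ℝ) - n i) (fun i => by
      have : (n i : ℝ) ≤ m i := by exact_mod_cast hnm i
      linarith)
    (fun i => HH (m i) (k i) (n i)) (fun i => (HH_smooth (m i) (hks i) (n i)).continuous) R'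
    (fun i x hx => hHRn i x ((hRR i).trans hx)) (fun i => F i) (by
      intro i z
      rw [hF2 i z]
      congr 1
      rw [← Real.rpow_natCast, Nat.cast_sub (hnm i)])
  rw [e1, e2]
  -- the functions on the half line
  obtain ⟨A, hA⟩ : ∃ A : ι → ℝ → ℂ, ∀ i, A i = AA (n i) (((m i - n i : ℕ) : ℝ) / 2) (V i) :=
    ⟨_, fun i => rfl⟩
  have hAc : ∀ i, Cc (A i) := fun i => by
    rw [hA i]
    exact AA_cc _ _ _ (hV i)
  have hd : ∀ i, ((m i - n i : ℕ) : ℝ) = (m i : ℝ) - n i := fun i => Nat.cast_sub (hnm i)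
  have hA0 : ∀ i (t : ℝ), 0 < t → t ^ (((m i : ℝ) - n i) / 2) * ‖HH (m i) (k i) (n i) t‖ =
      ‖A i t‖ := by
    intro i t ht
    have hs : Complex.normSq ((Real.sqrt t : ℝ) : ℂ) = t := by
      rw [Complex.normSq_ofReal, Real.mul_self_sqrt ht.le]
    have hns : ‖((Real.sqrt t : ℝ) : ℂ)‖ = t ^ ((1 : ℝ) / 2) := by
      rw [Complex.norm_real, Real.norm_of_nonneg (Real.sqrt_nonneg t), Real.sqrt_eq_rpow]
    have h1 := hF2 i ((Real.sqrt t : ℝ) : ℂ)
    have h2 := congrArg norm (hF1 i ((Real.sqrt t : ℝ) : ℂ))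
    rw [norm_mul, norm_pow, norm_inv] at h2
    rw [hs, hns] at h1 h2
    rw [← Real.rpow_natCast, ← Real.rpow_mul ht.le, hd i] at h1
    rw [← Real.rpow_natCast, ← Real.rpow_neg ht.le, ← Real.rpow_mul ht.le] at h2
    rw [hA i]
    unfold AA
    rw [norm_mul, Complex.norm_real, Real.norm_of_nonneg (Real.rpow_nonneg ht.le _)]
    have e3 : ((m i : ℝ) - n i) / 2 = 1 / 2 * ((m i : ℝ) - n i) := by ring
    have e4 : -(((m i - n i : ℕ) : ℝ) / 2) = -(1 / 2) * ((m i - n i : ℕ) : ℝ) := by ring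
    rw [e3, e4, ← h1, ← h2]
  have hA1 : ∀ i (t : ℝ), 0 < t → t ^ (((m i : ℝ) + n i) / 2) * ‖iteratedDeriv (n i) (k i) t‖ =
      ‖opC (KC (n i) (m i - n i)) (A i) t‖ := by
    intro i t ht
    have h1 := congrArg norm (hKF (n i) (m i - n i) (V i) (hV i) t ht)
    rw [Nat.add_sub_cancel' (hnm i)] at h1
    rw [norm_mul, Complex.norm_real, Real.norm_of_nonneg (Real.rpow_nonneg ht.le _)] at h1
    have e3 : ((n i : ℝ) + ((m i - n i : ℕ) : ℝ) / 2) = ((m i : ℝ) + n i) / 2 := by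
      rw [hd i]
      ring
    rw [e3] at h1
    have e4 : ‖iteratedDeriv (n i) (k i) t‖ =
        ‖iteratedDeriv (n i) (fun x : ℝ => V i x / ((x : ℂ) ^ (m i))) t‖ := by
      rw [hkdef i, iter_conj, Complex.norm_conj]
    rw [e4, h1, hA i]
    rfl
  have q1 : eLpNorm (fun x : ℝ => Real.sqrt (∑ i, (x ^ (((m i : ℝ) + n i) / 2) *
      ‖iteratedDeriv (n i) (k i) x‖) ^ 2)) (ENNReal.ofReal p) mu =
      eLpNorm (fun t : ℝ => Real.sqrt (∑ i, ‖opC (KC (n i) (m i - n i)) (A i) t‖ ^ 2))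
        (ENNReal.ofReal p) mu := by
    refine eLpNorm_congr_ae ?_
    unfold mu
    rw [Filter.EventuallyEq, ae_restrict_iff' measurableSet_Ioi]
    refine Filter.Eventually.of_forall fun x hx => ?_
    congr 1
    exact Finset.sum_congr rfl fun i _ => by rw [hA1 i x hx]
  have q2 : eLpNorm (fun x : ℝ => Real.sqrt (∑ i, (x ^ (((m i : ℝ) - n i) / 2) *
      ‖HH (m i) (k i) (n i) x‖) ^ 2)) (ENNReal.ofReal p) mu =
      eLpNorm (fun t : ℝ => Real.sqrt (∑ i, ‖A i t‖ ^ 2)) (ENNReal.ofReal p) mu := by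
    refine eLpNorm_congr_ae ?_
    unfold mu
    rw [Filter.EventuallyEq, ae_restrict_iff' measurableSet_Ioi]
    refine Filter.Eventually.of_forall fun x hx => ?_
    congr 1
    exact Finset.sum_congr rfl fun i _ => by rw [hA0 i x hx]
  rw [q1, q2]
  have h3 := hRT ι (fun i => KC (n i) (m i - n i)) (4 * N) p
    (fun i => (KC_cont _ _).continuousOn) (by positivity) (fun i => by
      refine (hEC (n i) (m i - n i)).trans ?_
      have h4 : nn (n i) (m i - n i) ≤ N ^ 2 := by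
        unfold nn
        rw [hd i, add_sub_cancel]
        exact hNm i
      have h5 := Real.sqrt_le_sqrt h4
      rw [Real.sqrt_sq hN] at h5
      linarith) hp (fun i a ha => hISO (n i) (m i - n i) a ha) A hAc
  have h6 : 2 * Real.sqrt (4 * N) = 4 * Real.sqrt N := by
    rw [Real.sqrt_mul (by norm_num), show (4 : ℝ) = 2 ^ 2 by norm_num,
      Real.sqrt_sq (by norm_num)]
    ring
  rw [h6] at h3
  calc _ ≤ ENNReal.ofReal (Real.pi ^ (1 / p)) * (ENNReal.ofReal
        ((1 + 4 * Real.sqrt N) ^ (1 - 2 / p)) *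
          eLpNorm (fun t : ℝ => Real.sqrt (∑ i, ‖A i t‖ ^ 2)) (ENNReal.ofReal p) mu) :=
        mul_le_mul' le_rfl h3
    _ = _ := by rw [mul_left_comm]

end Pool.Agent.R223.RY.PV2
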