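import Pool.Agent.R223.RY.Stm
import Pool.Agent.R223.RX.RT

/-! Project RY, piece RTV: vector valued Riesz-Thorin interpolation for kernel operators. -/

set_option autoImplicit false

open MeasureTheory Set Filter Topology
open Pool.Agent.R223.RD (Cc)
open Pool.Agent.R223.RX (mu)
open Pool.Agent.R223.RX.RT

namespace Pool.Agent.R223.RY.RTV

/-- the averaging part of the operator is continuous -/
theorem avgC_cont {k : ℝ → ℝ} {a : ℝ → ℂ} {C : ℝ} (hk : IntegrableOn k (Ioo (0 : ℝ) 1))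
    (ha : Continuous a) (hC : ∀ x, ‖a x‖ ≤ C) :
    Continuous fun t : ℝ => ∫ x in Ioo (0 : ℝ) 1, (k x : ℂ) * a (t * (1 - x)) := by
  have hkc : AEStronglyMeasurable (fun y => ((k y : ℝ) : ℂ)) (volume.restrict (Ioo (0 : ℝ) 1)) :=
    Complex.continuous_ofReal.comp_aestronglyMeasurable hk.aestronglyMeasurable
  refine continuous_of_dominated (bound := fun y => ‖k y‖ * C) (fun t => ?_) (fun t => ?_)
    (hk.norm.mul_const C) ?_
  · exact hkc.mul (ha.comp (by fun_prop)).aestronglyMeasurable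
  · refine Eventually.of_forall fun y => ?_
    rw [norm_mul, Complex.norm_real]
    exact mul_le_mul_of_nonneg_left (hC _) (norm_nonneg _)
  · refine Eventually.of_forall fun y => ?_
    exact continuous_const.mul (ha.comp (by fun_prop))

theorem avgC_bound {k : ℝ → ℝ} {a : ℝ → ℂ} {C : ℝ} (hk : IntegrableOn k (Ioo (0 : ℝ) 1))
    (hC : ∀ x, ‖a x‖ ≤ C) (t : ℝ) :
    ‖∫ x in Ioo (0 : ℝ) 1, (k x : ℂ) * a (t * (1 - x))‖ ≤ (∫ x in Ioo (0 : ℝ) 1, |k x|) * C := by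
  rw [← integral_mul_const]
  refine norm_integral_le_of_norm_le (hk.norm.mul_const _) (Eventually.of_forall fun y => ?_)
  rw [norm_mul, Complex.norm_real]
  exact mul_le_mul_of_nonneg_left (hC _) (norm_nonneg _)

section

variable {k : ℝ → ℝ} {u v : ℝ → ℂ} {φ ψ : ℝ → ℝ} {T Du Dv D1 D2 : ℝ}

/-- the pairing is entire, and bounded on the strip -/
theorem FFC (hk : IntegrableOn k (Ioo (0 : ℝ) 1)) (hu : Continuous u) (hv : Continuous v)
    (hφ : Continuous φ) (hψ : Continuous ψ) (hub : ∀ s, ‖u s‖ ≤ Du) (hvb : ∀ s, ‖v s‖ ≤ Dv)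
    (hφb : ∀ s, |φ s| ≤ D1) (hψb : ∀ s, |ψ s| ≤ D2) :
    Differentiable ℂ (fun z : ℂ => ∫ t in Ioc (0 : ℝ) T,
      opC k (fun s => u s * Complex.exp (z * ((-φ s : ℝ) : ℂ))) t *
        (v t * Complex.exp (z * (ψ t : ℂ)))) ∧
    ∃ D : ℝ, ∀ z : ℂ, 0 ≤ z.re → z.re ≤ 1 → ‖∫ t in Ioc (0 : ℝ) T,
      opC k (fun s => u s * Complex.exp (z * ((-φ s : ℝ) : ℂ))) t *
        (v t * Complex.exp (z * (ψ t : ℂ)))‖ ≤ D := by
  have hD1 : 0 ≤ D1 := (abs_nonneg _).trans (hφb 0)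
  have hD2 : 0 ≤ D2 := (abs_nonneg _).trans (hψb 0)
  have hDu : 0 ≤ Du := (norm_nonneg _).trans (hub 0)
  have hi1 : Integrable (fun t => u t * v t) (volume.restrict (Ioc (0 : ℝ) T)) :=
    (hu.mul hv).integrableOn_Ioc
  have hi2 : Integrable (fun x : ℝ × ℝ => (k x.2 : ℂ) * (u (x.1 * (1 - x.2)) * v x.1))
      ((volume.restrict (Ioc (0 : ℝ) T)).prod (volume.restrict (Ioo (0 : ℝ) 1))) := by
    have hkc : AEStronglyMeasurable (fun y => ((k y : ℝ) : ℂ))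
        (volume.restrict (Ioo (0 : ℝ) 1)) :=
      Complex.continuous_ofReal.comp_aestronglyMeasurable hk.aestronglyMeasurable
    have h1 : Integrable (fun x : ℝ × ℝ => (Du * Dv) * |k x.2|)
        ((volume.restrict (Ioc (0 : ℝ) T)).prod (volume.restrict (Ioo (0 : ℝ) 1))) := by
      have h2 : Integrable (fun _ : ℝ => Du * Dv) (volume.restrict (Ioc (0 : ℝ) T)) :=
        integrable_const _
      exact h2.mul_prod hk.norm
    refine h1.mono' ?_ (Eventually.of_forall fun x => ?_)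
    · refine AEStronglyMeasurable.mul hkc.comp_snd ?_
      refine (Continuous.mul ?_ ?_).aestronglyMeasurable
      · exact hu.comp (by fun_prop)
      · exact hv.comp continuous_fst
    · rw [norm_mul, norm_mul, Complex.norm_real, mul_comm]
      exact mul_le_mul_of_nonneg_right (mul_le_mul (hub _) (hvb _) (norm_nonneg _) hDu)
        (norm_nonneg _)
  have hb1 : ∀ t, |ψ t - φ t| ≤ D2 + D1 := fun t =>
    (abs_sub _ _).trans (add_le_add (hψb _) (hφb _))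
  have hb2 : ∀ x : ℝ × ℝ, |ψ x.1 - φ (x.1 * (1 - x.2))| ≤ D2 + D1 := fun x =>
    (abs_sub _ _).trans (add_le_add (hψb _) (hφb _))
  have hcont2 : Continuous fun x : ℝ × ℝ => ψ x.1 - φ (x.1 * (1 - x.2)) :=
    (hψ.comp continuous_fst).sub (hφ.comp (by fun_prop))
  have h0 : 0 ≤ D2 + D1 := by linarith
  have heq : ∀ z : ℂ, (∫ t in Ioc (0 : ℝ) T,
      opC k (fun s => u s * Complex.exp (z * ((-φ s : ℝ) : ℂ))) t *
        (v t * Complex.exp (z * (ψ t : ℂ)))) =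
      (∫ t in Ioc (0 : ℝ) T, (u t * v t) * Complex.exp (z * ((ψ t - φ t : ℝ) : ℂ))) -
      ∫ x, ((k x.2 : ℂ) * (u (x.1 * (1 - x.2)) * v x.1)) *
        Complex.exp (z * ((ψ x.1 - φ (x.1 * (1 - x.2)) : ℝ) : ℂ))
          ∂((volume.restrict (Ioc (0 : ℝ) T)).prod (volume.restrict (Ioo (0 : ℝ) 1))) := by
    intro z
    have hint : Integrable (fun x : ℝ × ℝ => ((k x.2 : ℂ) * (u (x.1 * (1 - x.2)) * v x.1)) *
        Complex.exp (z * ((ψ x.1 - φ (x.1 * (1 - x.2)) : ℝ) : ℂ)))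
        ((volume.restrict (Ioc (0 : ℝ) T)).prod (volume.restrict (Ioo (0 : ℝ) 1))) := by
      have hcont : Continuous fun x : ℝ × ℝ =>
          Complex.exp (z * ((ψ x.1 - φ (x.1 * (1 - x.2)) : ℝ) : ℂ)) :=
        Complex.continuous_exp.comp (continuous_const.mul
          (Complex.continuous_ofReal.comp hcont2))
      refine (hi2.norm.mul_const (Real.exp (|z.re| * (D2 + D1)))).mono'
        (hi2.aestronglyMeasurable.mul hcont.aestronglyMeasurable) (Eventually.of_forall fun x => ?_)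
      rw [norm_mul, Complex.norm_exp, Complex.re_mul_ofReal]
      refine mul_le_mul_of_nonneg_left (Real.exp_le_exp.2 ?_) (norm_nonneg _)
      refine (le_abs_self _).trans ?_
      rw [abs_mul]
      exact mul_le_mul_of_nonneg_left (hb2 x) (abs_nonneg _)
    have hAc : Continuous fun s => u s * Complex.exp (z * ((-φ s : ℝ) : ℂ)) :=
      hu.mul (Complex.continuous_exp.comp (continuous_const.mul
        (Complex.continuous_ofReal.comp hφ.neg)))
    have hAb : ∀ s, ‖u s * Complex.exp (z * ((-φ s : ℝ) : ℂ))‖ ≤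
        Du * Real.exp (|z.re| * D1) := by
      intro s
      rw [norm_mul, Complex.norm_exp, Complex.re_mul_ofReal]
      refine mul_le_mul (hub s) (Real.exp_le_exp.2 ?_) (Real.exp_pos _).le hDu
      calc z.re * -φ s ≤ |z.re * -φ s| := le_abs_self _
        _ = |z.re| * |φ s| := by rw [abs_mul, abs_neg]
        _ ≤ _ := mul_le_mul_of_nonneg_left (hφb s) (abs_nonneg _)
    have hBc : Continuous fun t => v t * Complex.exp (z * (ψ t : ℂ)) :=
      hv.mul (Complex.continuous_exp.comp (continuous_const.mul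
        (Complex.continuous_ofReal.comp hψ)))
    rw [integral_prod _ hint]
    unfold opC
    simp only [sub_mul]
    rw [integral_sub]
    · congr 1
      · refine setIntegral_congr_fun measurableSet_Ioc fun t _ => ?_
        rw [Complex.ofReal_sub, mul_sub, sub_eq_add_neg, Complex.exp_add, Complex.ofReal_neg,
          mul_neg]
        ring
      · refine setIntegral_congr_fun measurableSet_Ioc fun t _ => ?_
        rw [← integral_mul_const]
        refine setIntegral_congr_fun measurableSet_Ioo fun y _ => ?_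
        have he : z * ((ψ t - φ (t * (1 - y)) : ℝ) : ℂ) =
            z * ((-φ (t * (1 - y)) : ℝ) : ℂ) + z * (ψ t : ℂ) := by
          rw [Complex.ofReal_sub, Complex.ofReal_neg]
          ring
        change (k y : ℂ) * (u (t * (1 - y)) * Complex.exp (z * ((-φ (t * (1 - y)) : ℝ) : ℂ))) *
          (v t * Complex.exp (z * (ψ t : ℂ))) = ((k y : ℂ) * (u (t * (1 - y)) * v t)) *
            Complex.exp (z * ((ψ t - φ (t * (1 - y)) : ℝ) : ℂ))
        rw [he, Complex.exp_add]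
        ring
    · exact (hAc.mul hBc).integrableOn_Ioc
    · exact ((avgC_cont hk hAc hAb).mul hBc).integrableOn_Ioc
  constructor
  · have hfe : (fun z : ℂ => ∫ t in Ioc (0 : ℝ) T,
        opC k (fun s => u s * Complex.exp (z * ((-φ s : ℝ) : ℂ))) t *
          (v t * Complex.exp (z * (ψ t : ℂ)))) = fun z => _ := funext fun z => heq z
    rw [hfe]
    exact (hol hi1 (hψ.sub hφ).aestronglyMeasurable h0 hb1).sub
      (hol hi2 hcont2.aestronglyMeasurable h0 hb2)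
  · refine ⟨(∫ t in Ioc (0 : ℝ) T, ‖u t * v t‖) * Real.exp (D2 + D1) +
      (∫ x : ℝ × ℝ, ‖(k x.2 : ℂ) * (u (x.1 * (1 - x.2)) * v x.1)‖
        ∂((volume.restrict (Ioc (0 : ℝ) T)).prod (volume.restrict (Ioo (0 : ℝ) 1)))) *
        Real.exp (D2 + D1), fun z hz0 hz1 => ?_⟩
    rw [heq z]
    exact (norm_sub_le _ _).trans (add_le_add (hol_bound hi1 hb1 hz0 hz1)
      (hol_bound hi2 hb2 hz0 hz1))

end

/-- Cauchy-Schwarz with the weight `x ^ (3/4)` -/
theorem csw {k : ℝ → ℝ} {u : ℝ → ℂ} (hk : ContinuousOn k (Icc (0 : ℝ) 1)) (hu : Continuous u)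
    {D : ℝ} (hD : ∀ x, ‖u x‖ ≤ D) :
    Integrable (fun x => ‖u x‖ ^ 2 * x ^ (-(3 / 4) : ℝ)) (volume.restrict (Ioo (0 : ℝ) 1)) ∧
    ‖∫ x in Ioo (0 : ℝ) 1, (k x : ℂ) * u x‖ ^ 2 ≤
      (∫ x in Ioo (0 : ℝ) 1, k x ^ 2 * x ^ ((3 : ℝ) / 4)) *
        ∫ x in Ioo (0 : ℝ) 1, ‖u x‖ ^ 2 * x ^ (-(3 / 4) : ℝ) := by
  have hpw : IntegrableOn (fun x : ℝ => x ^ (-(3 / 4) : ℝ)) (Ioo (0 : ℝ) 1) := by
    rw [intervalIntegral.integrableOn_Ioo_rpow_iff zero_lt_one]
    norm_num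
  have hw1 : Measurable (fun x : ℝ => x ^ (3 / 8 : ℝ)) := by fun_prop
  have hw2 : Measurable (fun x : ℝ => x ^ (-(3 / 8) : ℝ)) := by fun_prop
  obtain ⟨K, hK⟩ := isCompact_Icc.exists_bound_of_continuousOn hk
  have hkm : AEStronglyMeasurable k (volume.restrict (Ioo (0 : ℝ) 1)) :=
    (hk.mono Ioo_subset_Icc_self).aestronglyMeasurable measurableSet_Ioo
  have hint : Integrable (fun x => ‖u x‖ ^ 2 * x ^ (-(3 / 4) : ℝ))
      (volume.restrict (Ioo (0 : ℝ) 1)) := by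
    refine (hpw.const_mul (D ^ 2)).mono' ?_ ?_
    · exact ((hu.norm.pow 2).aestronglyMeasurable).mul hpw.aestronglyMeasurable
    · filter_upwards [ae_restrict_mem measurableSet_Ioo] with x hx
      have hx0 : 0 ≤ x ^ (-(3 / 4) : ℝ) := Real.rpow_nonneg hx.1.le _
      rw [Real.norm_of_nonneg (by positivity)]
      exact mul_le_mul_of_nonneg_right (pow_le_pow_left₀ (norm_nonneg _) (hD x) 2) hx0
  refine ⟨hint, ?_⟩
  -- the two factors
  set f : ℝ → ℝ := fun x => k x * x ^ (3 / 8 : ℝ) with hf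
  set g : ℝ → ℝ := fun x => ‖u x‖ * x ^ (-(3 / 8) : ℝ) with hg
  have hfm : MemLp f (ENNReal.ofReal 2) (volume.restrict (Ioo (0 : ℝ) 1)) := by
    refine MemLp.of_bound (hkm.mul hw1.aestronglyMeasurable) K ?_
    filter_upwards [ae_restrict_mem measurableSet_Ioo] with x hx
    have h1 : x ^ (3 / 8 : ℝ) ≤ 1 := Real.rpow_le_one hx.1.le hx.2.le (by norm_num)
    have h2 : 0 ≤ x ^ (3 / 8 : ℝ) := Real.rpow_nonneg hx.1.le _
    rw [hf]
    simp only
    rw [norm_mul, Real.norm_of_nonneg h2]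
    calc ‖k x‖ * x ^ (3 / 8 : ℝ) ≤ ‖k x‖ * 1 := mul_le_mul_of_nonneg_left h1 (norm_nonneg _)
      _ = ‖k x‖ := mul_one _
      _ ≤ K := hK x ⟨hx.1.le, hx.2.le⟩
  have hgae : AEStronglyMeasurable g (volume.restrict (Ioo (0 : ℝ) 1)) :=
    hu.norm.aestronglyMeasurable.mul hw2.aestronglyMeasurable
  have hg2 : ∀ x ∈ Ioo (0 : ℝ) 1, ‖g x‖ ^ 2 = ‖u x‖ ^ 2 * x ^ (-(3 / 4) : ℝ) := by
    intro x hx
    rw [Real.norm_eq_abs, sq_abs, hg]
    simp only
    rw [mul_pow, ← Real.rpow_natCast (x ^ (-(3 / 8) : ℝ)), ← Real.rpow_mul hx.1.le]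
    norm_num
  have hf2 : ∀ x ∈ Ioo (0 : ℝ) 1, ‖f x‖ ^ 2 = k x ^ 2 * x ^ ((3 : ℝ) / 4) := by
    intro x hx
    rw [Real.norm_eq_abs, sq_abs, hf]
    simp only
    rw [mul_pow, ← Real.rpow_natCast (x ^ (3 / 8 : ℝ)), ← Real.rpow_mul hx.1.le]
    norm_num
  have hgm : MemLp g (ENNReal.ofReal 2) (volume.restrict (Ioo (0 : ℝ) 1)) := by
    rw [ENNReal.ofReal_ofNat, memLp_two_iff_integrable_sq_norm hgae]
    refine hint.congr ?_
    filter_upwards [ae_restrict_mem measurableSet_Ioo] with x hx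
    exact (hg2 x hx).symm
  have h1 := integral_mul_norm_le_Lp_mul_Lq Real.HolderConjugate.two_two hfm hgm
  have h2 : ‖∫ x in Ioo (0 : ℝ) 1, (k x : ℂ) * u x‖ ≤
      ∫ x in Ioo (0 : ℝ) 1, ‖f x‖ * ‖g x‖ := by
    refine (norm_integral_le_integral_norm _).trans (le_of_eq ?_)
    refine setIntegral_congr_fun measurableSet_Ioo fun x hx => ?_
    have hx0 : 0 < x := hx.1
    simp only [hf, hg]
    rw [norm_mul, norm_mul, norm_mul, Complex.norm_real, norm_norm,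
      Real.norm_of_nonneg (Real.rpow_nonneg hx0.le (3 / 8)),
      Real.norm_of_nonneg (Real.rpow_nonneg hx0.le (-(3 / 8)))]
    have h3 : x ^ (3 / 8 : ℝ) * x ^ (-(3 / 8) : ℝ) = 1 := by
      rw [← Real.rpow_add hx0]
      norm_num
    calc ‖k x‖ * ‖u x‖ = ‖k x‖ * ‖u x‖ * (x ^ (3 / 8 : ℝ) * x ^ (-(3 / 8) : ℝ)) := by
          rw [h3, mul_one]
      _ = _ := by ring
  have hA : 0 ≤ ∫ x in Ioo (0 : ℝ) 1, k x ^ 2 * x ^ ((3 : ℝ) / 4) := by
    refine setIntegral_nonneg measurableSet_Ioo fun x hx => ?_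
    have := Real.rpow_nonneg hx.1.le ((3 : ℝ) / 4)
    positivity
  have hB : 0 ≤ ∫ x in Ioo (0 : ℝ) 1, ‖u x‖ ^ 2 * x ^ (-(3 / 4) : ℝ) := by
    refine setIntegral_nonneg measurableSet_Ioo fun x hx => ?_
    have := Real.rpow_nonneg hx.1.le (-(3 / 4) : ℝ)
    positivity
  have e1 : ∫ x in Ioo (0 : ℝ) 1, ‖f x‖ ^ (2 : ℝ) =
      ∫ x in Ioo (0 : ℝ) 1, k x ^ 2 * x ^ ((3 : ℝ) / 4) := by
    refine setIntegral_congr_fun measurableSet_Ioo fun x hx => ?_
    rw [Real.rpow_two]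
    exact hf2 x hx
  have e2 : ∫ x in Ioo (0 : ℝ) 1, ‖g x‖ ^ (2 : ℝ) =
      ∫ x in Ioo (0 : ℝ) 1, ‖u x‖ ^ 2 * x ^ (-(3 / 4) : ℝ) := by
    refine setIntegral_congr_fun measurableSet_Ioo fun x hx => ?_
    rw [Real.rpow_two]
    exact hg2 x hx
  rw [e1, e2] at h1
  have h4 := h2.trans h1
  calc ‖∫ x in Ioo (0 : ℝ) 1, (k x : ℂ) * u x‖ ^ 2
      ≤ ((∫ x in Ioo (0 : ℝ) 1, k x ^ 2 * x ^ ((3 : ℝ) / 4)) ^ (1 / 2 : ℝ) *
        (∫ x in Ioo (0 : ℝ) 1, ‖u x‖ ^ 2 * x ^ (-(3 / 4) : ℝ)) ^ (1 / 2 : ℝ)) ^ 2 :=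
        pow_le_pow_left₀ (norm_nonneg _) h4 2
    _ = _ := by
        rw [← Real.sqrt_eq_rpow, ← Real.sqrt_eq_rpow, mul_pow, Real.sq_sqrt hA, Real.sq_sqrt hB]

/-- the integral of the inverse of the weight -/
theorem int_w : IntegrableOn (fun x : ℝ => x ^ (-(3 / 4) : ℝ)) (Ioo (0 : ℝ) 1) ∧
    ∫ x in Ioo (0 : ℝ) 1, x ^ (-(3 / 4) : ℝ) = 4 := by
  constructor
  · rw [intervalIntegral.integrableOn_Ioo_rpow_iff zero_lt_one]
    norm_num
  · rw [← integral_Ioc_eq_integral_Ioo, ← intervalIntegral.integral_of_le zero_le_one,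
      integral_rpow (Or.inl (by norm_num))]
    norm_num


/-- the norm on a bounded interval -/
theorem eLpT {f : ℝ → ℂ} {T p : ℝ} (hf : Continuous f) (hp : 1 ≤ p) :
    eLpNorm f (ENNReal.ofReal p) (volume.restrict (Ioc (0 : ℝ) T)) =
      ENNReal.ofReal ((∫ x in Ioc (0 : ℝ) T, ‖f x‖ ^ p) ^ (1 / p)) := by
  have hp0 : 0 < p := by linarith
  have hmem : MemLp f (ENNReal.ofReal p) (volume.restrict (Ioc (0 : ℝ) T)) := by
    obtain ⟨C, hC⟩ := (isCompact_Icc (a := (0 : ℝ)) (b := T)).exists_bound_of_continuousOn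
      hf.continuousOn
    refine MemLp.of_bound hf.aestronglyMeasurable C ?_
    filter_upwards [ae_restrict_mem measurableSet_Ioc] with x hx
    exact hC x ⟨hx.1.le, hx.2⟩
  rw [hmem.eLpNorm_eq_integral_rpow_norm (by
    rw [Ne, ENNReal.ofReal_eq_zero, not_le]; exact hp0) ENNReal.ofReal_ne_top,
    ENNReal.toReal_ofReal hp0.le, one_div]

/-- from bounded intervals to the half line -/
theorem eLp_lim {f : ℝ → ℂ} {p Z : ℝ} (hf : Continuous f) (hp : 1 ≤ p)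
    (h : ∀ T : ℝ, 0 < T → (∫ t in Ioc (0 : ℝ) T, ‖f t‖ ^ p) ^ (1 / p) ≤ Z) :
    eLpNorm f (ENNReal.ofReal p) (volume.restrict (Ioi (0 : ℝ))) ≤ ENNReal.ofReal Z := by
  have hp0 : 0 < p := by linarith
  have hpne : ENNReal.ofReal p ≠ 0 := by
    rw [Ne, ENNReal.ofReal_eq_zero, not_le]
    exact hp0
  have h1 : ∀ n : ℕ, ∫⁻ t in Ioc (0 : ℝ) n, ‖f t‖ₑ ^ p ≤ ENNReal.ofReal Z ^ p := by
    intro n
    rcases Nat.eq_zero_or_pos n with hn | hn
    · rw [hn]
      simp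
    have hn' : (0 : ℝ) < n := by exact_mod_cast hn
    have h2 := eLpT (T := n) hf hp
    rw [eLpNorm_eq_lintegral_rpow_enorm_toReal hpne ENNReal.ofReal_ne_top,
      ENNReal.toReal_ofReal hp0.le] at h2
    have h3 : (∫⁻ t in Ioc (0 : ℝ) n, ‖f t‖ₑ ^ p) ^ (1 / p) ≤ ENNReal.ofReal Z := by
      rw [h2]
      exact ENNReal.ofReal_le_ofReal (h n hn')
    calc ∫⁻ t in Ioc (0 : ℝ) n, ‖f t‖ₑ ^ p
        = ((∫⁻ t in Ioc (0 : ℝ) n, ‖f t‖ₑ ^ p) ^ (1 / p)) ^ p := by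
          rw [← ENNReal.rpow_mul, one_div, inv_mul_cancel₀ hp0.ne', ENNReal.rpow_one]
      _ ≤ _ := ENNReal.rpow_le_rpow h3 hp0.le
  have h4 : Ioi (0 : ℝ) = ⋃ n : ℕ, Ioc (0 : ℝ) n := by
    ext x
    simp only [mem_Ioi, mem_iUnion, mem_Ioc]
    constructor
    · intro hx
      obtain ⟨n, hn⟩ := exists_nat_ge x
      exact ⟨n, hx, hn⟩
    · rintro ⟨n, hx, _⟩
      exact hx
  have h5 : ∫⁻ t in Ioi (0 : ℝ), ‖f t‖ₑ ^ p ≤ ENNReal.ofReal Z ^ p := by
    rw [h4, setLIntegral_iUnion_of_directed]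
    · exact iSup_le h1
    · refine directed_of_isDirected_le fun m n hmn => ?_
      exact Ioc_subset_Ioc_right (by exact_mod_cast hmn)
  rw [eLpNorm_eq_lintegral_rpow_enorm_toReal hpne ENNReal.ofReal_ne_top,
    ENNReal.toReal_ofReal hp0.le]
  calc (∫⁻ t in Ioi (0 : ℝ), ‖f t‖ₑ ^ p) ^ (1 / p) ≤ (ENNReal.ofReal Z ^ p) ^ (1 / p) :=
        ENNReal.rpow_le_rpow h5 (by positivity)
    _ = ENNReal.ofReal Z := by
        rw [← ENNReal.rpow_mul, mul_one_div_cancel hp0.ne', ENNReal.rpow_one]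

section vec

variable {ι : Type} [Fintype ι] {p ε : ℝ} {a : ι → ℝ → ℂ}

/-- the norm of a vector valued function, as a complex valued function -/
noncomputable def Na (a : ι → ℝ → ℂ) (s : ℝ) : ℂ := ((Real.sqrt (∑ i, ‖a i s‖ ^ 2) : ℝ) : ℂ)

theorem Na_norm (s : ℝ) : ‖Na a s‖ = Real.sqrt (∑ i, ‖a i s‖ ^ 2) := by
  unfold Na
  rw [Complex.norm_real, Real.norm_of_nonneg (Real.sqrt_nonneg _)]

theorem Na_sq (s : ℝ) : ‖Na a s‖ ^ 2 = ∑ i, ‖a i s‖ ^ 2 := by
  rw [Na_norm, Real.sq_sqrt (Finset.sum_nonneg fun _ _ => by positivity)]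

theorem Na_cont (ha : ∀ i, Continuous (a i)) : Continuous (Na a) := by
  unfold Na
  exact Complex.continuous_ofReal.comp (Real.continuous_sqrt.comp
    (continuous_finsetSum _ fun i _ => (ha i).norm.pow 2))

theorem le_of_sum {x : ι → ℝ} {y : ℝ} (hy : 0 ≤ y) (h : ∑ i, x i ^ 2 = y ^ 2) (i : ι) :
    x i ≤ y := by
  have h1 : x i ^ 2 ≤ ∑ i, x i ^ 2 :=
    Finset.single_le_sum (f := fun i => x i ^ 2) (fun _ _ => sq_nonneg _) (Finset.mem_univ i)
  rw [h] at h1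
  exact le_of_sq_le_sq h1 hy

/-- the coefficient -/
noncomputable def vl (p ε : ℝ) (a : ι → ℝ → ℂ) (i : ι) (s : ℝ) : ℂ :=
  a i s * ((Real.exp ((p / 4 - 1 / 2) * Lg ε (Na a) s) : ℝ) : ℂ)

/-- the analytic family -/
noncomputable def vz (p ε : ℝ) (a : ι → ℝ → ℂ) (z : ℂ) (i : ι) (s : ℝ) : ℂ :=
  vl p ε a i s * Complex.exp (z * ((-ph p ε (Na a) s : ℝ) : ℂ))

/-- the dual family -/
noncomputable def hz (p ε : ℝ) (b : ι → ℝ → ℂ) (z : ℂ) (i : ι) (t : ℝ) : ℂ :=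
  (starRingEnd ℂ) (vl p ε b i t) * Complex.exp (z * (ph p ε (Na b) t : ℂ))

theorem vl_sum (s : ℝ) : ∑ i, ‖vl p ε a i s‖ ^ 2 = ‖al p ε (Na a) s‖ ^ 2 := by
  unfold vl al
  simp only [norm_mul, mul_pow]
  rw [← Finset.sum_mul, Na_sq]

theorem vl_le (i : ι) (s : ℝ) : ‖vl p ε a i s‖ ≤ ‖al p ε (Na a) s‖ :=
  le_of_sum (norm_nonneg _) (vl_sum s) i

theorem vl_cont (hε : 0 < ε) (ha : ∀ i, Continuous (a i)) (i : ι) : Continuous (vl p ε a i) :=
  (ha i).mul (Complex.continuous_ofReal.comp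
    (Real.continuous_exp.comp (continuous_const.mul (Lg_cont hε (Na_cont ha)))))

theorem vz_cont (hε : 0 < ε) (ha : ∀ i, Continuous (a i)) (z : ℂ) (i : ι) :
    Continuous (vz p ε a z i) :=
  (vl_cont hε ha i).mul (Complex.continuous_exp.comp (continuous_const.mul
    (Complex.continuous_ofReal.comp (ph_cont hε (Na_cont ha)).neg)))

theorem hz_cont (hε : 0 < ε) (ha : ∀ i, Continuous (a i)) (z : ℂ) (i : ι) :
    Continuous (hz p ε a z i) :=
  (Complex.continuous_conj.comp (vl_cont hε ha i)).mul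
    (Complex.continuous_exp.comp (continuous_const.mul
    (Complex.continuous_ofReal.comp (ph_cont hε (Na_cont ha)))))

theorem vz_norm (z : ℂ) (i : ι) (s : ℝ) :
    ‖vz p ε a z i s‖ = ‖vl p ε a i s‖ * Real.exp (-(z.re * ph p ε (Na a) s)) := by
  unfold vz
  rw [norm_mul, Complex.norm_exp, Complex.re_mul_ofReal, mul_neg]

theorem hz_norm (z : ℂ) (i : ι) (s : ℝ) :
    ‖hz p ε a z i s‖ = ‖vl p ε a i s‖ * Real.exp (z.re * ph p ε (Na a) s) := by
  unfold hz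
  rw [norm_mul, Complex.norm_exp, Complex.re_mul_ofReal, RCLike.norm_conj]

theorem vz_sum (z : ℂ) (s : ℝ) : ∑ i, ‖vz p ε a z i s‖ ^ 2 =
    (‖al p ε (Na a) s‖ * Real.exp (-(z.re * ph p ε (Na a) s))) ^ 2 := by
  simp only [vz_norm, mul_pow]
  rw [← Finset.sum_mul, vl_sum]

theorem hz_sum (z : ℂ) (s : ℝ) : ∑ i, ‖hz p ε a z i s‖ ^ 2 =
    (‖al p ε (Na a) s‖ * Real.exp (z.re * ph p ε (Na a) s)) ^ 2 := by
  simp only [hz_norm, mul_pow]
  rw [← Finset.sum_mul, vl_sum]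

theorem vz_theta (hp : 2 ≤ p) (i : ι) (s : ℝ) :
    vz p ε a ((1 - 2 / p : ℝ) : ℂ) i s = a i s := by
  have hp0 : p ≠ 0 := by linarith
  unfold vz vl
  rw [← Complex.ofReal_mul, ← Complex.ofReal_exp, mul_assoc, ← Complex.ofReal_mul, ← Real.exp_add]
  have h1 : (p / 4 - 1 / 2) * Lg ε (Na a) s + (1 - 2 / p) * -ph p ε (Na a) s = 0 := by
    unfold ph
    field_simp
    ring
  rw [h1, Real.exp_zero, Complex.ofReal_one, mul_one]

theorem hz_theta (hp : 2 ≤ p) (hε : 0 < ε) (s : ℝ) :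
    ‖Na a s‖ ^ p ≤ (∑ i, a i s * hz p ε a ((1 - 2 / p : ℝ) : ℂ) i s).re := by
  have h1 : ∑ i, a i s * hz p ε a ((1 - 2 / p : ℝ) : ℂ) i s =
      Na a s * gz p ε (Na a) ((1 - 2 / p : ℝ) : ℂ) s := by
    have h2 : ∀ i, a i s * hz p ε a ((1 - 2 / p : ℝ) : ℂ) i s =
        ((‖a i s‖ ^ 2 : ℝ) : ℂ) *
          (((Real.exp ((p / 4 - 1 / 2) * Lg ε (Na a) s) : ℝ) : ℂ) *
            Complex.exp (((1 - 2 / p : ℝ) : ℂ) * (ph p ε (Na a) s : ℂ))) := by
      intro i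
      unfold hz vl
      rw [map_mul, Complex.conj_ofReal, ← Complex.normSq_eq_norm_sq, ← Complex.mul_conj]
      ring
    have h3 : Na a s * gz p ε (Na a) ((1 - 2 / p : ℝ) : ℂ) s =
        ((‖Na a s‖ ^ 2 : ℝ) : ℂ) *
          (((Real.exp ((p / 4 - 1 / 2) * Lg ε (Na a) s) : ℝ) : ℂ) *
            Complex.exp (((1 - 2 / p : ℝ) : ℂ) * (ph p ε (Na a) s : ℂ))) := by
      unfold gz al
      rw [map_mul, Complex.conj_ofReal, ← Complex.normSq_eq_norm_sq, ← Complex.mul_conj]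
      ring
    rw [h3, Finset.sum_congr rfl fun i _ => h2 i, ← Finset.sum_mul, Na_sq, Complex.ofReal_sum]
  rw [h1]
  exact gz_theta hp hε s

theorem vz_Cc (hε : 0 < ε) (ha : ∀ i, Cc (a i)) (z : ℂ) (i : ι) : Cc (vz p ε a z i) := by
  have hL : ContDiff ℝ (⊤ : ℕ∞) (Lg ε (Na a)) := by
    have h1 : Lg ε (Na a) = fun s => Real.log ((∑ i, ‖a i s‖ ^ 2) + ε) := by
      funext s
      unfold Lg
      rw [Na_sq]
    rw [h1]
    refine ContDiff.log ((ContDiff.sum fun i _ => (ha i).1.norm_sq ℝ).add contDiff_const)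
      fun s => ?_
    have : 0 ≤ ∑ i, ‖a i s‖ ^ 2 := Finset.sum_nonneg fun _ _ => by positivity
    linarith
  have hofR : ContDiff ℝ (⊤ : ℕ∞) (fun x : ℝ => (x : ℂ)) := Complex.ofRealCLM.contDiff
  obtain ⟨has, c0, R, hc0, hcR, ha0, haR⟩ := ha i
  refine ⟨?_, c0, R, hc0, hcR, fun x hx => ?_, fun x hx => ?_⟩
  · unfold vz vl ph
    exact (has.mul (hofR.comp (Real.contDiff_exp.comp (contDiff_const.mul hL)))).mul
      (ContDiff.cexp (contDiff_const.mul (hofR.comp (contDiff_const.mul hL).neg)))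
  · unfold vz vl
    rw [ha0 x hx, zero_mul, zero_mul]
  · unfold vz vl
    rw [haR x hx, zero_mul, zero_mul]

/-- Minkowski -/
theorem mink (x y : ι → ℂ) : Real.sqrt (∑ i, ‖x i - y i‖ ^ 2) ≤
    Real.sqrt (∑ i, ‖x i‖ ^ 2) + Real.sqrt (∑ i, ‖y i‖ ^ 2) := by
  have h := norm_sub_le (WithLp.toLp 2 x : EuclideanSpace ℂ ι) (WithLp.toLp 2 y)
  rw [EuclideanSpace.norm_eq, EuclideanSpace.norm_eq, EuclideanSpace.norm_eq] at h
  exact h

end vec

/-- the operators on bounded vector valued functions -/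
theorem op_bound {ι : Type} [Fintype ι] {k : ι → ℝ → ℝ} {C : ℝ}
    (hk : ∀ i, ContinuousOn (k i) (Icc (0 : ℝ) 1)) (hC : 0 ≤ C)
    (hkC : ∀ i, ∫ x in Ioo (0 : ℝ) 1, k i x ^ 2 * x ^ ((3 : ℝ) / 4) ≤ C)
    {f : ι → ℝ → ℂ} (hf : ∀ i, Continuous (f i)) (hf1 : ∀ s, ∑ i, ‖f i s‖ ^ 2 ≤ 1) (t : ℝ) :
    Real.sqrt (∑ i, ‖opC (k i) (f i) t‖ ^ 2) ≤ 1 + 2 * Real.sqrt C := by
  have hfi : ∀ i s, ‖f i s‖ ≤ 1 := by
    intro i s
    have h1 : ‖f i s‖ ^ 2 ≤ ∑ i, ‖f i s‖ ^ 2 :=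
      Finset.single_le_sum (f := fun i => ‖f i s‖ ^ 2) (fun _ _ => sq_nonneg _)
        (Finset.mem_univ i)
    refine le_of_sq_le_sq ?_ zero_le_one
    rw [one_pow]
    exact h1.trans (hf1 s)
  have hcs := fun i => csw (hk i) ((hf i).comp (by fun_prop : Continuous fun x : ℝ => t * (1 - x)))
    (fun x => hfi i (t * (1 - x)))
  refine (mink (fun i => f i t) (fun i => ∫ x in Ioo (0 : ℝ) 1, (k i x : ℂ) *
    f i (t * (1 - x)))).trans ?_
  refine add_le_add ?_ ?_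
  · refine (Real.sqrt_le_sqrt (hf1 t)).trans ?_
    rw [Real.sqrt_one]
  · have h4 : ∑ i, ‖∫ x in Ioo (0 : ℝ) 1, (k i x : ℂ) * f i (t * (1 - x))‖ ^ 2 ≤ C * 4 := by
      calc ∑ i, ‖∫ x in Ioo (0 : ℝ) 1, (k i x : ℂ) * f i (t * (1 - x))‖ ^ 2
          ≤ ∑ i, C * ∫ x in Ioo (0 : ℝ) 1, ‖f i (t * (1 - x))‖ ^ 2 * x ^ (-(3 / 4) : ℝ) := by
            refine Finset.sum_le_sum fun i _ => ?_
            refine (hcs i).2.trans ?_
            refine mul_le_mul_of_nonneg_right (hkC i) ?_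
            refine setIntegral_nonneg measurableSet_Ioo fun x hx => ?_
            have := Real.rpow_nonneg hx.1.le (-(3 / 4) : ℝ)
            positivity
        _ = C * ∫ x in Ioo (0 : ℝ) 1, ∑ i, ‖f i (t * (1 - x))‖ ^ 2 * x ^ (-(3 / 4) : ℝ) := by
            rw [← Finset.mul_sum]
            congr 1
            rw [integral_finsetSum]
            intro i _
            exact (hcs i).1
        _ ≤ C * ∫ x in Ioo (0 : ℝ) 1, x ^ (-(3 / 4) : ℝ) := by
            refine mul_le_mul_of_nonneg_left ?_ hC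
            refine setIntegral_mono_on ?_ int_w.1 measurableSet_Ioo fun x hx => ?_
            · exact integrable_finsetSum _ fun i _ => (hcs i).1
            · rw [← Finset.sum_mul]
              have h0 := Real.rpow_nonneg hx.1.le (-(3 / 4) : ℝ)
              calc _ ≤ 1 * x ^ (-(3 / 4) : ℝ) :=
                    mul_le_mul_of_nonneg_right (hf1 (t * (1 - x))) h0
                _ = _ := one_mul _
        _ = C * 4 := by rw [int_w.2]
    calc Real.sqrt (∑ i, ‖∫ x in Ioo (0 : ℝ) 1, (k i x : ℂ) * f i (t * (1 - x))‖ ^ 2)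
        ≤ Real.sqrt (C * 4) := Real.sqrt_le_sqrt h4
      _ = 2 * Real.sqrt C := by
          rw [Real.sqrt_mul hC, show (4 : ℝ) = 2 ^ 2 by norm_num, Real.sqrt_sq (by norm_num),
            mul_comm]

/-- the key inequality -/
theorem key {ι : Type} [Fintype ι] {k : ι → ℝ → ℝ} {C p R T : ℝ}
    (hk : ∀ i, ContinuousOn (k i) (Icc (0 : ℝ) 1)) (hC : 0 ≤ C)
    (hkC : ∀ i, ∫ x in Ioo (0 : ℝ) 1, k i x ^ 2 * x ^ ((3 : ℝ) / 4) ≤ C) (hp : 2 ≤ p)
    (h2 : ∀ i, ∀ a : ℝ → ℂ, Cc a → eLpNorm (opC (k i) a) 2 mu ≤ eLpNorm a 2 mu)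
    {a b : ι → ℝ → ℂ} (ha : ∀ i, Cc (a i)) (haR : ∀ i x, R ≤ x → a i x = 0)
    (hb : b = fun i => opC (k i) (a i)) (hbc : ∀ i, Continuous (b i)) {D : ℝ}
    (haD : ∀ x, ‖Na a x‖ ≤ D) (hbD : ∀ x, ‖Na b x‖ ≤ D) {ε : ℝ} (hε : 0 < ε) :
    ∫ t in Ioc (0 : ℝ) T, ‖Na b t‖ ^ p ≤
      ((∫ t in Ioc (0 : ℝ) R, (‖Na a t‖ ^ 2 + ε) ^ (p / 2)) ^ (1 / 2 : ℝ) *
        (∫ t in Ioc (0 : ℝ) T, (‖Na b t‖ ^ 2 + ε) ^ (p / 2)) ^ (1 / 2 : ℝ)) ^ (1 - (1 - 2 / p)) *
      ((1 + 2 * Real.sqrt C) * ∫ t in Ioc (0 : ℝ) T, (‖Na b t‖ ^ 2 + ε) ^ (p / 2)) ^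
        (1 - 2 / p) := by
  have hp0 : 0 < p := by linarith
  have hac : ∀ i, Continuous (a i) := fun i => (ha i).1.continuous
  have hki : ∀ i, IntegrableOn (k i) (Ioo (0 : ℝ) 1) := fun i =>
    ((hk i).integrableOn_compact isCompact_Icc).mono_set Ioo_subset_Icc_self
  have hNa := Na_cont hac
  have hNb := Na_cont hbc
  have hsC := Real.sqrt_nonneg C
  obtain ⟨Da, hDa0, hDa⟩ := al_bound hε hp haD
  obtain ⟨Db, hDb0, hDb⟩ := al_bound hε hp hbD
  obtain ⟨D1, hD10, hD1⟩ := ph_bound hε hp haD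
  obtain ⟨D2, hD20, hD2⟩ := ph_bound hε hp hbD
  have hFi := fun i => FFC (T := T) (hki i) (vl_cont (p := p) hε hac i)
    (Complex.continuous_conj.comp (vl_cont (p := p) hε hbc i)) (ph_cont (p := p) hε hNa)
    (ph_cont (p := p) hε hNb) (fun s => (vl_le i s).trans (hDa s))
    (fun s => (by
      rw [Function.comp_apply, RCLike.norm_conj]
      exact (vl_le i s).trans (hDb s) : ‖(⇑(starRingEnd ℂ) ∘ vl p ε b i) s‖ ≤ Db)) hD1 hD2
  set F : ℂ → ℂ := fun z => ∑ i, ∫ t in Ioc (0 : ℝ) T,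
    opC (k i) (vz p ε a z i) t * hz p ε b z i t with hFdef
  have hF : Differentiable ℂ F := Differentiable.fun_sum fun i _ => (hFi i).1
  choose Dd hDd using fun i => (hFi i).2
  have hth0 : 0 ≤ 1 - 2 / p := by
    rw [sub_nonneg, div_le_one hp0]
    exact hp
  have hth1 : 1 - 2 / p ≤ 1 := by
    have : 0 < 2 / p := by positivity
    linarith
  have hvzb : ∀ (z : ℂ) (i : ι) (s : ℝ), ‖vz p ε a z i s‖ ≤ Da * Real.exp (|z.re| * D1) := by
    intro z i s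
    rw [vz_norm]
    refine mul_le_mul ((vl_le i s).trans (hDa s)) (Real.exp_le_exp.2 ?_) (Real.exp_pos _).le hDa0
    calc -(z.re * ph p ε (Na a) s) ≤ |z.re * ph p ε (Na a) s| := neg_le_abs _
      _ = |z.re| * |ph p ε (Na a) s| := abs_mul _ _
      _ ≤ _ := mul_le_mul_of_nonneg_left (hD1 s) (abs_nonneg _)
  have hopc : ∀ (z : ℂ) (i : ι), Continuous (opC (k i) (vz p ε a z i)) := fun z i =>
    (vz_cont hε hac z i).sub (avgC_cont (hki i) (vz_cont hε hac z i) (hvzb z i))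
  have hle2 : ∀ {f : ℝ → ℂ} {S : ℝ}, Continuous f → ∀ (u : ℝ → ℝ), Continuous u →
      (∀ t, u t ≤ Real.exp (ph p ε f t) ^ 2) →
      ∫ t in Ioc (0 : ℝ) S, u t ≤ ∫ t in Ioc (0 : ℝ) S, (‖f t‖ ^ 2 + ε) ^ (p / 2) := by
    intro f S hf u hu hle
    refine setIntegral_mono ?_ ?_ fun t => ?_
    · exact hu.integrableOn_Ioc
    · exact (Continuous.rpow_const ((hf.norm.pow 2).add continuous_const) fun x =>
        Or.inr (by linarith)).integrableOn_Ioc
    · rw [← exp_ph hε]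
      exact hle t
  have h3 := Complex.HadamardThreeLines.norm_le_interp_of_mem_verticalClosedStrip₀₁'
    F (z := ((1 - 2 / p : ℝ) : ℂ))
    (a := (∫ t in Ioc (0 : ℝ) R, (‖Na a t‖ ^ 2 + ε) ^ (p / 2)) ^ (1 / 2 : ℝ) *
      (∫ t in Ioc (0 : ℝ) T, (‖Na b t‖ ^ 2 + ε) ^ (p / 2)) ^ (1 / 2 : ℝ))
    (b := (1 + 2 * Real.sqrt C) * ∫ t in Ioc (0 : ℝ) T, (‖Na b t‖ ^ 2 + ε) ^ (p / 2))
    (by
      change (((1 - 2 / p : ℝ) : ℂ)).re ∈ Icc (0 : ℝ) 1
      rw [Complex.ofReal_re]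
      exact ⟨hth0, hth1⟩) hF.diffContOnCl
    ⟨∑ i, Dd i, by
      rintro _ ⟨z, hz, rfl⟩
      exact norm_sum_le_of_le _ fun i _ => hDd i z hz.1 hz.2⟩ ?_ ?_
  · rw [Complex.ofReal_re] at h3
    refine le_trans ?_ h3
    have hint : ∀ i, Integrable (fun t => b i t * hz p ε b ((1 - 2 / p : ℝ) : ℂ) i t)
        (volume.restrict (Ioc (0 : ℝ) T)) := fun i =>
      ((hbc i).mul (hz_cont hε hbc _ i)).integrableOn_Ioc
    have hFt : F ((1 - 2 / p : ℝ) : ℂ) =
        ∫ t in Ioc (0 : ℝ) T, ∑ i, b i t * hz p ε b ((1 - 2 / p : ℝ) : ℂ) i t := by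
      rw [integral_finsetSum _ fun i _ => hint i, hFdef]
      refine Finset.sum_congr rfl fun i _ => ?_
      have haz : vz p ε a ((1 - 2 / p : ℝ) : ℂ) i = a i := funext fun s => vz_theta hp i s
      rw [haz, hb]
    have hcs : Continuous fun t => ∑ i, b i t * hz p ε b ((1 - 2 / p : ℝ) : ℂ) i t :=
      continuous_finsetSum _ fun i _ => (hbc i).mul (hz_cont hε hbc _ i)
    have hint2 : Integrable (fun t => ∑ i, b i t * hz p ε b ((1 - 2 / p : ℝ) : ℂ) i t)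
        (volume.restrict (Ioc (0 : ℝ) T)) := hcs.integrableOn_Ioc
    have hre : (∫ t in Ioc (0 : ℝ) T, ∑ i, b i t * hz p ε b ((1 - 2 / p : ℝ) : ℂ) i t).re =
        ∫ t in Ioc (0 : ℝ) T, (∑ i, b i t * hz p ε b ((1 - 2 / p : ℝ) : ℂ) i t).re :=
      (integral_re hint2).symm
    rw [hFt]
    refine le_trans ?_ (Complex.re_le_norm _)
    rw [hre]
    refine setIntegral_mono ?_ ?_ fun t => hz_theta hp hε t
    · exact (Continuous.rpow_const hNb.norm fun x => Or.inr hp0.le).integrableOn_Ioc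
    · exact (Complex.continuous_re.comp hcs).integrableOn_Ioc
  · -- the line with real part zero
    intro z hz0'
    have hz0 : z.re = 0 := hz0'
    have h22 : (2 : ENNReal) = ENNReal.ofReal 2 := by
      rw [ENNReal.ofReal_ofNat]
    have hX0 : ∀ i, 0 ≤ ∫ t in Ioc (0 : ℝ) R, ‖vz p ε a z i t‖ ^ 2 := fun i =>
      integral_nonneg fun t => by positivity
    have hY0 : ∀ i, 0 ≤ ∫ t in Ioc (0 : ℝ) T, ‖hz p ε b z i t‖ ^ 2 := fun i =>
      integral_nonneg fun t => by positivity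
    have hi : ∀ i, ‖∫ t in Ioc (0 : ℝ) T, opC (k i) (vz p ε a z i) t * hz p ε b z i t‖ ≤
        Real.sqrt (∫ t in Ioc (0 : ℝ) R, ‖vz p ε a z i t‖ ^ 2) *
          Real.sqrt (∫ t in Ioc (0 : ℝ) T, ‖hz p ε b z i t‖ ^ 2) := by
      intro i
      have h5 := h2 i (vz p ε a z i) (vz_Cc hε ha z i)
      have haz0 : ∀ x, R ≤ x → vz p ε a z i x = 0 := by
        intro x hx
        unfold vz vl
        rw [haR i x hx, zero_mul, zero_mul]
      have h6 : eLpNorm (opC (k i) (vz p ε a z i)) (ENNReal.ofReal 2)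
          (volume.restrict (Ioc (0 : ℝ) T)) ≤ eLpNorm (opC (k i) (vz p ε a z i))
            (ENNReal.ofReal 2) (volume.restrict (Ioi (0 : ℝ))) :=
        eLpNorm_mono_measure _ (Measure.restrict_mono Ioc_subset_Ioi_self le_rfl)
      unfold mu at h5
      rw [h22] at h5
      have h7 := h6.trans h5
      rw [eLpT (hopc z i) one_le_two, (eLp (vz_cont hε hac z i) haz0 one_le_two).2,
        ENNReal.ofReal_le_ofReal_iff (by positivity)] at h7
      refine (cs (hopc z i) (hz_cont hε hbc z i)).trans ?_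
      have e1 : Real.sqrt (∫ t in Ioc (0 : ℝ) R, ‖vz p ε a z i t‖ ^ 2) =
          (∫ t in Ioc (0 : ℝ) R, ‖vz p ε a z i t‖ ^ (2 : ℝ)) ^ (1 / 2 : ℝ) := by
        rw [Real.sqrt_eq_rpow]
        simp only [Real.rpow_two]
      have e2 : Real.sqrt (∫ t in Ioc (0 : ℝ) T, ‖hz p ε b z i t‖ ^ 2) =
          (∫ t in Ioc (0 : ℝ) T, ‖hz p ε b z i t‖ ^ (2 : ℝ)) ^ (1 / 2 : ℝ) := by
        rw [Real.sqrt_eq_rpow]
        simp only [Real.rpow_two]
      rw [e1, e2]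
      refine mul_le_mul_of_nonneg_right h7 ?_
      exact Real.rpow_nonneg (integral_nonneg fun t => by positivity) _
    calc ‖F z‖ ≤ ∑ i, Real.sqrt (∫ t in Ioc (0 : ℝ) R, ‖vz p ε a z i t‖ ^ 2) *
          Real.sqrt (∫ t in Ioc (0 : ℝ) T, ‖hz p ε b z i t‖ ^ 2) :=
          norm_sum_le_of_le _ fun i _ => hi i
      _ ≤ Real.sqrt (∑ i, ∫ t in Ioc (0 : ℝ) R, ‖vz p ε a z i t‖ ^ 2) *
          Real.sqrt (∑ i, ∫ t in Ioc (0 : ℝ) T, ‖hz p ε b z i t‖ ^ 2) :=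
          Real.sum_sqrt_mul_sqrt_le _ hX0 hY0
      _ ≤ Real.sqrt (∫ t in Ioc (0 : ℝ) R, (‖Na a t‖ ^ 2 + ε) ^ (p / 2)) *
          Real.sqrt (∫ t in Ioc (0 : ℝ) T, (‖Na b t‖ ^ 2 + ε) ^ (p / 2)) := by
          refine mul_le_mul (Real.sqrt_le_sqrt ?_) (Real.sqrt_le_sqrt ?_) (Real.sqrt_nonneg _)
            (Real.sqrt_nonneg _)
          · have c3 : ∀ i, Continuous fun t => ‖vz p ε a z i t‖ ^ 2 := fun i =>
              (vz_cont hε hac z i).norm.pow 2
            have e3 := integral_finsetSum (μ := volume.restrict (Ioc (0 : ℝ) R)) Finset.univ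
              (f := fun i t => ‖vz p ε a z i t‖ ^ 2) fun i _ => (c3 i).integrableOn_Ioc
            rw [← e3]
            refine hle2 hNa _ (continuous_finsetSum _ fun i _ =>
              (vz_cont hε hac z i).norm.pow 2) fun t => ?_
            rw [vz_sum, hz0, zero_mul, neg_zero, Real.exp_zero, mul_one]
            exact pow_le_pow_left₀ (norm_nonneg _) (al_le hε t) 2
          · have c3 : ∀ i, Continuous fun t => ‖hz p ε b z i t‖ ^ 2 := fun i =>
              (hz_cont hε hbc z i).norm.pow 2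
            have e3 := integral_finsetSum (μ := volume.restrict (Ioc (0 : ℝ) T)) Finset.univ
              (f := fun i t => ‖hz p ε b z i t‖ ^ 2) fun i _ => (c3 i).integrableOn_Ioc
            rw [← e3]
            refine hle2 hNb _ (continuous_finsetSum _ fun i _ =>
              (hz_cont hε hbc z i).norm.pow 2) fun t => ?_
            rw [hz_sum, hz0, zero_mul, Real.exp_zero, mul_one]
            exact pow_le_pow_left₀ (norm_nonneg _) (al_le hε t) 2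
      _ = _ := by rw [Real.sqrt_eq_rpow, Real.sqrt_eq_rpow]
  · -- the line with real part one
    intro z hz1'
    have hz1 : z.re = 1 := hz1'
    have hvz1 : ∀ s, ∑ i, ‖vz p ε a z i s‖ ^ 2 ≤ 1 := by
      intro s
      rw [vz_sum, hz1, one_mul]
      have h5 : ‖al p ε (Na a) s‖ * Real.exp (-ph p ε (Na a) s) ≤ 1 := by
        calc ‖al p ε (Na a) s‖ * Real.exp (-ph p ε (Na a) s)
            ≤ Real.exp (ph p ε (Na a) s) * Real.exp (-ph p ε (Na a) s) :=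
              mul_le_mul_of_nonneg_right (al_le hε s) (Real.exp_pos _).le
          _ = 1 := by rw [← Real.exp_add, add_neg_cancel, Real.exp_zero]
      calc _ ≤ (1 : ℝ) ^ 2 := pow_le_pow_left₀ (by positivity) h5 2
        _ = 1 := one_pow 2
    have hhz1 : ∀ t, Real.sqrt (∑ i, ‖hz p ε b z i t‖ ^ 2) ≤ (‖Na b t‖ ^ 2 + ε) ^ (p / 2) := by
      intro t
      rw [hz_sum, hz1, one_mul, Real.sqrt_sq (by positivity), ← exp_ph hε, sq]
      exact mul_le_mul_of_nonneg_right (al_le hε t) (Real.exp_pos _).le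
    have hFz : F z = ∫ t in Ioc (0 : ℝ) T,
        ∑ i, opC (k i) (vz p ε a z i) t * hz p ε b z i t := by
      have e3 := integral_finsetSum (μ := volume.restrict (Ioc (0 : ℝ) T)) Finset.univ
        (f := fun i t => opC (k i) (vz p ε a z i) t * hz p ε b z i t) fun i _ =>
        ((hopc z i).mul (hz_cont hε hbc z i)).integrableOn_Ioc
      rw [e3]
    rw [hFz, ← integral_const_mul]
    refine norm_integral_le_of_norm_le ?_ (Eventually.of_forall fun t => ?_)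
    · exact (continuous_const.mul (Continuous.rpow_const
        ((hNb.norm.pow 2).add continuous_const) fun x => Or.inr (by linarith))).integrableOn_Ioc
    · calc ‖∑ i, opC (k i) (vz p ε a z i) t * hz p ε b z i t‖
          ≤ ∑ i, ‖opC (k i) (vz p ε a z i) t‖ * ‖hz p ε b z i t‖ :=
            norm_sum_le_of_le _ fun i _ => (norm_mul _ _).le
        _ ≤ Real.sqrt (∑ i, ‖opC (k i) (vz p ε a z i) t‖ ^ 2) *
            Real.sqrt (∑ i, ‖hz p ε b z i t‖ ^ 2) := Real.sum_mul_le_sqrt_mul_sqrt _ _ _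
        _ ≤ (1 + 2 * Real.sqrt C) * (‖Na b t‖ ^ 2 + ε) ^ (p / 2) :=
            mul_le_mul (op_bound hk hC hkC (vz_cont hε hac z) hvz1 t) (hhz1 t)
              (Real.sqrt_nonneg _) (by linarith)

/-- **Vector valued Riesz-Thorin interpolation for the kernel operators.** -/
theorem main : S_RTV := by
  intro ι _ k C p hk hC hkC hp h2 a ha
  have hp0 : 0 < p := by linarith
  have hac : ∀ i, Continuous (a i) := fun i => (ha i).1.continuous
  have hki : ∀ i, IntegrableOn (k i) (Ioo (0 : ℝ) 1) := fun i =>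
    ((hk i).integrableOn_compact isCompact_Icc).mono_set Ioo_subset_Icc_self
  have hsC := Real.sqrt_nonneg C
  have hNa := Na_cont hac
  -- the common support
  have ha' : ∀ i, ∃ c R : ℝ, 0 < c ∧ c < R ∧ (∀ x, x ≤ c → a i x = 0) ∧
      ∀ x, R ≤ x → a i x = 0 := fun i => (ha i).2
  choose c0 Ri hc0 hcR ha0 haRi using ha'
  obtain ⟨R, hRdef⟩ : ∃ R : ℝ, R = 1 + ∑ i, Ri i := ⟨_, rfl⟩
  have hRi0 : ∀ i, 0 ≤ Ri i := fun i => ((hc0 i).trans (hcR i)).le
  have hR : 0 < R := by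
    rw [hRdef]
    have := Finset.sum_nonneg fun i (_ : i ∈ Finset.univ) => hRi0 i
    linarith
  have hRR : ∀ i, Ri i ≤ R := by
    intro i
    have := Finset.single_le_sum (f := Ri) (fun i _ => hRi0 i) (Finset.mem_univ i)
    linarith
  have haR : ∀ i x, R ≤ x → a i x = 0 := fun i x hx => haRi i x ((hRR i).trans hx)
  have hNa0 : ∀ x, (∀ i, a i x = 0) → Na a x = 0 := by
    intro x hx
    unfold Na
    simp [hx]
  obtain ⟨CN, hCN0, hCN⟩ : ∃ CN : ℝ, 0 ≤ CN ∧ ∀ x, ‖Na a x‖ ≤ CN := by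
    obtain ⟨C1, hC1⟩ := (isCompact_Icc (a := (0 : ℝ)) (b := R)).exists_bound_of_continuousOn
      hNa.continuousOn
    refine ⟨max C1 0, le_max_right _ _, fun x => ?_⟩
    by_cases h : x ∈ Icc (0 : ℝ) R
    · exact (hC1 x h).trans (le_max_left _ _)
    · have h0 : Na a x = 0 := by
        by_cases h1 : x < 0
        · exact hNa0 x fun i => ha0 i x (by linarith [hc0 i])
        · refine hNa0 x fun i => haR i x ?_
          by_contra h2
          push Not at h1 h2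
          exact h ⟨h1, h2.le⟩
      rw [h0, norm_zero]
      exact le_max_right _ _
  have hai : ∀ i x, ‖a i x‖ ≤ CN := fun i x =>
    (le_of_sum (norm_nonneg _) (Na_sq x).symm i).trans (hCN x)
  obtain ⟨b, hbdef⟩ : ∃ b : ι → ℝ → ℂ, b = fun i => opC (k i) (a i) := ⟨_, rfl⟩
  have hbc : ∀ i, Continuous (b i) := by
    intro i
    rw [hbdef]
    exact (hac i).sub (avgC_cont (hki i) (hac i) (hai i))
  have hNb := Na_cont hbc
  obtain ⟨D, haD, hbD⟩ : ∃ D : ℝ, (∀ x, ‖Na a x‖ ≤ D) ∧ ∀ x, ‖Na b x‖ ≤ D := by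
    refine ⟨max CN (Real.sqrt (∑ i, (CN + (∫ x in Ioo (0 : ℝ) 1, |k i x|) * CN) ^ 2)),
      fun x => (hCN x).trans (le_max_left _ _), fun x => ?_⟩
    refine le_trans ?_ (le_max_right _ _)
    rw [Na_norm]
    refine Real.sqrt_le_sqrt (Finset.sum_le_sum fun i _ => ?_)
    refine pow_le_pow_left₀ (norm_nonneg _) ?_ 2
    rw [hbdef]
    exact (norm_sub_le _ _).trans (add_le_add (hai i x) (avgC_bound (hki i) (hai i) x))
  have hκ : 0 < 1 + 2 * Real.sqrt C := by linarith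
  have hth0 : 0 ≤ 1 - 2 / p := by
    rw [sub_nonneg, div_le_one hp0]
    exact hp
  -- the bound on bounded intervals
  have hfinT : ∀ T : ℝ, 0 < T → (∫ t in Ioc (0 : ℝ) T, ‖Na b t‖ ^ p) ^ (1 / p) ≤
      (1 + 2 * Real.sqrt C) ^ (1 - 2 / p) *
        (∫ t in Ioc (0 : ℝ) R, ‖Na a t‖ ^ p) ^ (1 / p) := by
    intro T hT
    have hlim : ∫ t in Ioc (0 : ℝ) T, ‖Na b t‖ ^ p ≤
        ((∫ t in Ioc (0 : ℝ) R, (‖Na a t‖ ^ 2 + |0|) ^ (p / 2)) ^ (1 / 2 : ℝ) *
          (∫ t in Ioc (0 : ℝ) T, (‖Na b t‖ ^ 2 + |0|) ^ (p / 2)) ^ (1 / 2 : ℝ)) ^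
            (1 - (1 - 2 / p)) *
        ((1 + 2 * Real.sqrt C) *
          ∫ t in Ioc (0 : ℝ) T, (‖Na b t‖ ^ 2 + |0|) ^ (p / 2)) ^ (1 - 2 / p) := by
      have hca := Pf_cont hp hR hNa
      have hcb := Pf_cont hp hT hNb
      have hc : Continuous fun ε : ℝ =>
          ((∫ t in Ioc (0 : ℝ) R, (‖Na a t‖ ^ 2 + |ε|) ^ (p / 2)) ^ (1 / 2 : ℝ) *
            (∫ t in Ioc (0 : ℝ) T, (‖Na b t‖ ^ 2 + |ε|) ^ (p / 2)) ^ (1 / 2 : ℝ)) ^
              (1 - (1 - 2 / p)) *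
          ((1 + 2 * Real.sqrt C) *
            ∫ t in Ioc (0 : ℝ) T, (‖Na b t‖ ^ 2 + |ε|) ^ (p / 2)) ^ (1 - 2 / p) := by
        refine Continuous.mul (Continuous.rpow_const (Continuous.mul
          (Continuous.rpow_const hca fun _ => Or.inr (by norm_num))
          (Continuous.rpow_const hcb fun _ => Or.inr (by norm_num))) fun _ => Or.inr ?_)
          (Continuous.rpow_const (continuous_const.mul hcb) fun _ => Or.inr hth0)
        have : 0 < 2 / p := by positivity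
        linarith
      refine ge_of_tendsto ((hc.tendsto 0).mono_left (nhdsWithin_le_nhds (s := Ioi (0 : ℝ)))) ?_
      filter_upwards [self_mem_nhdsWithin] with ε hε
      have hε' : (0 : ℝ) < ε := hε
      rw [abs_of_pos hε']
      exact key hk hC hkC hp h2 ha haR hbdef hbc haD hbD hε'
    have hpow : ∀ (f : ℝ → ℂ) (S : ℝ),
        (∫ t in Ioc (0 : ℝ) S, (‖f t‖ ^ 2 + |(0 : ℝ)|) ^ (p / 2)) =
        ∫ t in Ioc (0 : ℝ) S, ‖f t‖ ^ p := by
      intro f S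
      refine setIntegral_congr_fun measurableSet_Ioc fun t _ => ?_
      rw [abs_zero, add_zero, ← Real.rpow_natCast, ← Real.rpow_mul (norm_nonneg _)]
      congr 1
      push_cast
      ring
    rw [hpow, hpow] at hlim
    exact fin_alg hp hκ (integral_nonneg fun t => by positivity)
      (integral_nonneg fun t => by positivity) hlim
  have hfin := eLp_lim hNb (by linarith) hfinT
  have hNaR : ∀ x, R ≤ x → Na a x = 0 := fun x hx => hNa0 x fun i => haR i x hx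
  have e1 : eLpNorm (fun t => Real.sqrt (∑ i, ‖opC (k i) (a i) t‖ ^ 2)) (ENNReal.ofReal p) mu =
      eLpNorm (Na b) (ENNReal.ofReal p) mu := by
    refine eLpNorm_congr_norm_ae (Eventually.of_forall fun t => ?_)
    rw [Na_norm, Real.norm_of_nonneg (Real.sqrt_nonneg _), hbdef]
  have e2 : eLpNorm (fun t => Real.sqrt (∑ i, ‖a i t‖ ^ 2)) (ENNReal.ofReal p) mu =
      eLpNorm (Na a) (ENNReal.ofReal p) mu := by
    refine eLpNorm_congr_norm_ae (Eventually.of_forall fun t => ?_)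
    rw [Na_norm, Real.norm_of_nonneg (Real.sqrt_nonneg _)]
  rw [e1, e2]
  unfold mu
  rw [(eLp hNa hNaR (by linarith)).2, ← ENNReal.ofReal_mul (by positivity)]
  exact hfin

end Pool.Agent.R223.RY.RTV
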