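import Pool.Agent.R223.RY.Stm

/-!
# RY-VIRC: the virial estimates
-/

set_option autoImplicit false

open MeasureTheory Set Filter Topology

namespace Pool.Agent.R223.RY.VIRC

open Pool.Agent.R223.RX (nn del)

/-- the algebraic identity for the derivative of `H` -/
theorem alg (s δ n c U V : ℝ) (hs : s ≠ 0) (hy : s ^ 2 - δ ≠ 0) (h1 : 1 - (s ^ 2 - δ) ≠ 0) :
    (1 / (2 * s)) * V ^ 2 + s * (2 * V * (-(n * (1 - (s ^ 2 - δ)) / (s ^ 2 - δ) - c) * U / (1 - (s ^ 2 - δ)))) +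
      (((1 / (2 * s)) * (n * (1 - (s ^ 2 - δ)) / (s ^ 2 - δ) - c) + s * (-(n / (s ^ 2 - δ) ^ 2)) +
        (1 / (2 * s) + 3 * (1 - (s ^ 2 - δ)) / (4 * s ^ 3) + 3 * (1 - (s ^ 2 - δ)) ^ 2 / (8 * s ^ 5)) / 2) * U ^ 2 +
      (s * (n * (1 - (s ^ 2 - δ)) / (s ^ 2 - δ) - c) +
        (-((1 - (s ^ 2 - δ)) / (2 * s)) - (1 - (s ^ 2 - δ)) ^ 2 / (4 * s ^ 3)) / 2) *
        (2 * U * (V / (1 - (s ^ 2 - δ))))) -
      ((-(1 / (2 * s)) - (1 - (s ^ 2 - δ)) / (4 * s ^ 3)) * (U * V) +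
        (1 - (s ^ 2 - δ)) / (2 * s) * (V / (1 - (s ^ 2 - δ)) * V +
          U * (-(n * (1 - (s ^ 2 - δ)) / (s ^ 2 - δ) - c) * U / (1 - (s ^ 2 - δ))))) =
    -(1 / s) * (n + c - 1 / 4 + δ * n / (s ^ 2 - δ) ^ 2 - 3 * (1 - (s ^ 2 - δ)) / (8 * s ^ 2) -
      3 * (1 - (s ^ 2 - δ)) ^ 2 / (16 * s ^ 4)) * U ^ 2 := by
  field_simp
  ring

/-- the virial function -/
noncomputable def Hf (δ n c : ℝ) (U V : ℝ → ℝ) (x : ℝ) : ℝ :=
  Real.sqrt (x + δ) * V x ^ 2 +
    (Real.sqrt (x + δ) * (n * (1 - x) / x - c) +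
      (-((1 - x) / (2 * Real.sqrt (x + δ))) - (1 - x) ^ 2 / (4 * Real.sqrt (x + δ) ^ 3)) / 2) *
      U x ^ 2 -
    (1 - x) / (2 * Real.sqrt (x + δ)) * (U x * V x)

/-- the derivative of `H` -/
noncomputable def Hd (δ n c : ℝ) (U : ℝ → ℝ) (x : ℝ) : ℝ :=
  -(1 / Real.sqrt (x + δ)) * (n + c - 1 / 4 + δ * n / x ^ 2 - 3 * (1 - x) / (8 * (x + δ)) -
      3 * (1 - x) ^ 2 / (16 * (x + δ) ^ 2)) * U x ^ 2

theorem hasDerivAt_q (n c x : ℝ) (hx : 0 < x) :
    HasDerivAt (fun y : ℝ => n * (1 - y) / y - c) (-(n / x ^ 2)) x := by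
  have h0 : HasDerivAt (fun y : ℝ => n * (1 - y)) (-n) x := by
    have := ((hasDerivAt_id x).const_sub 1).const_mul n
    simpa using this
  have h1 := (h0.div (hasDerivAt_id x) hx.ne').sub_const c
  refine h1.congr_deriv ?_
  simp only [id]
  field_simp
  ring

theorem Hf_deriv {δ n c : ℝ} {U V : ℝ → ℝ} {x : ℝ} (hδ : 0 < δ) (hx : 0 < x) (hx1 : x < 1)
    (hU : HasDerivAt U (V x / (1 - x)) x)
    (hV : HasDerivAt V (-(n * (1 - x) / x - c) * U x / (1 - x)) x) :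
    HasDerivAt (Hf δ n c U V) (Hd δ n c U x) x := by
  have hz : 0 < x + δ := by linarith
  set s := Real.sqrt (x + δ) with hs
  have hs0 : 0 < s := Real.sqrt_pos.2 hz
  have hs2 : s ^ 2 = x + δ := Real.sq_sqrt hz.le
  have hS : HasDerivAt (fun y => Real.sqrt (y + δ)) (1 / (2 * s)) x := by
    have h1 : HasDerivAt (fun y : ℝ => y + δ) 1 x := (hasDerivAt_id x).add_const δ
    exact h1.sqrt hz.ne'
  have hv : HasDerivAt (fun y : ℝ => 1 - y) (-1) x := by
    simpa using (hasDerivAt_id x).const_sub 1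
  have hq := hasDerivAt_q n c x hx
  have hG1 : HasDerivAt (fun y : ℝ => (1 - y) / (2 * Real.sqrt (y + δ)))
      (-(1 / (2 * s)) - (1 - x) / (4 * s ^ 3)) x := by
    have h1 := hv.div (hS.const_mul 2) (by positivity : (2 * Real.sqrt (x + δ)) ≠ 0)
    refine h1.congr_deriv ?_
    rw [← hs]
    field_simp
    ring
  have hG2 : HasDerivAt (fun y : ℝ => -((1 - y) / (2 * Real.sqrt (y + δ))) -
      (1 - y) ^ 2 / (4 * Real.sqrt (y + δ) ^ 3))
      (1 / (2 * s) + 3 * (1 - x) / (4 * s ^ 3) + 3 * (1 - x) ^ 2 / (8 * s ^ 5)) x := by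
    have h1 := (hv.pow 2).div ((hS.pow 3).const_mul 4)
      (by positivity : (4 * Real.sqrt (x + δ) ^ 3) ≠ 0)
    have h2 := hG1.neg.sub h1
    refine h2.congr_deriv ?_
    simp only [Pi.pow_apply]
    rw [← hs]
    push_cast
    field_simp
    ring
  have hA : HasDerivAt (fun y => Real.sqrt (y + δ) * V y ^ 2)
      ((1 / (2 * s)) * V x ^ 2 + s * (2 * V x * (-(n * (1 - x) / x - c) * U x / (1 - x)))) x := by
    have := hS.mul (hV.pow 2)
    refine this.congr_deriv ?_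
    simp only [Pi.pow_apply]
    rw [← hs]
    push_cast
    ring
  have hB : HasDerivAt (fun y => (Real.sqrt (y + δ) * (n * (1 - y) / y - c) +
      (-((1 - y) / (2 * Real.sqrt (y + δ))) - (1 - y) ^ 2 / (4 * Real.sqrt (y + δ) ^ 3)) / 2) *
      U y ^ 2)
      (((1 / (2 * s)) * (n * (1 - x) / x - c) + s * (-(n / x ^ 2)) +
        (1 / (2 * s) + 3 * (1 - x) / (4 * s ^ 3) + 3 * (1 - x) ^ 2 / (8 * s ^ 5)) / 2) * U x ^ 2 +
      (s * (n * (1 - x) / x - c) + (-((1 - x) / (2 * s)) - (1 - x) ^ 2 / (4 * s ^ 3)) / 2) *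
        (2 * U x * (V x / (1 - x)))) x := by
    have h1 := ((hS.mul hq).add (hG2.div_const 2)).mul (hU.pow 2)
    refine h1.congr_deriv ?_
    simp only [Pi.pow_apply, Pi.add_apply, Pi.mul_apply]
    rw [← hs]
    push_cast
    ring
  have hCc : HasDerivAt (fun y => (1 - y) / (2 * Real.sqrt (y + δ)) * (U y * V y))
      ((-(1 / (2 * s)) - (1 - x) / (4 * s ^ 3)) * (U x * V x) +
        (1 - x) / (2 * s) * (V x / (1 - x) * V x +
          U x * (-(n * (1 - x) / x - c) * U x / (1 - x)))) x := by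
    have h2 := hG1.mul (hU.mul hV)
    refine h2.congr_deriv ?_
    simp only [Pi.mul_apply]
    rfl
  have hT := (hA.add hB).sub hCc
  refine hT.congr_deriv ?_
  have h6 : s ^ 2 - δ = x := by rw [hs2]; ring
  have h5 := alg s δ n c (U x) (V x) hs0.ne' (by rw [h6]; exact hx.ne')
    (by rw [h6]; linarith)
  rw [h6] at h5
  rw [h5]
  unfold Hd
  have h7 : s ^ 4 = (x + δ) ^ 2 := by rw [← hs2]; ring
  rw [h7, hs2]

/-- a decreasing function is at most its limit at `0` -/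
theorem le_of_lim {f f' : ℝ → ℝ} {l y : ℝ} (hy : 0 < y) (hf : ∀ t, 0 < t → t ≤ y → HasDerivAt f (f' t) t)
    (hn : ∀ t, 0 < t → t ≤ y → f' t ≤ 0) (hl : Tendsto f (𝓝[>] 0) (𝓝 l)) : f y ≤ l := by
  have hanti : AntitoneOn f (Ioc 0 y) := by
    apply antitoneOn_of_deriv_nonpos (convex_Ioc 0 y)
    · intro t ht
      exact (hf t ht.1 ht.2).continuousAt.continuousWithinAt
    · intro t ht
      rw [interior_Ioc] at ht
      exact (hf t ht.1 ht.2.le).differentiableAt.differentiableWithinAt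
    · intro t ht
      rw [interior_Ioc] at ht
      rw [(hf t ht.1 ht.2.le).deriv]
      exact hn t ht.1 ht.2.le
  refine ge_of_tendsto hl ?_
  have h1 : ∀ᶠ t in 𝓝[>] (0 : ℝ), t < y := by
    exact nhdsWithin_le_nhds (Iio_mem_nhds hy)
  filter_upwards [h1, self_mem_nhdsWithin] with t ht1 ht2
  exact hanti ⟨ht2, ht1.le⟩ ⟨hy, le_rfl⟩ ht1.le

/-- the data of the differential equation -/
structure Dat (δ n c C : ℝ) (U V : ℝ → ℝ) : Prop where
  hδ : 0 < δ
  hn : 1 ≤ n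
  hc : 0 ≤ c
  hC : 0 ≤ C
  hU : ∀ x, 0 < x → x < 1 → HasDerivAt U (V x / (1 - x)) x
  hV : ∀ x, 0 < x → x < 1 → HasDerivAt V (-(n * (1 - x) / x - c) * U x / (1 - x)) x
  lim0 : Tendsto V (𝓝[>] 0) (𝓝 n)
  lim1 : Tendsto V (𝓝[<] 1) (𝓝 0)
  bU : ∀ x, 0 < x → x < 1 → |U x| ≤ C * x
  bc : Tendsto (fun x => c * U x ^ 2) (𝓝[<] 1) (𝓝 0)

variable {δ n c C : ℝ} {U V : ℝ → ℝ}

/-- near `0` from the right we are in `(0, 1)` -/
theorem ev0 : ∀ᶠ t in 𝓝[>] (0 : ℝ), 0 < t ∧ t < 1 := by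
  have h1 : ∀ᶠ t in 𝓝[>] (0 : ℝ), t < 1 := nhdsWithin_le_nhds (Iio_mem_nhds one_pos)
  filter_upwards [h1, self_mem_nhdsWithin] with t ht1 ht2
  exact ⟨ht2, ht1⟩

theorem ev1 : ∀ᶠ t in 𝓝[<] (1 : ℝ), 0 < t ∧ t < 1 := by
  have h1 : ∀ᶠ t in 𝓝[<] (1 : ℝ), 0 < t := nhdsWithin_le_nhds (Ioi_mem_nhds one_pos)
  filter_upwards [h1, self_mem_nhdsWithin] with t ht1 ht2
  exact ⟨ht1, ht2⟩

theorem lim0_cont {f : ℝ → ℝ} (hf : Continuous f) {l : ℝ} (h : f 0 = l) : Tendsto f (𝓝[>] 0) (𝓝 l) := by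
  rw [← h]
  exact (hf.tendsto 0).mono_left nhdsWithin_le_nhds

theorem lim1_cont {f : ℝ → ℝ} (hf : Continuous f) {l : ℝ} (h : f 1 = l) : Tendsto f (𝓝[<] 1) (𝓝 l) := by
  rw [← h]
  exact (hf.tendsto 1).mono_left nhdsWithin_le_nhds

theorem Dat.U2 (h : Dat δ n c C U V) {x : ℝ} (hx : 0 < x) (hx1 : x < 1) : U x ^ 2 ≤ (C * x) ^ 2 := by
  rw [← sq_abs]
  exact pow_le_pow_left₀ (abs_nonneg _) (h.bU x hx hx1) 2

theorem Dat.U2' (h : Dat δ n c C U V) {x : ℝ} (hx : 0 < x) (hx1 : x < 1) : U x ^ 2 ≤ C ^ 2 := by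
  refine (h.U2 hx hx1).trans ?_
  rw [mul_pow]
  have : x ^ 2 ≤ 1 := by nlinarith
  nlinarith [sq_nonneg C]

theorem Dat.limU (h : Dat δ n c C U V) : Tendsto U (𝓝[>] 0) (𝓝 0) := by
  rw [tendsto_zero_iff_abs_tendsto_zero]
  have h1 : Tendsto (fun y : ℝ => C * y) (𝓝[>] 0) (𝓝 0) :=
    lim0_cont (by fun_prop) (by simp)
  refine squeeze_zero' (Eventually.of_forall fun _ => abs_nonneg _) ?_ h1
  filter_upwards [ev0] with y hy
  exact h.bU y hy.1 hy.2

theorem Dat.limqU (h : Dat δ n c C U V) :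
    Tendsto (fun x => (n * (1 - x) / x - c) * U x ^ 2) (𝓝[>] 0) (𝓝 0) := by
  rw [tendsto_zero_iff_abs_tendsto_zero]
  have h1 : Tendsto (fun y : ℝ => C ^ 2 * (n * y + c * y ^ 2)) (𝓝[>] 0) (𝓝 0) :=
    lim0_cont (by fun_prop) (by simp)
  refine squeeze_zero' (Eventually.of_forall fun _ => abs_nonneg _) ?_ h1
  filter_upwards [ev0] with y hy
  obtain ⟨hy0, hy1⟩ := hy
  have h3 := h.U2 hy0 hy1
  have hn0 : 0 < n := lt_of_lt_of_le one_pos h.hn
  have h4 : |n * (1 - y) / y - c| ≤ n / y + c := by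
    have e1 : 0 ≤ n * (1 - y) / y := div_nonneg (mul_nonneg hn0.le (by linarith)) hy0.le
    have e2 : n * (1 - y) / y ≤ n / y := by
      apply div_le_div_of_nonneg_right _ hy0.le
      nlinarith
    have := h.hc
    have e3 : 0 < n / y := div_pos hn0 hy0
    rw [abs_le]
    constructor <;> linarith
  simp only [Function.comp]
  rw [abs_mul, abs_of_nonneg (sq_nonneg (U y))]
  calc |n * (1 - y) / y - c| * U y ^ 2 ≤ (n / y + c) * (C * y) ^ 2 :=
        mul_le_mul h4 h3 (sq_nonneg _) (add_nonneg (div_nonneg hn0.le hy0.le) h.hc)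
    _ = C ^ 2 * (n * y + c * y ^ 2) := by field_simp

theorem Dat.limqU1 (h : Dat δ n c C U V) :
    Tendsto (fun x => (n * (1 - x) / x - c) * U x ^ 2) (𝓝[<] 1) (𝓝 0) := by
  have h1 : Tendsto (fun x => n * (1 - x) / x * U x ^ 2) (𝓝[<] 1) (𝓝 0) := by
    have h2 : Tendsto (fun y : ℝ => n * (1 - y) * C ^ 2) (𝓝[<] 1) (𝓝 0) :=
      lim1_cont (by fun_prop) (by simp)
    have hn0 : 0 < n := lt_of_lt_of_le one_pos h.hn
    refine squeeze_zero' ?_ ?_ h2
    · filter_upwards [ev1] with y hy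
      exact mul_nonneg (div_nonneg (mul_nonneg hn0.le (by linarith [hy.2])) hy.1.le) (sq_nonneg _)
    · filter_upwards [ev1] with y hy
      have h3 := h.U2 hy.1 hy.2
      have h4 : 0 ≤ n * (1 - y) / y := div_nonneg (mul_nonneg hn0.le (by linarith [hy.2])) hy.1.le
      calc n * (1 - y) / y * U y ^ 2 ≤ n * (1 - y) / y * (C * y) ^ 2 :=
            mul_le_mul_of_nonneg_left h3 h4
        _ = n * (1 - y) * C ^ 2 * y := by
            have := hy.1.ne'
            field_simp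
        _ ≤ n * (1 - y) * C ^ 2 * 1 := by
            apply mul_le_mul_of_nonneg_left hy.2.le
            exact mul_nonneg (mul_nonneg hn0.le (by linarith [hy.2])) (sq_nonneg _)
        _ = n * (1 - y) * C ^ 2 := by ring
  have h2 := h1.sub h.bc
  rw [sub_zero] at h2
  refine h2.congr fun x => ?_
  ring

theorem Dat.W_deriv (h : Dat δ n c C U V) {t : ℝ} (ht : 0 < t) (ht1 : t < 1) :
    HasDerivAt (fun x => V x ^ 2 + (n * (1 - x) / x - c) * U x ^ 2) (-(n * (U t / t) ^ 2)) t := by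
  have hq := hasDerivAt_q n c t ht
  have h1 := ((h.hV t ht ht1).pow 2).add (hq.mul ((h.hU t ht ht1).pow 2))
  refine h1.congr_deriv ?_
  simp only [Pi.pow_apply]
  have : (1 : ℝ) - t ≠ 0 := by linarith
  push_cast
  field_simp
  ring

theorem Dat.W_lim0 (h : Dat δ n c C U V) :
    Tendsto (fun x => V x ^ 2 + (n * (1 - x) / x - c) * U x ^ 2) (𝓝[>] 0) (𝓝 (n ^ 2)) := by
  have := (h.lim0.pow 2).add h.limqU
  rw [add_zero] at this
  exact this

theorem Dat.W_lim1 (h : Dat δ n c C U V) :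
    Tendsto (fun x => V x ^ 2 + (n * (1 - x) / x - c) * U x ^ 2) (𝓝[<] 1) (𝓝 0) := by
  have := (h.lim1.pow 2).add h.limqU1
  rw [add_zero] at this
  simpa using this

theorem Dat.W_le (h : Dat δ n c C U V) {y : ℝ} (hy : 0 < y) (hy1 : y < 1) :
    V y ^ 2 + (n * (1 - y) / y - c) * U y ^ 2 ≤ n ^ 2 := by
  refine le_of_lim (f := fun x => V x ^ 2 + (n * (1 - x) / x - c) * U x ^ 2) hy
    (fun t ht hty => h.W_deriv ht (lt_of_le_of_lt hty hy1)) (fun t ht _ => ?_) h.W_lim0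
  have : 0 ≤ n * (U t / t) ^ 2 := mul_nonneg (by linarith [h.hn]) (sq_nonneg _)
  linarith

/-- part (i) -/
theorem Dat.part1 (h : Dat δ n c C U V) {y : ℝ} (hy : 0 < y) (hy1 : y < 1)
    (hq : c * y ≤ n * (1 - y)) : |U y| ≤ n * (y / (1 - y)) := by
  have hn0 : 0 < n := lt_of_lt_of_le one_pos h.hn
  have hVb : ∀ t, 0 < t → t ≤ y → |V t| ≤ n := by
    intro t ht hty
    have ht1 : t < 1 := lt_of_le_of_lt hty hy1
    have h1 := h.W_le ht ht1
    have h2 : 0 ≤ n * (1 - t) / t - c := by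
      rw [sub_nonneg, le_div_iff₀ ht]
      calc c * t ≤ c * y := mul_le_mul_of_nonneg_left hty h.hc
        _ ≤ n * (1 - y) := hq
        _ ≤ n * (1 - t) := mul_le_mul_of_nonneg_left (by linarith) hn0.le
    have h3 : V t ^ 2 ≤ n ^ 2 := by
      have := mul_nonneg h2 (sq_nonneg (U t))
      linarith
    exact abs_le_of_sq_le_sq h3 hn0.le
  have hUl := h.limU
  have hyl : Tendsto (fun t : ℝ => n * (t / (1 - t))) (𝓝[>] 0) (𝓝 0) := by
    have h1 : Tendsto (fun t : ℝ => n * (t / (1 - t))) (𝓝 0) (𝓝 (n * (0 / (1 - 0)))) := by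
      apply Tendsto.const_mul
      apply Tendsto.div tendsto_id
      · exact tendsto_const_nhds.sub tendsto_id
      · norm_num
    have e : n * ((0 : ℝ) / (1 - 0)) = 0 := by simp
    rw [e] at h1
    exact h1.mono_left nhdsWithin_le_nhds
  have hbd : ∀ t, 0 < t → t ≤ y → |V t / (1 - t)| ≤ n / (1 - t) ^ 2 := by
    intro t ht hty
    have ht1 : 0 < 1 - t := by linarith
    rw [abs_div, abs_of_pos ht1, div_le_div_iff₀ ht1 (by positivity)]
    have h1 := hVb t ht hty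
    have h2 : (1 - t) ^ 2 ≤ 1 - t := by nlinarith
    calc |V t| * (1 - t) ^ 2 ≤ n * (1 - t) := mul_le_mul h1 h2 (sq_nonneg _) hn0.le
      _ = n * (1 - t) := rfl
  have hD : ∀ t, 0 < t → t ≤ y → HasDerivAt (fun t : ℝ => n * (t / (1 - t))) (n / (1 - t) ^ 2) t := by
    intro t ht hty
    have ht1 : (1 : ℝ) - t ≠ 0 := by linarith
    have h1 : HasDerivAt (fun y : ℝ => 1 - y) (-1) t := by
      simpa using (hasDerivAt_id t).const_sub 1
    have h2 := ((hasDerivAt_id t).div h1 ht1).const_mul n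
    refine h2.congr_deriv ?_
    simp only [id]
    field_simp
    ring
  have hA : U y - n * (y / (1 - y)) ≤ 0 := by
    refine le_of_lim (f := fun t => U t - n * (t / (1 - t)))
      (f' := fun t => V t / (1 - t) - n / (1 - t) ^ 2) hy
      (fun t ht hty => (h.hU t ht (lt_of_le_of_lt hty hy1)).sub (hD t ht hty))
      (fun t ht hty => ?_) (by simpa using hUl.sub hyl)
    have := (abs_le.1 (hbd t ht hty)).2
    linarith
  have hB : -U y - n * (y / (1 - y)) ≤ 0 := by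
    refine le_of_lim (f := fun t => -U t - n * (t / (1 - t)))
      (f' := fun t => -(V t / (1 - t)) - n / (1 - t) ^ 2) hy
      (fun t ht hty => (h.hU t ht (lt_of_le_of_lt hty hy1)).neg.sub (hD t ht hty))
      (fun t ht hty => ?_) (by simpa using hUl.neg.sub hyl)
    have := (abs_le.1 (hbd t ht hty)).1
    linarith
  rw [abs_le]
  constructor <;> linarith

theorem Dat.limH0 (h : Dat δ n c C U V) :
    Tendsto (Hf δ n c U V) (𝓝[>] 0) (𝓝 (Real.sqrt δ * n ^ 2)) := by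
  have hs0 : 0 < Real.sqrt δ := Real.sqrt_pos.2 h.hδ
  have hS : Tendsto (fun y : ℝ => Real.sqrt (y + δ)) (𝓝[>] 0) (𝓝 (Real.sqrt δ)) :=
    lim0_cont (by fun_prop) (by simp)
  have hY : Tendsto (fun y : ℝ => 1 - y) (𝓝[>] 0) (𝓝 1) :=
    lim0_cont (by fun_prop) (by simp)
  have h1 := hS.mul (h.lim0.pow 2)
  have h2 := hS.mul h.limqU
  have hG1 : Tendsto (fun y : ℝ => (1 - y) / (2 * Real.sqrt (y + δ))) (𝓝[>] 0)
      (𝓝 (1 / (2 * Real.sqrt δ))) := hY.div (hS.const_mul 2) (by positivity)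
  have hG2 : Tendsto (fun y : ℝ => (1 - y) ^ 2 / (4 * Real.sqrt (y + δ) ^ 3)) (𝓝[>] 0)
      (𝓝 (1 ^ 2 / (4 * Real.sqrt δ ^ 3))) := (hY.pow 2).div ((hS.pow 3).const_mul 4) (by positivity)
  have h3 := ((hG1.neg.sub hG2).div_const 2).mul (h.limU.pow 2)
  have h4 := hG1.mul (h.limU.mul h.lim0)
  have h5 := ((h1.add h2).add h3).sub h4
  have e : Real.sqrt δ * n ^ 2 + Real.sqrt δ * 0 +
      (-(1 / (2 * Real.sqrt δ)) - 1 ^ 2 / (4 * Real.sqrt δ ^ 3)) / 2 * 0 ^ 2 -
      1 / (2 * Real.sqrt δ) * (0 * n) = Real.sqrt δ * n ^ 2 := by ring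
  rw [e] at h5
  refine h5.congr fun y => ?_
  unfold Hf
  ring

theorem Dat.limH1 (h : Dat δ n c C U V) : Tendsto (Hf δ n c U V) (𝓝[<] 1) (𝓝 0) := by
  have hs0 : 0 < Real.sqrt (1 + δ) := Real.sqrt_pos.2 (by linarith [h.hδ])
  have hS : Tendsto (fun y : ℝ => Real.sqrt (y + δ)) (𝓝[<] 1) (𝓝 (Real.sqrt (1 + δ))) :=
    lim1_cont (by fun_prop) rfl
  have hY : Tendsto (fun y : ℝ => 1 - y) (𝓝[<] 1) (𝓝 0) :=
    lim1_cont (by fun_prop) (by simp)
  have hG1 : Tendsto (fun y : ℝ => (1 - y) / (2 * Real.sqrt (y + δ))) (𝓝[<] 1)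
      (𝓝 (0 / (2 * Real.sqrt (1 + δ)))) := hY.div (hS.const_mul 2) (by positivity)
  have hG2 : Tendsto (fun y : ℝ => (1 - y) ^ 2 / (4 * Real.sqrt (y + δ) ^ 3)) (𝓝[<] 1)
      (𝓝 (0 ^ 2 / (4 * Real.sqrt (1 + δ) ^ 3))) :=
    (hY.pow 2).div ((hS.pow 3).const_mul 4) (by positivity)
  have h1 := hS.mul (h.lim1.pow 2)
  have h2 := hS.mul h.limqU1
  have hG : Tendsto (fun y : ℝ => (-((1 - y) / (2 * Real.sqrt (y + δ))) -
      (1 - y) ^ 2 / (4 * Real.sqrt (y + δ) ^ 3)) / 2) (𝓝[<] 1) (𝓝 0) := by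
    have := (hG1.neg.sub hG2).div_const 2
    simpa using this
  have h3 : Tendsto (fun y : ℝ => (-((1 - y) / (2 * Real.sqrt (y + δ))) -
      (1 - y) ^ 2 / (4 * Real.sqrt (y + δ) ^ 3)) / 2 * U y ^ 2) (𝓝[<] 1) (𝓝 0) := by
    rw [tendsto_zero_iff_abs_tendsto_zero] at hG ⊢
    have h4 := hG.mul_const (C ^ 2)
    rw [zero_mul] at h4
    refine squeeze_zero' (Eventually.of_forall fun _ => abs_nonneg _) ?_ h4
    filter_upwards [ev1] with y hy
    simp only [Function.comp]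
    rw [abs_mul, abs_of_nonneg (sq_nonneg (U y))]
    exact mul_le_mul_of_nonneg_left (h.U2' hy.1 hy.2) (abs_nonneg _)
  have h4 : Tendsto (fun y : ℝ => (1 - y) / (2 * Real.sqrt (y + δ)) * (U y * V y)) (𝓝[<] 1) (𝓝 0) := by
    have h5 := hG1.mul h.lim1
    rw [mul_zero, tendsto_zero_iff_abs_tendsto_zero] at h5
    have h6 := h5.mul_const C
    rw [zero_mul] at h6
    rw [tendsto_zero_iff_abs_tendsto_zero]
    refine squeeze_zero' (Eventually.of_forall fun _ => abs_nonneg _) ?_ h6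
    filter_upwards [ev1] with y hy
    simp only [Function.comp]
    have h7 : |U y| ≤ C := (h.bU y hy.1 hy.2).trans (mul_le_of_le_one_right h.hC hy.2.le)
    calc |(1 - y) / (2 * Real.sqrt (y + δ)) * (U y * V y)| =
        |(1 - y) / (2 * Real.sqrt (y + δ)) * V y| * |U y| := by
          rw [← abs_mul]
          congr 1
          ring
      _ ≤ |(1 - y) / (2 * Real.sqrt (y + δ)) * V y| * C :=
          mul_le_mul_of_nonneg_left h7 (abs_nonneg _)
  have h5 := ((h1.add h2).add h3).sub h4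
  have e : Real.sqrt (1 + δ) * 0 ^ 2 + Real.sqrt (1 + δ) * 0 + 0 - 0 = 0 := by ring
  rw [e] at h5
  refine h5.congr fun y => ?_
  unfold Hf
  ring

theorem Dat.Hd_le (h : Dat δ n c C U V) (hδn : δ * n = 3 / 16) {x : ℝ} (hx : 0 < x) (hx1 : x < 1) :
    Hd δ n c U x ≤ -((n + c - 1 / 16) * (U x ^ 2 / Real.sqrt (x + δ))) := by
  have hz : 0 < x + δ := by linarith [h.hδ]
  have hs : 0 < Real.sqrt (x + δ) := Real.sqrt_pos.2 hz
  have hxz : x ≤ x + δ := by linarith [h.hδ]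
  have a1 : 3 * (1 - x) / (8 * (x + δ)) ≤ 3 * (1 - x) / (8 * x) :=
    div_le_div_of_nonneg_left (by linarith) (by positivity) (by linarith)
  have a2 : 3 * (1 - x) ^ 2 / (16 * (x + δ) ^ 2) ≤ 3 * (1 - x) ^ 2 / (16 * x ^ 2) := by
    apply div_le_div_of_nonneg_left (by positivity) (by positivity)
    have : x ^ 2 ≤ (x + δ) ^ 2 := pow_le_pow_left₀ hx.le hxz 2
    linarith
  have a3 : 3 / 16 / x ^ 2 - 3 * (1 - x) / (8 * x) - 3 * (1 - x) ^ 2 / (16 * x ^ 2) = 3 / 16 := by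
    field_simp
    ring
  unfold Hd
  rw [hδn]
  have h4 : 0 ≤ 1 / Real.sqrt (x + δ) * U x ^ 2 := by positivity
  have h5 : (n + c - 1 / 16) ≤ (n + c - 1 / 4 + 3 / 16 / x ^ 2 - 3 * (1 - x) / (8 * (x + δ)) -
      3 * (1 - x) ^ 2 / (16 * (x + δ) ^ 2)) := by
    linarith
  have h6 := mul_le_mul_of_nonneg_left h5 h4
  have e1 : (n + c - 1 / 16) * (U x ^ 2 / Real.sqrt (x + δ)) =
      1 / Real.sqrt (x + δ) * U x ^ 2 * (n + c - 1 / 16) := by
    field_simp
  rw [e1]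
  linarith

theorem Dat.part2 (h : Dat δ n c C U V) (hδn : δ * n = 3 / 16) {x : ℝ}
    (hx : 0 < x) (hx1 : x < 1) : Hf δ n c U V x ≤ Real.sqrt δ * n ^ 2 ∧
    Real.sqrt (x + δ) * (n * (1 - x) / x - c - (1 - x) / (4 * (x + δ)) -
      3 * (1 - x) ^ 2 / (16 * (x + δ) ^ 2)) * U x ^ 2 ≤ Hf δ n c U V x := by
  have hn := h.hn
  have hc := h.hc
  constructor
  · refine le_of_lim (f' := Hd δ n c U) hx
      (fun t ht htx => Hf_deriv h.hδ ht (lt_of_le_of_lt htx hx1)
        (h.hU t ht (lt_of_le_of_lt htx hx1)) (h.hV t ht (lt_of_le_of_lt htx hx1)))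
      (fun t ht htx => ?_) h.limH0
    refine (h.Hd_le hδn ht (lt_of_le_of_lt htx hx1)).trans ?_
    have : 0 ≤ (n + c - 1 / 16) * (U t ^ 2 / Real.sqrt (t + δ)) :=
      mul_nonneg (by linarith) (by positivity)
    linarith
  · have hz : 0 < x + δ := by linarith [h.hδ]
    unfold Hf
    set s := Real.sqrt (x + δ) with hs
    have hs0 : 0 < s := Real.sqrt_pos.2 hz
    have hs2 : s ^ 2 = x + δ := Real.sq_sqrt hz.le
    rw [← hs2]
    have e : s * V x ^ 2 + (s * (n * (1 - x) / x - c) +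
        (-((1 - x) / (2 * s)) - (1 - x) ^ 2 / (4 * s ^ 3)) / 2) * U x ^ 2 -
        (1 - x) / (2 * s) * (U x * V x) -
        s * (n * (1 - x) / x - c - (1 - x) / (4 * s ^ 2) -
          3 * (1 - x) ^ 2 / (16 * (s ^ 2) ^ 2)) * U x ^ 2 =
        s * (V x - (1 - x) / (4 * s ^ 2) * U x) ^ 2 := by
      field_simp
      ring
    have h2 : 0 ≤ s * (V x - (1 - x) / (4 * s ^ 2) * U x) ^ 2 := by positivity
    linarith

theorem intOn_bdd {f : ℝ → ℝ} (hf : ContinuousOn f (Ioo 0 1)) (M : ℝ)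
    (hM : ∀ x ∈ Ioo (0 : ℝ) 1, |f x| ≤ M) : IntegrableOn f (Ioo 0 1) := by
  unfold IntegrableOn
  refine Integrable.of_bound (hf.aestronglyMeasurable measurableSet_Ioo) M ?_
  exact (ae_restrict_iff' measurableSet_Ioo).2 (Eventually.of_forall fun t ht => hM t ht)

theorem Dat.contU (h : Dat δ n c C U V) : ContinuousOn U (Ioo 0 1) := fun x hx =>
  (h.hU x hx.1 hx.2).continuousAt.continuousWithinAt

theorem Dat.part3 (h : Dat δ n c C U V) (hδn : δ * n = 3 / 16) :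
    (n + c - 1 / 16) * ∫ x in Ioo (0 : ℝ) 1, U x ^ 2 / Real.sqrt (x + δ) ≤ Real.sqrt δ * n ^ 2 := by
  have hn := h.hn
  have hc := h.hc
  have hδ := h.hδ
  have hsδ : 0 < Real.sqrt δ := Real.sqrt_pos.2 hδ
  have hsle : ∀ x ∈ Ioo (0 : ℝ) 1, Real.sqrt δ ≤ Real.sqrt (x + δ) := fun x hx =>
    Real.sqrt_le_sqrt (by linarith [hx.1])
  have hcont : ContinuousOn (fun y => U y ^ 2 / Real.sqrt (y + δ)) (Ioo 0 1) := by
    apply ContinuousOn.div
    · exact h.contU.pow 2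
    · apply Continuous.continuousOn
      fun_prop
    · intro t ht
      exact (lt_of_lt_of_le hsδ (hsle t ht)).ne'
  have hcontH : ContinuousOn (Hd δ n c U) (Ioo 0 1) := by
    unfold Hd
    have c1 : ContinuousOn (fun x : ℝ => Real.sqrt (x + δ)) (Ioo 0 1) := by
      apply Continuous.continuousOn
      fun_prop
    have c2 : ContinuousOn (fun x : ℝ => x + δ) (Ioo 0 1) := by
      apply Continuous.continuousOn
      fun_prop
    have c3 : ContinuousOn (fun x : ℝ => 1 - x) (Ioo 0 1) := by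
      apply Continuous.continuousOn
      fun_prop
    have hz : ∀ x ∈ Ioo (0 : ℝ) 1, x + δ ≠ 0 := fun x hx => by
      have := hx.1
      linarith
    refine ContinuousOn.mul (ContinuousOn.mul ?_ ?_) (h.contU.pow 2)
    · refine (continuousOn_const.div c1 ?_).neg
      intro t ht
      exact (lt_of_lt_of_le hsδ (hsle t ht)).ne'
    · refine ContinuousOn.sub (ContinuousOn.sub (ContinuousOn.add continuousOn_const ?_) ?_) ?_
      · refine continuousOn_const.div (continuousOn_id.pow 2) ?_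
        intro t ht
        have := ht.1
        have h9 : t ^ 2 ≠ 0 := by positivity
        exact h9
      · refine (continuousOn_const.mul c3).div (continuousOn_const.mul c2) ?_
        intro t ht
        have := hz t ht
        simp [this]
      · refine (continuousOn_const.mul (c3.pow 2)).div (continuousOn_const.mul (c2.pow 2)) ?_
        intro t ht
        have := hz t ht
        simp [this]
  have hUb : ∀ x ∈ Ioo (0 : ℝ) 1, U x ^ 2 / Real.sqrt (x + δ) ≤ C ^ 2 / Real.sqrt δ := by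
    intro x hx
    exact div_le_div₀ (sq_nonneg _) (h.U2' hx.1 hx.2) hsδ (hsle x hx)
  have hi1 : IntegrableOn (fun y => U y ^ 2 / Real.sqrt (y + δ)) (Ioo 0 1) := by
    refine intOn_bdd hcont (C ^ 2 / Real.sqrt δ) fun t ht => ?_
    rw [abs_of_nonneg (by positivity)]
    exact hUb t ht
  have hi2 : IntegrableOn (Hd δ n c U) (Ioo 0 1) := by
    refine intOn_bdd hcontH
      (1 / Real.sqrt δ * ((n + c + 1 / 4 + 3 / (8 * δ) + 3 / (16 * δ ^ 2)) * C ^ 2 + δ * n * C ^ 2))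
      fun x hx => ?_
    · have hx0 := hx.1
      have hx1 := hx.2
      have hz : 0 < x + δ := by linarith
      have b1 : 1 / Real.sqrt (x + δ) ≤ 1 / Real.sqrt δ :=
        one_div_le_one_div_of_le hsδ (hsle x hx)
      have b2 : 3 * (1 - x) / (8 * (x + δ)) ≤ 3 / (8 * δ) := by
        apply div_le_div₀ (by norm_num) (by linarith) (by positivity) (by linarith)
      have b3 : 3 * (1 - x) ^ 2 / (16 * (x + δ) ^ 2) ≤ 3 / (16 * δ ^ 2) := by
        apply div_le_div₀ (by norm_num) _ (by positivity) _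
        · have : (1 - x) ^ 2 ≤ 1 := by nlinarith
          linarith
        · have : δ ^ 2 ≤ (x + δ) ^ 2 := pow_le_pow_left₀ hδ.le (by linarith) 2
          linarith
      have b2' : 0 ≤ 3 * (1 - x) / (8 * (x + δ)) := div_nonneg (by linarith) (by positivity)
      have b3' : 0 ≤ 3 * (1 - x) ^ 2 / (16 * (x + δ) ^ 2) := by positivity
      have b4 : δ * n / x ^ 2 * U x ^ 2 ≤ δ * n * C ^ 2 := by
        have h1 := h.U2 hx0 hx1
        have h2 : 0 ≤ δ * n / x ^ 2 := div_nonneg (mul_nonneg hδ.le (by linarith)) (sq_nonneg _)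
        refine (mul_le_mul_of_nonneg_left h1 h2).trans (le_of_eq ?_)
        field_simp
      have b4' : 0 ≤ δ * n / x ^ 2 * U x ^ 2 :=
        mul_nonneg (div_nonneg (mul_nonneg hδ.le (by linarith)) (sq_nonneg _)) (sq_nonneg _)
      set A : ℝ := n + c - 1 / 4 - 3 * (1 - x) / (8 * (x + δ)) -
        3 * (1 - x) ^ 2 / (16 * (x + δ) ^ 2) with hA
      have hAb : |A| ≤ n + c + 1 / 4 + 3 / (8 * δ) + 3 / (16 * δ ^ 2) := by
        have p1 : 0 ≤ 3 / (8 * δ) := by positivity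
        have p2 : 0 ≤ 3 / (16 * δ ^ 2) := by positivity
        rw [abs_le]
        constructor <;> linarith
      have e : Hd δ n c U x = -(1 / Real.sqrt (x + δ)) * (A * U x ^ 2 + δ * n / x ^ 2 * U x ^ 2) := by
        unfold Hd
        rw [hA]
        ring
      rw [e, abs_mul, abs_neg, abs_of_nonneg (by positivity : 0 ≤ 1 / Real.sqrt (x + δ))]
      apply mul_le_mul b1 _ (abs_nonneg _) (by positivity)
      refine (abs_add_le _ _).trans ?_
      rw [abs_of_nonneg b4', abs_mul, abs_of_nonneg (sq_nonneg (U x))]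
      apply add_le_add _ b4
      exact mul_le_mul hAb (h.U2' hx0 hx1) (sq_nonneg _) ((abs_nonneg _).trans hAb)
  have hint : ∫ x in (0 : ℝ)..1, Hd δ n c U x = 0 - Real.sqrt δ * n ^ 2 := by
    apply intervalIntegral.integral_eq_sub_of_hasDerivAt_of_tendsto one_pos
      (f := Hf δ n c U V)
    · intro x hx
      exact Hf_deriv hδ hx.1 hx.2 (h.hU x hx.1 hx.2) (h.hV x hx.1 hx.2)
    · rw [intervalIntegrable_iff_integrableOn_Ioo_of_le zero_le_one]
      exact hi2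
    · exact h.limH0
    · exact h.limH1
  rw [intervalIntegral.integral_of_le zero_le_one, integral_Ioc_eq_integral_Ioo] at hint
  rw [← integral_const_mul]
  calc ∫ x in Ioo (0 : ℝ) 1, (n + c - 1 / 16) * (U x ^ 2 / Real.sqrt (x + δ)) ≤
      ∫ x in Ioo (0 : ℝ) 1, -(Hd δ n c U x) := by
        apply setIntegral_mono_on (hi1.const_mul _) hi2.neg measurableSet_Ioo
        intro x hx
        have := h.Hd_le hδn hx.1 hx.2
        have e9 : (-Hd δ n c U) x = -(Hd δ n c U x) := rfl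
        rw [e9]
        linarith
    _ = Real.sqrt δ * n ^ 2 := by
        rw [integral_neg, hint]
        ring

theorem Dat.part4 (h : Dat δ n c C U V) (K : ℝ → ℝ) (hK : ∀ x, U x = x * K x) :
    ∫ x in Ioo (0 : ℝ) 1, K x ^ 2 ≤ n := by
  have hn := h.hn
  have hn0 : 0 < n := by linarith
  have hKe : ∀ x ∈ Ioo (0 : ℝ) 1, (U x / x) ^ 2 = K x ^ 2 := by
    intro x hx
    rw [hK, mul_div_cancel_left₀ _ hx.1.ne']
  have hcont : ContinuousOn (fun x => -(n * (U x / x) ^ 2)) (Ioo 0 1) := by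
    refine (continuousOn_const.mul ((h.contU.div continuousOn_id ?_).pow 2)).neg
    intro x hx
    exact hx.1.ne'
  have hi : IntegrableOn (fun x => -(n * (U x / x) ^ 2)) (Ioo 0 1) := by
    refine intOn_bdd hcont (n * C ^ 2) fun x hx => ?_
    · rw [abs_neg, abs_of_nonneg (by positivity)]
      apply mul_le_mul_of_nonneg_left _ hn0.le
      rw [div_pow, div_le_iff₀ (by have := hx.1; positivity), ← mul_pow]
      exact h.U2 hx.1 hx.2
  have hint : ∫ x in (0 : ℝ)..1, -(n * (U x / x) ^ 2) = 0 - n ^ 2 := by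
    apply intervalIntegral.integral_eq_sub_of_hasDerivAt_of_tendsto one_pos
      (f := fun x => V x ^ 2 + (n * (1 - x) / x - c) * U x ^ 2)
    · intro x hx
      exact h.W_deriv hx.1 hx.2
    · rw [intervalIntegrable_iff_integrableOn_Ioo_of_le zero_le_one]
      exact hi
    · exact h.W_lim0
    · exact h.W_lim1
  rw [intervalIntegral.integral_of_le zero_le_one, integral_Ioc_eq_integral_Ioo, integral_neg,
    integral_const_mul] at hint
  have e : ∫ x in Ioo (0 : ℝ) 1, (U x / x) ^ 2 = ∫ x in Ioo (0 : ℝ) 1, K x ^ 2 :=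
    setIntegral_congr_fun measurableSet_Ioo hKe
  rw [e] at hint
  have h2 : n * ∫ x in Ioo (0 : ℝ) 1, K x ^ 2 = n * n := by linarith
  exact (mul_left_cancel₀ hn0.ne' h2).le

theorem main : S_VIRC := by
  intro hode n m hn
  obtain ⟨U1, C, h1, h2, h3, h4, h5, h6⟩ := hode n m hn
  have hn' : (1 : ℝ) ≤ n := by exact_mod_cast hn
  have hm' : (0 : ℝ) ≤ m := Nat.cast_nonneg m
  have hN : 1 ≤ nn n m := by
    unfold nn
    nlinarith
  have hN0 : 0 < nn n m := by linarith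
  have hδ : 0 < del n m := by unfold del; positivity
  have hC : 0 ≤ C := (abs_nonneg _).trans (h6 (1 / 2) (by norm_num) (by norm_num))
  have hδn : del n m * nn n m = 3 / 16 := by
    unfold del
    field_simp
  have hrp : ∀ x : ℝ, 0 < x → x < 1 → (1 - x) ^ ((m : ℝ) / 2) ≤ 1 := by
    intro x hx hx1
    exact Real.rpow_le_one (by linarith) (by linarith) (by positivity)
  have hD : Dat (del n m) (nn n m) ((m : ℝ) ^ 2 / 4) C (UC n m) U1 := by
    refine ⟨hδ, hN, by positivity, hC, h1, h2, h3, h4, ?_, ?_⟩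
    · intro x hx hx1
      refine (h5 x hx hx1).trans ?_
      exact mul_le_of_le_one_right (by positivity) (hrp x hx hx1)
    · rcases Nat.eq_zero_or_pos m with hm | hm
      · subst hm
        simp
      · have hm1 : (0 : ℝ) < (m : ℝ) / 2 := by
          have : (1 : ℝ) ≤ m := by exact_mod_cast hm
          linarith
        have hl : Tendsto (fun x : ℝ => (m : ℝ) ^ 2 / 4 * (C * (1 - x) ^ ((m : ℝ) / 2)) ^ 2) (𝓝[<] 1)
            (𝓝 0) := by
          apply lim1_cont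
          · have : Continuous (fun x : ℝ => (1 - x) ^ ((m : ℝ) / 2)) :=
              (Real.continuous_rpow_const hm1.le).comp (by fun_prop)
            fun_prop
          · rw [sub_self, Real.zero_rpow hm1.ne']
            ring
        refine squeeze_zero' (Eventually.of_forall fun _ => by positivity) ?_ hl
        filter_upwards [ev1] with x hx
        apply mul_le_mul_of_nonneg_left _ (by positivity)
        rw [← sq_abs (UC n m x)]
        apply pow_le_pow_left₀ (abs_nonneg _)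
        refine (h5 x hx.1 hx.2).trans ?_
        apply mul_le_mul_of_nonneg_right _ (Real.rpow_nonneg (by linarith [hx.2]) _)
        exact mul_le_of_le_one_right hC hx.2.le
  refine ⟨fun x hx hx1 hq => hD.part1 hx hx1 (by linarith), fun x hx hx1 => ?_, ?_, ?_⟩
  · have := hD.part2 hδn hx hx1
    exact this.2.trans this.1
  · exact hD.part3 hδn
  · exact hD.part4 (KC n m) (fun x => rfl)

end Pool.Agent.R223.RY.VIRC
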