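import Pool.Agent.R223.RY.Ord
import Pool.Agent.R223.RY.KFN
import Pool.Agent.R223.RY.ODEC
import Pool.Agent.R223.RY.VIRC
import Pool.Agent.R223.RY.EC
import Pool.Agent.R223.RY.ISOC
import Pool.Agent.R223.RY.RTV
import Pool.Agent.R223.RY.PV2
import Pool.Agent.R223.RD.OV
import Pool.Agent.R223.RD.PV
import Pool.Agent.R223.RD.PI
import Pool.Agent.R223.RD.CH
import Pool.Agent.R223.RD.PC
import Pool.Agent.R223.RD.P
import Pool.Agent.R223.RD.AP
import Pool.Agent.R223.RD.TR
import Pool.Agent.R223.RD.SG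
import Pool.Agent.R223.RD.NK
import Pool.Agent.R223.RD.TY

/-! # Project RY: the bound for functions with frequencies in a band (helper223) -/

set_option autoImplicit false

open MeasureTheory Set Filter Topology
open scoped SchwartzMap ENNReal

namespace Pool.Agent.R223.RY.Fin

open Pool.Agent.Y282.RB (Tn Cn)
open Pool.Agent.R223.RD
open Pool.Agent.R223.RY.Asm

theorem pv1 : PVG (fun N => 1 + N) := PV.main OV.main PI.main CH.main PC.cj

theorem pv2 : PVG (fun N => 1 + 4 * Real.sqrt N) :=
  PV2.main KFN.main (ISOC.main KFN.main) RTV.main (EC.main (VIRC.main ODEC.main))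

theorem all1 : SqAllG (fun N => 1 + N) := sqAll _ (sqNeg _ pv1 AP.main TR.main) TR.tr2 SG.main

theorem all2 : SqAllG (fun N => 1 + 4 * Real.sqrt N) :=
  sqAll _ (sqNeg _ pv2 AP.main TR.main) TR.tr2 SG.main

theorem band : Ord.BandC := Ord.band all1 all2 NK.main TY.main

end Pool.Agent.R223.RY.Fin
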