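import Pool.Agent.R223.RX.Stm
import Pool.Agent.R223.RD.Stm2

/-!
# Project RY (helper223): powers of the Beurling transform on functions with many angular
frequencies in `[l, n]`

On the angular type `-m` (`m ≥ 0`) the operator `T^n` is, in `t = |z|^2` and up to unimodular
factors, `a ↦ b`, `b t = a t - ∫_0^1 KC n m x a (t (1 - x)) dx`,
`KC n m x = (1 - x) ^ (m / 2) ∑_{i < n} (-1)^i (i + 1) C(n, i + 1) C(n + m + i, i + 1) x^i`.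
With `N^2 = n (n + m)`: `∫_0^1 KC^2 x^(3/4) dx ≤ 4 N`, so by Cauchy-Schwarz with the weight
`x^(3/4)` (`∫ x^(-3/4) = 4`) a finite family of these operators is bounded on `L^∞ (ℓ^2)` by
`1 + 4 sqrt N`, and on `L^2 (ℓ^2)` by `1`; Riesz-Thorin.

The estimate: `U x = x KC x`, `D = (1 - x) d/dx`, `D (D U) = - q U`,
`q = N^2 (1 - x) / x - m^2 / 4`, `U ~ N^2 x` at `0`.  `g = sqrt (x + δ)`, `δ = 3 / (16 N^2)`,
`v = 1 - x`, `g1 = D g = v / (2 g)`, `g2 = D g1 = - v / (2 g) - v^2 / (4 g^3)`,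
`g3 = D g2 = v / (2 g) + 3 v^2 / (4 g^3) + 3 v^3 / (8 g^5)`,
`H = g (DU)^2 + (g q + g2 / 2) U^2 - g1 U (DU)`, `D H = (2 g1 q + g Dq + g3 / 2) U^2
  = - (v / g) (N^2 + m^2 / 4 + N^2 δ / x^2 - 1 / 4 - 3 v / (8 g^2) - 3 v^2 / (16 g^4)) U^2
  ≤ - (v / g) (N^2 + m^2 / 4 - 1 / 16) U^2`, since
`3 / (16 x^2) - 3 v / (8 x) - 3 v^2 / (16 x^2) = 3 / 16`.
-/

set_option autoImplicit false

open MeasureTheory Set Filter Topology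
open scoped SchwartzMap ENNReal

namespace Pool.Agent.R223.RY

open Pool.Agent.Y282.RB (Tn)
open Pool.Agent.Y282.RB.A2 (HH db dd)
open Pool.Agent.R223.RD (Cc)
open Pool.Agent.R223.RX (mu nn del)

/-- the polynomial factor -/
noncomputable def PP (n m : ℕ) (x : ℝ) : ℝ :=
  ∑ i ∈ Finset.range n,
    (-1 : ℝ) ^ i * (((i : ℝ) + 1) * (n.choose (i + 1)) * ((n + m + i).choose (i + 1))) * x ^ i

/-- the kernel -/
noncomputable def KC (n m : ℕ) (x : ℝ) : ℝ := (1 - x) ^ ((m : ℝ) / 2) * PP n m x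

noncomputable def UC (n m : ℕ) (x : ℝ) : ℝ := x * KC n m x

/-- the operator with kernel `k` -/
noncomputable def opC (k : ℝ → ℝ) (a : ℝ → ℂ) (t : ℝ) : ℂ :=
  a t - ∫ x in Ioo (0 : ℝ) 1, (k x : ℂ) * a (t * (1 - x))

/-- the kernel formula -/
def S_KFN : Prop := ∀ (n m : ℕ) (V : ℝ → ℂ), Cc V → ∀ t : ℝ, 0 < t →
  ((t ^ ((n : ℝ) + (m : ℝ) / 2) : ℝ) : ℂ) *
      iteratedDeriv n (fun x : ℝ => V x / ((x : ℂ) ^ (n + m))) t =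
    opC (KC n m) (fun s => ((s ^ (-((m : ℝ) / 2)) : ℝ) : ℂ) * iteratedDeriv n V s) t

/-- the differential equation.  (`UC = (1 - x) ^ (m / 2) G`, `G = x PP`, and
`x (1 - x) G'' - (m + 1) x G' + n (n + m) G = 0` by comparing coefficients) -/
def S_ODEC : Prop := ∀ n m : ℕ, 1 ≤ n → ∃ (U1 : ℝ → ℝ) (C : ℝ),
  (∀ x, 0 < x → x < 1 → HasDerivAt (UC n m) (U1 x / (1 - x)) x) ∧
  (∀ x, 0 < x → x < 1 →
    HasDerivAt U1 (-(nn n m * (1 - x) / x - (m : ℝ) ^ 2 / 4) * UC n m x / (1 - x)) x) ∧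
  Tendsto U1 (𝓝[>] 0) (𝓝 (nn n m)) ∧ Tendsto U1 (𝓝[<] 1) (𝓝 0) ∧
  (∀ x, 0 < x → x < 1 → |UC n m x| ≤ C * x * (1 - x) ^ ((m : ℝ) / 2)) ∧
  (∀ x, 0 < x → x < 1 → |U1 x| ≤ C)

/-- the virial estimates -/
def VirCC : Prop := ∀ n m : ℕ, 1 ≤ n →
  (∀ x, 0 < x → x < 1 → (m : ℝ) ^ 2 * x ≤ 4 * nn n m * (1 - x) →
    |UC n m x| ≤ nn n m * (x / (1 - x))) ∧
  (∀ x, 0 < x → x < 1 → Real.sqrt (x + del n m) *
    (nn n m * (1 - x) / x - (m : ℝ) ^ 2 / 4 - (1 - x) / (4 * (x + del n m)) -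
      3 * (1 - x) ^ 2 / (16 * (x + del n m) ^ 2)) * UC n m x ^ 2 ≤
    Real.sqrt (del n m) * nn n m ^ 2) ∧
  (nn n m + (m : ℝ) ^ 2 / 4 - 1 / 16) *
    ∫ x in Ioo (0 : ℝ) 1, UC n m x ^ 2 / Real.sqrt (x + del n m) ≤
      Real.sqrt (del n m) * nn n m ^ 2 ∧
  ∫ x in Ioo (0 : ℝ) 1, KC n m x ^ 2 ≤ nn n m

def S_VIRC : Prop := S_ODEC → VirCC

/-- the weighted `L^2` bound of the kernel -/
def EcC : Prop := ∀ n m : ℕ, ∫ x in Ioo (0 : ℝ) 1, KC n m x ^ 2 * x ^ ((3 : ℝ) / 4) ≤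
  4 * Real.sqrt (nn n m)

def S_EC : Prop := VirCC → EcC

/-- the `L^2` bound -/
def IsoCC : Prop := ∀ (n m : ℕ) (a : ℝ → ℂ), Cc a → eLpNorm (opC (KC n m) a) 2 mu ≤ eLpNorm a 2 mu

def S_ISOC : Prop := S_KFN → IsoCC

/-- vector valued Riesz-Thorin between `L^2 (ℓ^2)` and `L^∞ (ℓ^2)` -/
def S_RTV : Prop := ∀ (ι : Type) [Fintype ι] (k : ι → ℝ → ℝ) (C p : ℝ),
  (∀ i, ContinuousOn (k i) (Icc (0 : ℝ) 1)) → 0 ≤ C →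
  (∀ i, ∫ x in Ioo (0 : ℝ) 1, k i x ^ 2 * x ^ ((3 : ℝ) / 4) ≤ C) → 2 ≤ p →
  (∀ i, ∀ a : ℝ → ℂ, Cc a → eLpNorm (opC (k i) a) 2 mu ≤ eLpNorm a 2 mu) →
  ∀ a : ι → ℝ → ℂ, (∀ i, Cc (a i)) →
    eLpNorm (fun t => Real.sqrt (∑ i, ‖opC (k i) (a i) t‖ ^ 2)) (ENNReal.ofReal p) mu ≤
      ENNReal.ofReal ((1 + 2 * Real.sqrt C) ^ (1 - 2 / p)) *
        eLpNorm (fun t => Real.sqrt (∑ i, ‖a i t‖ ^ 2)) (ENNReal.ofReal p) mu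

/-- the square function bound on the nice class (as in `S_PV`, another constant) -/
def Pv2C : Prop := ∀ (ι : Type) [Fintype ι] (m n : ι → ℕ) (N p : ℝ)
  (V : ι → ℝ → ℂ), (∀ i, n i ≤ m i) → 0 ≤ N → (∀ i, (n i : ℝ) * m i ≤ N ^ 2) → 2 ≤ p →
  (∀ i, Cc (V i)) →
  ∃ F : ι → 𝓢(ℂ, ℂ),
    (∀ i z, F i z = (z⁻¹) ^ (m i - n i) * iteratedDeriv (n i) (V i) (Complex.normSq z)) ∧
    eLpNorm (fun z : ℂ => Real.sqrt (∑ i, ‖Tn (n i) (F i) z‖ ^ 2)) (ENNReal.ofReal p)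
        (volume : Measure ℂ)
      ≤ ENNReal.ofReal ((1 + 4 * Real.sqrt N) ^ (1 - 2 / p)) *
        eLpNorm (fun z : ℂ => Real.sqrt (∑ i, ‖F i z‖ ^ 2)) (ENNReal.ofReal p)
          (volume : Measure ℂ)

def S_PV2 : Prop := S_KFN → IsoCC → S_RTV → EcC → Pv2C

end Pool.Agent.R223.RY
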